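import Mathlib

/-!
# Coding by sparsity into sums of exactly `m` elements: combinatorics

For a set `T` of thresholds, `col T` colours the natural numbers with 7 colours. If all the sums
`b + x + y` with `x < y` in `X` have the same colour, then `X` has at most `M` elements between two
consecutive large thresholds `M < M'` (more precisely in `[M, (M' - b) / 2)`).
-/

set_option autoImplicit false

namespace Run7.h628

/-- the largest threshold which is at most `s` (`0` if there is none) -/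
def top (T : ℕ → Bool) (s : ℕ) : ℕ := Nat.findGreatest (fun t => T t = true) s

/-- the distance of `s` to the multiples of `M` -/
def dst (M s : ℕ) : ℕ := min (s % M) (M - s % M)

theorem top_le (T : ℕ → Bool) (s : ℕ) : top T s ≤ s := Nat.findGreatest_le s

theorem dst_lt {M s : ℕ} (hM : 0 < M) (h : M ≤ s) : dst M s < s := by
  have := Nat.mod_lt s hM
  unfold dst
  omega

/-- the parity of the length of the chain `s`, `dst (top T s) s`, ... -/
def par (T : ℕ → Bool) (s : ℕ) : Bool :=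
  if _h : top T s = 0 then false else !(par T (dst (top T s) s))
termination_by s
decreasing_by exact dst_lt (Nat.pos_of_ne_zero _h) (top_le T s)

theorem par_of_top_ne {T : ℕ → Bool} {s : ℕ} (h : top T s ≠ 0) :
    par T s = !(par T (dst (top T s) s)) := by
  rw [par]
  simp [h]

theorem par_of_top_eq {T : ℕ → Bool} {s : ℕ} (h : top T s = 0) : par T s = false := by
  rw [par]
  simp [h]

/-- the scale of `a` relative to `M` -/
def cls (M a : ℕ) : ℕ := Nat.log 3 (9 * M ^ 2 / (64 * a ^ 2))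

/-- the part of the colour of `s` which depends on the residue modulo the top threshold `M` -/
def pre (M s : ℕ) : ℕ :=
  if 3 * M ≤ 8 * dst M s then 3
  else (cls M (dst M s) + (if 2 * (s % M) ≤ M then 0 else 1)) % 3

/-- the colouring -/
def col (T : ℕ → Bool) (s : ℕ) : ℕ :=
  if top T s = 0 then 0
  else if pre (top T s) s = 3 then 6
  else 2 * pre (top T s) s + (par T (dst (top T s) s)).toNat

theorem pre_lt (M s : ℕ) : pre M s < 4 := by
  unfold pre
  split_ifs <;> omega

theorem col_lt (T : ℕ → Bool) (s : ℕ) : col T s < 7 := by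
  unfold col
  have h1 := pre_lt (top T s) s
  have h2 : (par T (dst (top T s) s)).toNat ≤ 1 := Bool.toNat_le _
  split_ifs <;> omega

/-! ### scales -/

theorem cls_shift {M a b : ℕ} (ha : 0 < a) (hb : 0 < b) (hbM : 8 * b < 3 * M)
    (h1 : 49 * a ≤ 25 * b) (h2 : 50 * b ≤ 102 * a) :
    cls M a = cls M b + 1 ∨ cls M a = cls M b + 2 := by
  have haM : 8 * a < 3 * M := by omega
  have qa : 0 < 64 * a ^ 2 := by positivity
  have qb : 0 < 64 * b ^ 2 := by positivity
  have nb : 9 * M ^ 2 / (64 * b ^ 2) ≠ 0 := by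
    have : 1 ≤ 9 * M ^ 2 / (64 * b ^ 2) := by
      rw [Nat.le_div_iff_mul_le qb]
      nlinarith
    omega
  have na : 9 * M ^ 2 / (64 * a ^ 2) ≠ 0 := by
    have : 1 ≤ 9 * M ^ 2 / (64 * a ^ 2) := by
      rw [Nat.le_div_iff_mul_le qa]
      nlinarith
    omega
  set r := cls M b with hr
  have e1 : 3 ^ r * (64 * b ^ 2) ≤ 9 * M ^ 2 := by
    rw [← Nat.le_div_iff_mul_le qb]
    exact Nat.pow_log_le_self 3 nb
  have e2 : 9 * M ^ 2 < 3 ^ (r + 1) * (64 * b ^ 2) := by
    rw [← Nat.div_lt_iff_lt_mul qb]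
    exact Nat.lt_pow_succ_log_self (by norm_num) _
  have sq1 : 2401 * a ^ 2 ≤ 625 * b ^ 2 := by nlinarith
  have sq2 : 2500 * b ^ 2 ≤ 10404 * a ^ 2 := by nlinarith
  have e3 : r + 1 ≤ cls M a := by
    apply Nat.le_log_of_pow_le (by norm_num)
    rw [Nat.le_div_iff_mul_le qa]
    have : 3 ^ (r + 1) * (64 * a ^ 2) ≤ 3 ^ r * (64 * b ^ 2) := by
      have h3 : 3 * (64 * a ^ 2) ≤ 64 * b ^ 2 := by nlinarith
      calc 3 ^ (r + 1) * (64 * a ^ 2) = 3 ^ r * (3 * (64 * a ^ 2)) := by ring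
        _ ≤ 3 ^ r * (64 * b ^ 2) := Nat.mul_le_mul_left _ h3
    omega
  have e4 : cls M a < r + 3 := by
    apply Nat.log_lt_of_lt_pow na
    rw [Nat.div_lt_iff_lt_mul qa]
    have : 3 ^ (r + 1) * (64 * b ^ 2) ≤ 3 ^ (r + 3) * (64 * a ^ 2) := by
      have h3 : 64 * b ^ 2 ≤ 9 * (64 * a ^ 2) := by nlinarith
      calc 3 ^ (r + 1) * (64 * b ^ 2) ≤ 3 ^ (r + 1) * (9 * (64 * a ^ 2)) :=
            Nat.mul_le_mul_left _ h3
        _ = 3 ^ (r + 3) * (64 * a ^ 2) := by ring
    omega
  omega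

theorem cls_zero {M a : ℕ} (h : 9 * M ^ 2 < 192 * a ^ 2) : cls M a = 0 := by
  have ha : 0 < a := by
    rcases Nat.eq_zero_or_pos a with h0 | h0
    · subst h0; simp at h
    · exact h0
  have qa : 0 < 64 * a ^ 2 := by positivity
  unfold cls
  apply Nat.log_of_lt
  rw [Nat.div_lt_iff_lt_mul qa]
  omega

/-- the main arithmetical lemma: doubling changes the colour -/
theorem chi {M s1 s2 δ : ℕ} (hM : 100 * (δ + 1) ≤ M) (h : s2 + δ ≡ 2 * s1 [MOD M])
    (hs : 50 * (δ + 1) < dst M s1) : pre M s1 ≠ pre M s2 := by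
  have hM0 : 0 < M := by omega
  have hr1 := Nat.mod_lt s1 hM0
  have hr2 := Nat.mod_lt s2 hM0
  have hk : ∃ k : ℤ, 2 * ((s1 % M : ℕ) : ℤ) - (((s2 % M : ℕ) : ℤ) + δ) = M * k := by
    have h1 : (s2 % M + δ) ≡ 2 * (s1 % M) [MOD M] := by
      calc (s2 % M + δ) ≡ s2 + δ [MOD M] := (Nat.mod_modEq s2 M).add_right δ
        _ ≡ 2 * s1 [MOD M] := h
        _ ≡ 2 * (s1 % M) [MOD M] := (Nat.mod_modEq s1 M).symm.mul_left 2
    have h2 := h1.dvd
    push_cast at h2
    obtain ⟨k, hk⟩ := h2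
    exact ⟨k, by push_cast; linarith⟩
  obtain ⟨k, hk⟩ := hk
  unfold dst at hs
  unfold pre dst
  generalize s1 % M = r1 at *
  generalize s2 % M = r2 at *
  have hkk : k = -1 ∨ k = 0 ∨ k = 1 := by
    have hMz : (0 : ℤ) < M := by exact_mod_cast hM0
    have a1 : (M : ℤ) * k < M * 2 := by
      rw [← hk]; omega
    have a2 : (M : ℤ) * (-2) < M * k := by
      rw [← hk]; omega
    have b1 := lt_of_mul_lt_mul_left a1 hMz.le
    have b2 := lt_of_mul_lt_mul_left a2 hMz.le
    omega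
  have hcases : r2 + δ = 2 * r1 + M ∨ r2 + δ = 2 * r1 ∨ r2 + δ + M = 2 * r1 := by
    rcases hkk with rfl | rfl | rfl <;> omega
  clear hk hkk
  by_cases hA : 3 * M ≤ 8 * min r1 (M - r1)
  · by_cases hB : 3 * M ≤ 8 * min r2 (M - r2)
    · exfalso; omega
    · rw [if_pos hA, if_neg hB]; omega
  by_cases hB : 3 * M ≤ 8 * min r2 (M - r2)
  · rw [if_neg hA, if_pos hB]; omega
  rw [if_neg hA, if_neg hB]
  by_cases hsgn : 2 * r1 ≤ M
  · -- `u` is positive
    have hm1 : min r1 (M - r1) = r1 := by omega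
    rw [hm1] at hA hs ⊢
    have hr : r2 + δ = 2 * r1 := by omega
    by_cases hw : 2 * r2 ≤ M
    · have hm2 : min r2 (M - r2) = r2 := by omega
      rw [hm2] at hB ⊢
      have := cls_shift (M := M) (a := r1) (b := r2) (by omega) (by omega) (by omega) (by omega)
        (by omega)
      rw [if_pos hsgn, if_pos hw]
      omega
    · have hm2 : min r2 (M - r2) = M - r2 := by omega
      rw [hm2] at hB ⊢
      have c1 : cls M r1 = 0 := cls_zero (by
        have : 5 * M ≤ 16 * r1 := by omega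
        nlinarith)
      have c2 : cls M (M - r2) = 0 := cls_zero (by
        have : M ≤ 4 * (M - r2) := by omega
        nlinarith)
      rw [if_pos hsgn, if_neg hw, c1, c2]
      omega
  · have hm1 : min r1 (M - r1) = M - r1 := by omega
    rw [hm1] at hA hs ⊢
    have hr : r2 + δ + M = 2 * r1 := by omega
    by_cases hw : 2 * r2 ≤ M
    · have hm2 : min r2 (M - r2) = r2 := by omega
      rw [hm2] at hB ⊢
      have c1 : cls M (M - r1) = 0 := cls_zero (by
        have : 3 * M ≤ 10 * (M - r1) := by omega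
        nlinarith)
      have c2 : cls M r2 = 0 := cls_zero (by
        have : 23 * M ≤ 100 * r2 := by omega
        nlinarith)
      rw [if_neg hsgn, if_pos hw, c1, c2]
      omega
    · have hm2 : min r2 (M - r2) = M - r2 := by omega
      rw [hm2] at hB ⊢
      have := cls_shift (M := M) (a := M - r1) (b := M - r2) (by omega) (by omega) (by omega)
        (by omega) (by omega)
      rw [if_neg hsgn, if_neg hw]
      omega

/-! ### residues -/

theorem dst_signed {M : ℕ} (hM : 0 < M) (s : ℕ) :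
    ∃ u : ℤ, |u| = dst M s ∧ (M : ℤ) ∣ s - u := by
  have hr := Nat.mod_lt s hM
  have hd : (M : ℤ) ∣ (s : ℤ) - ((s % M : ℕ) : ℤ) := by
    rw [Int.natCast_mod]
    exact Int.dvd_self_sub_emod
  unfold dst
  by_cases h : s % M ≤ M - s % M
  · refine ⟨((s % M : ℕ) : ℤ), ?_, hd⟩
    rw [min_eq_left h, Nat.abs_cast]
  · refine ⟨((s % M : ℕ) : ℤ) - M, ?_, ?_⟩
    · rw [min_eq_right (by omega), abs_of_neg (by omega)]
      omega
    · have : (s : ℤ) - (((s % M : ℕ) : ℤ) - M) = (s - ((s % M : ℕ) : ℤ)) + M := by ring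
      rw [this]
      exact dvd_add hd (dvd_refl _)

theorem dst_eq {M s : ℕ} {v : ℤ} (hM : 0 < M) (h : (M : ℤ) ∣ s - v) (h2 : 2 * |v| ≤ M) :
    dst M s = v.natAbs := by
  have hr := Nat.mod_lt s hM
  have hd : (M : ℤ) ∣ (s : ℤ) - ((s % M : ℕ) : ℤ) := by
    rw [Int.natCast_mod]
    exact Int.dvd_self_sub_emod
  have hd2 : (M : ℤ) ∣ ((s % M : ℕ) : ℤ) - v := by
    have : ((s % M : ℕ) : ℤ) - v = (s - v) - (s - ((s % M : ℕ) : ℤ)) := by ring
    rw [this]
    exact dvd_sub h hd
  obtain ⟨k, hk⟩ := hd2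
  unfold dst
  generalize s % M = r at *
  have hMz : (0 : ℤ) < M := by exact_mod_cast hM
  have habs := abs_le.1 (show |v| ≤ |v| from le_rfl)
  have hk' : k = 0 ∨ k = 1 := by
    have a1 : (M : ℤ) * k < M * 2 := by
      rw [← hk]; omega
    have a2 : (M : ℤ) * (-1) < M * k := by
      rw [← hk]; omega
    have b1 := lt_of_mul_lt_mul_left a1 hMz.le
    have b2 := lt_of_mul_lt_mul_left a2 hMz.le
    omega
  rcases hk' with rfl | rfl <;> omega

theorem top_eq {T : ℕ → Bool} {s M : ℕ} (hM : T M = true) (hMs : M ≤ s)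
    (hno : ∀ t, M < t → t ≤ s → T t = false) : top T s = M := by
  unfold top
  rw [Nat.findGreatest_eq_iff]
  refine ⟨hMs, fun _ => hM, fun t h1 h2 => ?_⟩
  rw [hno t h1 h2]
  decide

/-- `z < z'` in `X` are congruent modulo the threshold `M ≤ z`, and there is no threshold in
`(M, b + z + z']` -/
structure Bad (T : ℕ → Bool) (X : Set ℕ) (b M z z' : ℕ) : Prop where
  thr : T M = true
  mem : z ∈ X
  mem' : z' ∈ X
  le : M ≤ z
  lt : z < z'
  cong : z ≡ z' [MOD M]
  no : ∀ t, M < t → t ≤ b + z + z' → T t = false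

theorem pre_of_col {T : ℕ → Bool} {M s1 s2 : ℕ} (hM : 0 < M) (h1 : top T s1 = M)
    (h2 : top T s2 = M) (h : col T s1 = col T s2) : pre M s1 = pre M s2 := by
  unfold col at h
  rw [h1, h2] at h
  have e1 := pre_lt M s1
  have e2 := pre_lt M s2
  have f1 : (par T (dst M s1)).toNat ≤ 1 := Bool.toNat_le _
  have f2 : (par T (dst M s2)).toNat ≤ 1 := Bool.toNat_le _
  split_ifs at h <;> omega

theorem bad_small {T : ℕ → Bool} {X : Set ℕ} {b κ : ℕ}
    (hX : ∀ x ∈ X, ∀ y ∈ X, x < y → col T (b + x + y) = κ) {x1 : ℕ} (hx1 : x1 ∈ X)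
    {M z z' : ℕ} (hB : Bad T X b M z z') (hM : 100 * (b + 2 * x1 + 1) ≤ M) :
    dst M (b + x1 + z) ≤ 50 * (b + 2 * x1 + 1) := by
  by_contra hcon
  push Not at hcon
  have hM0 : 0 < M := by omega
  have hz := hB.le
  have hzz := hB.lt
  have t1 : top T (b + x1 + z) = M :=
    top_eq hB.thr (by omega) fun t h1 h2 => hB.no t h1 (by omega)
  have t2 : top T (b + z + z') = M := top_eq hB.thr (by omega) hB.no
  have hcol : col T (b + x1 + z) = col T (b + z + z') := by
    rw [hX x1 hx1 z hB.mem (by omega), hX z hB.mem z' hB.mem' hzz]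
  refine chi (δ := b + 2 * x1) hM ?_ hcon (pre_of_col hM0 t1 t2 hcol)
  have h1 : b + z + z' + (b + 2 * x1) ≡ b + z + z + (b + 2 * x1) [MOD M] :=
    (hB.cong.symm.add_left (b + z)).add_right _
  have h2 : b + z + z + (b + 2 * x1) = 2 * (b + x1 + z) := by ring
  rw [h2] at h1
  exact h1

theorem cross {T : ℕ → Bool} {X : Set ℕ} {b κ : ℕ}
    (hX : ∀ x ∈ X, ∀ y ∈ X, x < y → col T (b + x + y) = κ) {x1 : ℕ}
    {M z z' M' w w' : ℕ} (hB : Bad T X b M z z') (hB' : Bad T X b M' w w') (hMM : M < M')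
    (hM : 1000 * (b + 2 * x1 + 1) ≤ M) {u : ℤ} (hu : |u| ≤ 50 * (b + 2 * x1 + 1))
    (h1 : (M : ℤ) ∣ ((b + x1 + z : ℕ) : ℤ) - u) (h2 : (M' : ℤ) ∣ ((b + x1 + w : ℕ) : ℤ) - u) :
    False := by
  have hM0 : 0 < M := by omega
  have hM0' : 0 < M' := by omega
  have hz := hB.le
  have hzz := hB.lt
  have hw := hB'.le
  have hww := hB'.lt
  have hu1 := (abs_le.1 hu).1
  have hu2 := (abs_le.1 hu).2
  set t : ℤ := u - b - x1 with ht
  push_cast at h1 h2
  have hzt : (M : ℤ) ∣ (z : ℤ) - t := by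
    have : (z : ℤ) - t = (b + x1 + z) - u := by rw [ht]; ring
    rw [this]; exact h1
  have hwt : (M' : ℤ) ∣ (w : ℤ) - t := by
    have : (w : ℤ) - t = (b + x1 + w) - u := by rw [ht]; ring
    rw [this]; exact h2
  have hM'gt : b + z + z' < M' := by
    by_contra hcon
    have := hB.no M' hMM (by omega)
    rw [hB'.thr] at this
    exact absurd this (by decide)
  -- `z' ≥ z + M`
  have hz'z : z + M ≤ z' := by
    have h3 : (M : ℤ) ∣ (z' : ℤ) - z := by
      have := hB.cong.dvd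
      exact this
    obtain ⟨q, hq⟩ := h3
    have hMz : (0 : ℤ) < M := by exact_mod_cast hM0
    have hq0 : 0 < q := by
      by_contra hc
      have : (M : ℤ) * q ≤ 0 := mul_nonpos_of_nonneg_of_nonpos hMz.le (by omega)
      omega
    have : (M : ℤ) * 1 ≤ M * q := mul_le_mul_of_nonneg_left (by omega) hMz.le
    omega
  -- `M ≤ b + z + t`
  have hMt : (M : ℤ) ≤ b + z + t := by
    obtain ⟨q, hq⟩ := hzt
    have hMz : (0 : ℤ) < M := by exact_mod_cast hM0
    have hq0 : 0 < q := by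
      by_contra hc
      have : (M : ℤ) * q ≤ 0 := mul_nonpos_of_nonneg_of_nonpos hMz.le (by omega)
      omega
    by_cases hq1 : q = 1
    · subst hq1
      omega
    · have : (M : ℤ) * 2 ≤ M * q := mul_le_mul_of_nonneg_left (by omega) hMz.le
      omega
  obtain ⟨W, hW⟩ : ∃ W : ℕ, (W : ℤ) = b + z + t := ⟨(b + z + t).toNat, by omega⟩
  obtain ⟨D, hnat⟩ : ∃ D : ℕ, ((b : ℤ) + 2 * t).natAbs = D := ⟨_, rfl⟩
  have hD : (D : ℤ) = |(b : ℤ) + 2 * t| := by rw [← hnat]; simp
  have hDle : (D : ℤ) ≤ 200 * (b + 2 * x1 + 1) := by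
    rw [hD, abs_le]
    constructor <;> omega
  -- top thresholds
  have t1 : top T (b + w + w') = M' := top_eq hB'.thr (by omega) hB'.no
  have t2 : top T (b + z + w) = M' :=
    top_eq hB'.thr (by omega) fun t h3 h4 => hB'.no t h3 (by omega)
  have t3 : top T W = M := top_eq hB.thr (by omega) fun t h3 h4 => hB.no t h3 (by omega)
  -- distances
  have d1 : dst M' (b + w + w') = D := by
    rw [dst_eq (v := (b : ℤ) + 2 * t) hM0' ?_ (by rw [← hD]; omega), hnat]
    have h3 : (M' : ℤ) ∣ (w' : ℤ) - w := hB'.cong.dvd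
    have : ((b + w + w' : ℕ) : ℤ) - (b + 2 * t) = ((w : ℤ) - t) + ((w : ℤ) - t) + (w' - w) := by
      push_cast; ring
    rw [this]
    exact dvd_add (dvd_add hwt hwt) h3
  have d2 : dst M' (b + z + w) = W := by
    rw [dst_eq (v := (b : ℤ) + z + t) hM0' ?_ ?_]
    · omega
    · have : ((b + z + w : ℕ) : ℤ) - (b + z + t) = (w : ℤ) - t := by push_cast; ring
      rw [this]; exact hwt
    · rw [abs_of_nonneg (by omega)]; omega
  have d3 : dst M W = D := by
    rw [dst_eq (v := (b : ℤ) + 2 * t) hM0 ?_ (by rw [← hD]; omega), hnat]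
    have : (W : ℤ) - (b + 2 * t) = (z : ℤ) - t := by rw [hW]; ring
    rw [this]
    exact hzt
  -- colours
  have c1 := hX w hB'.mem w' hB'.mem' hww
  have c2 := hX z hB.mem w hB'.mem (by omega)
  rw [← c2] at c1
  have p1 : pre M' (b + w + w') ≠ 3 := by
    unfold pre
    rw [d1, if_neg (by omega)]
    omega
  have hpar : par T W = !(par T D) := by
    rw [par_of_top_ne (by rw [t3]; omega), t3, d3]
  unfold col at c1
  rw [t1, t2, d1, d2, if_neg (by omega), if_neg p1, if_neg (by omega)] at c1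
  have e1 := pre_lt M' (b + w + w')
  have e2 := pre_lt M' (b + z + w)
  rw [hpar] at c1
  cases hp : par T D <;> rw [hp] at c1 <;> simp only [Bool.not_false, Bool.not_true,
    Bool.toNat_false, Bool.toNat_true] at c1 <;> split_ifs at c1 <;> omega

/-- for almost all thresholds `M` there is no bad pair -/
theorem eventually_not_bad {T : ℕ → Bool} {X : Set ℕ} {b κ : ℕ}
    (hX : ∀ x ∈ X, ∀ y ∈ X, x < y → col T (b + x + y) = κ) :
    ∃ m0, ∀ M, m0 ≤ M → ∀ z z', ¬ Bad T X b M z z' := by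
  classical
  rcases Set.eq_empty_or_nonempty X with h0 | ⟨x1, hx1⟩
  · refine ⟨0, fun M _ z z' hB => ?_⟩
    have := hB.mem
    rw [h0] at this
    exact this
  by_contra hcon
  push Not at hcon
  set C := b + 2 * x1 + 1 with hC
  have key : ∀ m, ∃ M, m ≤ M ∧ 1000 * C ≤ M ∧ ∃ z z', Bad T X b M z z' ∧ ∃ u : ℤ,
      |u| ≤ 50 * C ∧ (M : ℤ) ∣ ((b + x1 + z : ℕ) : ℤ) - u := by
    intro m
    obtain ⟨M, hM, z, z', hB⟩ := hcon (m + 1000 * C)
    obtain ⟨u, hu1, hu2⟩ := dst_signed (M := M) (by omega) (b + x1 + z)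
    have h3 := bad_small hX hx1 hB (by omega)
    have h4 : 1000 * C ≤ M := le_trans (Nat.le_add_left _ _) hM
    have h5 : m ≤ M := le_trans (Nat.le_add_right _ _) hM
    exact ⟨M, h5, h4, z, z', hB, u, by rw [hu1]; exact_mod_cast h3, hu2⟩
  choose M hM1 hM2 z z' hB u hu hd using key
  -- an infinite increasing sequence of thresholds
  obtain ⟨s, hs⟩ : ∃ s : ℕ → ℕ, ∀ n, s (n + 1) = M (s n) + 1 :=
    ⟨fun n => Nat.rec (motive := fun _ => ℕ) 0 (fun _ m => M m + 1) n, fun _ => rfl⟩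
  have hmono : StrictMono fun n => M (s n) := by
    apply strictMono_nat_of_lt_succ
    intro n
    show M (s n) < M (s (n + 1))
    have h1 := hM1 (s (n + 1))
    have h2 := hs n
    generalize s (n + 1) = q at *
    omega
  have hfin : (Set.Icc (-(50 * C : ℤ)) (50 * C)).Finite := Set.finite_Icc _ _
  obtain ⟨i, -, j, -, hij, hu'⟩ := Set.infinite_univ.exists_ne_map_eq_of_mapsTo
    (f := fun n : ℕ => u (s n)) (t := Set.Icc (-(50 * C : ℤ)) (50 * C))
    (fun n _ => abs_le.1 (hu (s n))) hfin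
  have main : ∀ i j, i < j → u (s i) = u (s j) → False := by
    intro i j hij hu'
    exact cross hX (x1 := x1) (hB (s i)) (hB (s j)) (hmono hij) (hM2 (s i)) (hu (s i))
      (hd (s i)) (by rw [hu']; exact hd (s j))
  rcases lt_or_gt_of_ne hij with h | h
  · exact main i j h hu'
  · exact main j i h hu'.symm

/-- the gap theorem: large thresholds are close together, as measured by `X` -/
theorem gap {T : ℕ → Bool} (hT : ∀ m, ∃ t, m < t ∧ T t = true) {X : Set ℕ} {b κ : ℕ}
    (hX : ∀ x ∈ X, ∀ y ∈ X, x < y → col T (b + x + y) = κ) :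
    ∃ m0, ∀ m, m0 ≤ m → ∀ (w : ℕ) (F : Finset ℕ), (∀ x ∈ F, x ∈ X ∧ m ≤ x ∧ x ≤ w) →
      m < F.card → ∃ t, m < t ∧ t ≤ b + 2 * w ∧ T t = true := by
  obtain ⟨m1, hm1⟩ := eventually_not_bad hX
  obtain ⟨t0, ht0, ht0'⟩ := hT m1
  refine ⟨t0, fun m hm w F hF hcard => ?_⟩
  by_contra hcon
  push Not at hcon
  have htop : top T m ≤ m := top_le T m
  have hge : t0 ≤ top T m := Nat.le_findGreatest hm ht0'
  have hT' : T (top T m) = true := Nat.findGreatest_spec (P := fun t => T t = true) hm ht0'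
  set M := top T m with hMdef
  have hmap : ∀ x ∈ F, x % M ∈ Finset.range M := fun x _ =>
    Finset.mem_range.2 (Nat.mod_lt _ (by omega))
  obtain ⟨x, hx, y, hy, hne, hxy⟩ := Finset.exists_ne_map_eq_of_card_lt_of_maps_to
    (by rw [Finset.card_range]; omega) hmap
  have hno : ∀ t, M < t → t ≤ b + 2 * w → T t = false := by
    intro t h1 h2
    by_cases h3 : m < t
    · have := hcon t h3 h2
      simpa using this
    · by_contra h4
      have h5 : T t = true := by simpa using h4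
      have := Nat.le_findGreatest (P := fun t => T t = true) (by omega : t ≤ m) h5
      have h6 : Nat.findGreatest (fun t => T t = true) m = M := rfl
      omega
  have main : ∀ x ∈ F, ∀ y ∈ F, x < y → x % M = y % M → False := by
    intro x hx y hy hlt hxy
    obtain ⟨a1, a2, a3⟩ := hF x hx
    obtain ⟨b1, b2, b3⟩ := hF y hy
    exact hm1 M (by omega) x y ⟨hT', a1, b1, by omega, hlt, hxy, fun t h1 h2 =>
      hno t h1 (by omega)⟩
  rcases lt_or_gt_of_ne hne with h | h
  · exact main x hx y hy h hxy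
  · exact main y hy x hx h hxy.symm

end Run7.h628
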