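import Mathlib
import Pool.Agent.Helper67.BN.Tools

/-!
# Tools for relative computability
-/

set_option autoImplicit false

namespace Run7.h628

open Encodable Denumerable
open Pool.Agent.Helper67.BN (ci_comp ci_pair ci_nat_rec ci_comp₂ ci_compC ci_fst ci_snd ball
  ball_iff nsum nsum_eq ball_comp nsum_comp cand cor cnot ceqN ceqB clt cle cadd csub cmul cconst
  ccond ind cind cpair cunl cunr ind_true ind_false nsum_ind)

variable {O : Set (ℕ →. ℕ)}

theorem ci_congr {α σ : Type} [Primcodable α] [Primcodable σ] {f g : α → σ}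
    (h : ComputableIn O f) (e : ∀ a, g a = f a) : ComputableIn O g := by
  have : g = f := funext e
  rw [this]
  exact h

theorem ci_fin {α : Type} [Primcodable α] {k : ℕ} {f : α → Fin k}
    (h : ComputableIn O fun a => (f a).val) : ComputableIn O f := by
  unfold ComputableIn RecursiveIn at h ⊢
  exact h

/-- unbounded search -/
theorem ci_find {q : ℕ → ℕ → Bool} (hq : ComputableIn₂ O q)
    (H : ∀ a, ∃ n, q a n = true) : ComputableIn O fun a => Nat.find (H a) := by
  classical
  have h1 : ComputableIn O fun n : ℕ => 1 - ind (q (Nat.unpair n).1 (Nat.unpair n).2) := by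
    refine csub (cconst 1) (cind ?_)
    exact ci_comp (f := fun p : ℕ × ℕ => q p.1 p.2) hq
      (ci_pair (cunl (f := fun n : ℕ => n) ComputableIn.id)
        (cunr (f := fun n : ℕ => n) ComputableIn.id))
  have h2 : Nat.RecursiveIn O
      (fun n : ℕ => (Part.some (1 - ind (q (Nat.unpair n).1 (Nat.unpair n).2)) : Part ℕ)) :=
    RecursiveIn.iff_nat.1 h1
  have h3 := Nat.RecursiveIn.rfind h2
  refine RecursiveIn.iff_nat.2 (h3.of_eq fun k => ?_)
  refine Part.eq_some_iff.2 (Nat.mem_rfind.2 ⟨?_, ?_⟩)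
  · have h4 := Nat.find_spec (H k)
    simp [h4, ind]
  · intro m hm
    have h4 := Nat.find_min (H k) hm
    simp only [Bool.not_eq_true] at h4
    simp [h4, ind]

/-- the sublists of a list -/
def subs (L : List ℕ) : List (List ℕ) :=
  L.foldr (fun a Ls => Ls ++ Ls.map (List.cons a)) [[]]

theorem subs_eq (L : List ℕ) : subs L = L.sublists' := by
  induction L with
  | nil => simp [subs]
  | cons a L ih =>
    rw [List.sublists'_cons, ← ih]
    rfl

theorem mem_subs {L D : List ℕ} : D ∈ subs L ↔ D.Sublist L := by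
  rw [subs_eq, List.mem_sublists']

theorem subs_prim : Primrec subs := by
  have h1 : Primrec fun p : List ℕ × ℕ × List (List ℕ) => p.2.2 :=
    Primrec.snd.comp Primrec.snd
  have h2 : Primrec₂ fun (p : List ℕ × ℕ × List (List ℕ)) (D : List ℕ) => p.2.1 :: D :=
    Primrec.list_cons.comp (Primrec.fst.comp (Primrec.snd.comp Primrec.fst)) Primrec.snd
  exact Primrec.list_foldr (f := fun L : List ℕ => L) (g := fun _ => ([[]] : List (List ℕ)))
    (h := fun (_ : List ℕ) (p : ℕ × List (List ℕ)) => p.2 ++ p.2.map (List.cons p.1))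
    Primrec.id (Primrec.const _) (Primrec.list_append.comp h1 (Primrec.list_map h1 h2))

section types

variable {k : ℕ} (e : List ℕ → Fin k)

/-- the type of `b` over `L` -/
def typ (L : List ℕ) (b : ℕ) : List (Fin k) := (subs L).map fun D => e (D ++ [b])

/-- equality of types, as a Boolean -/
def tpEq (L : List ℕ) (b b' : ℕ) : Bool :=
  ball (subs L).length fun j =>
    decide ((e ((subs L).getD j [] ++ [b])).val = (e ((subs L).getD j [] ++ [b'])).val)

theorem typ_eq_iff {L : List ℕ} {b b' : ℕ} :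
    typ e L b = typ e L b' ↔ ∀ D, D.Sublist L → e (D ++ [b]) = e (D ++ [b']) := by
  unfold typ
  rw [List.map_inj_left]
  exact ⟨fun h D hD => h D (mem_subs.2 hD), fun h D hD => h D (mem_subs.1 hD)⟩

theorem tpEq_iff {L : List ℕ} {b b' : ℕ} : tpEq e L b b' = true ↔ typ e L b = typ e L b' := by
  rw [typ_eq_iff, tpEq, ball_iff]
  constructor
  · intro h D hD
    obtain ⟨j, hj, hjD⟩ := List.getElem_of_mem (mem_subs.2 hD)
    have := h j hj
    rw [List.getD_eq_getElem _ _ hj, hjD, decide_eq_true_eq] at this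
    exact Fin.ext this
  · intro h j hj
    rw [List.getD_eq_getElem _ _ hj, decide_eq_true_eq]
    rw [h _ (mem_subs.1 (List.getElem_mem hj))]

/-- the type of `b` over `L` is realized infinitely often -/
def Inf (L : List ℕ) (b : ℕ) : Prop := {b' | typ e L b = typ e L b'}.Infinite

theorem exists_inf (L : List ℕ) {S : Set ℕ} (hS : S.Infinite) : ∃ b ∈ S, Inf e L b := by
  by_contra hcon
  push Not at hcon
  have hfin : {l : List (Fin k) | l.length = (subs L).length}.Finite :=
    List.finite_length_eq (Fin k) _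
  refine hS (Set.Finite.of_finite_fibers (typ e L) (hfin.subset ?_) ?_)
  · rintro _ ⟨b, _, rfl⟩
    simp [typ]
  · rintro _ ⟨b, hb, rfl⟩
    have := hcon b hb
    unfold Inf at this
    rw [Set.not_infinite] at this
    exact this.subset fun b' hb' => hb'.2.symm

/-- the list coded by the first component of `σ` -/
def cL (σ : ℕ) : List ℕ := ofNat (List ℕ) σ.unpair.1

theorem cL_pair (L : List ℕ) (b : ℕ) : cL (Nat.pair (encode L) b) = L := by
  simp [cL]

theorem exists_modulus : ∃ g : ℕ → ℕ, (∀ m, m ≤ g m) ∧ ∀ σ m, σ ≤ m →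
    (Inf e (cL σ) σ.unpair.2 →
      ∃ b', m < b' ∧ b' ≤ g m ∧ typ e (cL σ) σ.unpair.2 = typ e (cL σ) b') ∧
    (¬ Inf e (cL σ) σ.unpair.2 →
      ∀ b', typ e (cL σ) σ.unpair.2 = typ e (cL σ) b' → b' ≤ g m) := by
  have key : ∀ σ m : ℕ, ∃ N : ℕ,
      (Inf e (cL σ) σ.unpair.2 →
        ∃ b', m < b' ∧ b' ≤ N ∧ typ e (cL σ) σ.unpair.2 = typ e (cL σ) b') ∧
      (¬ Inf e (cL σ) σ.unpair.2 →
        ∀ b', typ e (cL σ) σ.unpair.2 = typ e (cL σ) b' → b' ≤ N) := by
    intro σ m
    by_cases h : Inf e (cL σ) σ.unpair.2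
    · obtain ⟨b', hb', hm⟩ := Set.Infinite.exists_gt h m
      exact ⟨b', fun _ => ⟨b', hm, le_rfl, hb'⟩, fun h' => absurd h h'⟩
    · have h' := h
      unfold Inf at h'
      rw [Set.not_infinite] at h'
      obtain ⟨N, hN⟩ := h'.bddAbove
      exact ⟨N, fun h'' => absurd h'' h, fun _ b' hb' => hN hb'⟩
  choose B hB1 hB2 using key
  refine ⟨fun m => m + ∑ σ ∈ Finset.range (m + 1), B σ m, fun m => Nat.le_add_right _ _,
    fun σ m hσ => ?_⟩
  have hle : B σ m ≤ m + ∑ σ ∈ Finset.range (m + 1), B σ m :=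
    le_trans (Finset.single_le_sum (f := fun σ => B σ m) (fun _ _ => Nat.zero_le _)
      (Finset.mem_range.2 (by omega))) (Nat.le_add_left _ _)
  refine ⟨fun h => ?_, fun h b' hb' => le_trans (hB2 σ m h b' hb') hle⟩
  obtain ⟨b', h1, h2, h3⟩ := hB1 σ m h
  exact ⟨b', h1, le_trans h2 hle, h3⟩

/-- one step of the construction of a prehomogeneous sequence -/
theorem exists_next {L : List ℕ} {b : ℕ} (h : Inf e L b) :
    ∃ b', b < b' ∧ typ e L b = typ e L b' ∧ Inf e (L ++ [b]) b' := by
  have hS : ({b' | typ e L b = typ e L b'} ∩ Set.Ioi b).Infinite := by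
    by_contra hcon
    rw [Set.not_infinite] at hcon
    refine h ((hcon.union (Set.finite_Iic b)).subset fun x hx => ?_)
    by_cases hxb : x ≤ b
    · exact Or.inr hxb
    · exact Or.inl ⟨hx, not_le.1 hxb⟩
  obtain ⟨b', hb', hinf⟩ := exists_inf e (L ++ [b]) hS
  exact ⟨b', hb'.2, hb'.1, hinf⟩

open Classical in
/-- the least possible next element -/
noncomputable def nx (L : List ℕ) (b : ℕ) : ℕ :=
  if h : ∃ b', b < b' ∧ typ e L b = typ e L b' ∧ Inf e (L ++ [b]) b' then Nat.find h else 0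

theorem nx_spec {L : List ℕ} {b : ℕ} (h : Inf e L b) :
    b < nx e L b ∧ typ e L b = typ e L (nx e L b) ∧ Inf e (L ++ [b]) (nx e L b) := by
  classical
  unfold nx
  rw [dif_pos (exists_next e h)]
  exact Nat.find_spec (exists_next e h)

/-- the sequence -/
noncomputable def sq (b0 : ℕ) : ℕ → List ℕ × ℕ
  | 0 => ([], b0)
  | j + 1 => ((sq b0 j).1 ++ [(sq b0 j).2], nx e (sq b0 j).1 (sq b0 j).2)

theorem sq_inf {b0 : ℕ} (h0 : Inf e [] b0) (j : ℕ) : Inf e (sq e b0 j).1 (sq e b0 j).2 := by
  induction j with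
  | zero => exact h0
  | succ j ih => exact (nx_spec e ih).2.2

theorem sq_mono {b0 : ℕ} (h0 : Inf e [] b0) : StrictMono fun j => (sq e b0 j).2 :=
  strictMono_nat_of_lt_succ fun j => (nx_spec e (sq_inf e h0 j)).1

theorem sq_fst (b0 j : ℕ) : (sq e b0 j).1 = (List.range j).map fun i => (sq e b0 i).2 := by
  induction j with
  | zero => rfl
  | succ j ih =>
    rw [List.range_succ, List.map_append, ← ih]
    rfl

theorem typ_mono {L L' : List ℕ} (h : L.Sublist L') {b b' : ℕ} (h2 : typ e L' b = typ e L' b') :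
    typ e L b = typ e L b' := by
  rw [typ_eq_iff] at h2 ⊢
  exact fun D hD => h2 D (hD.trans h)

theorem sq_typ {b0 : ℕ} (h0 : Inf e [] b0) {j i : ℕ} (hij : j ≤ i) :
    typ e (sq e b0 j).1 (sq e b0 j).2 = typ e (sq e b0 j).1 (sq e b0 i).2 := by
  induction i, hij using Nat.le_induction with
  | base => rfl
  | succ i hi ih =>
    rw [ih]
    refine typ_mono e ?_ (nx_spec e (sq_inf e h0 i)).2.1
    rw [sq_fst, sq_fst]
    exact (List.range_sublist.2 hi).map _

/-- the least number above all the elements of `I` -/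
def nxi (I : List ℕ) : ℕ := I.foldr (fun i m => max (i + 1) m) 0

theorem lt_nxi {I : List ℕ} {i : ℕ} (h : i ∈ I) : i < nxi I := by
  induction I with
  | nil => simp at h
  | cons a I ih =>
    have : nxi (a :: I) = max (a + 1) (nxi I) := rfl
    rw [this]
    rcases List.mem_cons.1 h with rfl | h
    · omega
    · have := ih h; omega

theorem nxi_le {I : List ℕ} {j : ℕ} (h : ∀ i ∈ I, i < j) : nxi I ≤ j := by
  induction I with
  | nil => exact Nat.zero_le _
  | cons a I ih =>
    have h1 : nxi (a :: I) = max (a + 1) (nxi I) := rfl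
    rw [h1]
    have h2 := h a (by simp)
    have h3 := ih fun i hi => h i (by simp [hi])
    omega

theorem sublist_range {I : List ℕ} {j : ℕ} (hI : I.Pairwise (· < ·)) (h : ∀ i ∈ I, i < j) :
    I.Sublist (List.range j) := by
  refine List.sublist_of_subperm_of_pairwise (r := (· < ·)) ?_ hI List.pairwise_lt_range
  exact List.subperm_of_subset hI.nodup fun i hi => List.mem_range.2 (h i hi)

theorem sq_prehom {b0 : ℕ} (h0 : Inf e [] b0) {I : List ℕ} (hI : I.Pairwise (· < ·)) {j : ℕ}
    (h : ∀ i ∈ I, i < j) :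
    e (I.map (fun i => (sq e b0 i).2) ++ [(sq e b0 j).2])
      = e (I.map (fun i => (sq e b0 i).2) ++ [(sq e b0 (nxi I)).2]) := by
  have h1 := sq_typ e h0 (nxi_le h)
  rw [typ_eq_iff] at h1
  refine (h1 _ ?_).symm
  rw [sq_fst]
  exact (sublist_range hI fun i hi => lt_nxi hi).map _

/-! ### computing the sequence -/

theorem cL_prim : Primrec cL :=
  (Primrec.ofNat (List ℕ)).comp (Primrec.fst.comp Primrec.unpair)

theorem ci_tpEq {α : Type} [Primcodable α] (he : ComputableIn O fun L : List ℕ => (e L).val)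
    {f : α → List ℕ} {g i : α → ℕ} (hf : ComputableIn O f) (hg : ComputableIn O g)
    (hi : ComputableIn O i) : ComputableIn O fun a => tpEq e (f a) (g a) (i a) := by
  have hs : ComputableIn O fun a => subs (f a) := ci_compC subs_prim.to_comp hf
  refine ball_comp (ci_compC Primrec.list_length.to_comp hs) ?_
  have h1 : ComputableIn O fun p : α × ℕ => (subs (f p.1)).getD p.2 [] :=
    ci_comp₂ (f := fun (l : List (List ℕ)) (n : ℕ) => l.getD n [])
      (Primrec.list_getD ([] : List ℕ)).to_comp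
      (ci_comp (f := fun a => subs (f a)) hs ci_fst) ci_snd
  have h2 : ∀ {u : α → ℕ}, ComputableIn O u → ComputableIn O fun p : α × ℕ =>
      (e ((subs (f p.1)).getD p.2 [] ++ [u p.1])).val := fun hu =>
    ci_comp (f := fun L : List ℕ => (e L).val) he
      (ci_comp₂ (f := fun (l : List ℕ) (n : ℕ) => l ++ [n])
      Primrec.list_concat.to_comp h1 (ci_comp hu ci_fst))
  exact ceqN (h2 hg) (h2 hi)

/-- test whether a type is realized infinitely often -/
def infB (h : ℕ → ℕ) (m0 σ : ℕ) : Bool :=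
  !(ball (h (h (σ + m0)) + 1) fun i =>
    !(decide (h (σ + m0) < i) && tpEq e (cL σ) σ.unpair.2 i))

theorem ci_infB {h : ℕ → ℕ} (hh : ComputableIn O h)
    (he : ComputableIn O fun L : List ℕ => (e L).val) (m0 : ℕ) {α : Type} [Primcodable α]
    {f : α → ℕ} (hf : ComputableIn O f) : ComputableIn O fun a => infB e h m0 (f a) := by
  have h1 : ComputableIn O fun a => h (f a + m0) := ci_comp hh (cadd hf (cconst m0))
  refine cnot (ball_comp (cadd (ci_comp hh h1) (cconst 1)) (cnot (cand ?_ ?_)))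
  · exact clt (ci_comp (f := fun a => h (f a + m0)) h1 ci_fst) ci_snd
  · exact ci_tpEq e he (ci_compC cL_prim.to_comp (ci_comp hf ci_fst)) (cunr (ci_comp hf ci_fst))
      ci_snd

theorem infB_iff {g h : ℕ → ℕ} (hg1 : ∀ m, m ≤ g m) (hg2 : ∀ σ m, σ ≤ m →
    (Inf e (cL σ) σ.unpair.2 →
      ∃ b', m < b' ∧ b' ≤ g m ∧ typ e (cL σ) σ.unpair.2 = typ e (cL σ) b') ∧
    (¬ Inf e (cL σ) σ.unpair.2 →
      ∀ b', typ e (cL σ) σ.unpair.2 = typ e (cL σ) b' → b' ≤ g m)) {m0 : ℕ}
    (hh : ∀ m, m0 ≤ m → g m ≤ h m) (σ : ℕ) :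
    infB e h m0 σ = true ↔ Inf e (cL σ) σ.unpair.2 := by
  unfold infB
  rw [Bool.not_eq_true', ← Bool.not_eq_true, ball_iff]
  have hx : m0 ≤ σ + m0 := by omega
  have h1 := hh _ hx
  have h2 := hg1 (σ + m0)
  set y := h (σ + m0) with hy
  have h3 := hh y (by omega)
  constructor
  · intro hcon
    by_contra hinf
    refine hcon fun i _ => ?_
    rw [Bool.not_eq_true', ← Bool.not_eq_true, Bool.and_eq_true, decide_eq_true_eq, tpEq_iff]
    rintro ⟨h4, h5⟩
    have := (hg2 σ (σ + m0) (by omega)).2 hinf i h5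
    omega
  · intro hinf hcon
    obtain ⟨b', h4, h5, h6⟩ := (hg2 σ y (by omega)).1 hinf
    have := hcon b' (by omega)
    rw [Bool.not_eq_true', ← Bool.not_eq_true, Bool.and_eq_true, decide_eq_true_eq,
      tpEq_iff] at this
    exact this ⟨h4, h6⟩

/-- the code of the pair `(L ++ [b], b')` -/
def nc (σ b' : ℕ) : ℕ := Nat.pair (encode (cL σ ++ [σ.unpair.2])) b'

theorem cL_nc (σ b' : ℕ) : cL (nc σ b') = cL σ ++ [σ.unpair.2] := by
  unfold nc
  rw [cL_pair]

theorem ci_nc {α : Type} [Primcodable α] {f g : α → ℕ} (hf : ComputableIn O f)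
    (hg : ComputableIn O g) : ComputableIn O fun a => nc (f a) (g a) := by
  refine cpair (ci_compC (f := fun l : List ℕ => encode l) Primrec.encode.to_comp ?_) hg
  exact ci_comp₂ (f := fun (l : List ℕ) (n : ℕ) => l ++ [n]) Primrec.list_concat.to_comp
    (ci_compC cL_prim.to_comp hf) (cunr hf)

theorem ci_sq {g h : ℕ → ℕ} (hg1 : ∀ m, m ≤ g m) (hg2 : ∀ σ m, σ ≤ m →
    (Inf e (cL σ) σ.unpair.2 →
      ∃ b', m < b' ∧ b' ≤ g m ∧ typ e (cL σ) σ.unpair.2 = typ e (cL σ) b') ∧
    (¬ Inf e (cL σ) σ.unpair.2 →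
      ∀ b', typ e (cL σ) σ.unpair.2 = typ e (cL σ) b' → b' ≤ g m)) {m0 : ℕ}
    (hh : ∀ m, m0 ≤ m → g m ≤ h m) (hhc : ComputableIn O h)
    (he : ComputableIn O fun L : List ℕ => (e L).val) {b0 : ℕ} (h0 : Inf e [] b0) :
    ComputableIn O fun j => (sq e b0 j).2 := by
  classical
  have hinf := infB_iff e hg1 hg2 hh
  let q : ℕ → ℕ → Bool := fun σ b' => (decide (σ.unpair.2 < b') &&
    (tpEq e (cL σ) σ.unpair.2 b' && infB e h m0 (nc σ b'))) || !(infB e h m0 σ)
  have hq : ComputableIn₂ O q := by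
    refine cor (cand (clt (cunr ci_fst) ci_snd) (cand ?_ ?_)) (cnot ?_)
    · exact ci_tpEq e he (ci_compC cL_prim.to_comp ci_fst) (cunr ci_fst) ci_snd
    · exact ci_infB e hhc he m0 (ci_nc ci_fst ci_snd)
    · exact ci_infB e hhc he m0 ci_fst
  have hqspec : ∀ σ b', Inf e (cL σ) σ.unpair.2 → (q σ b' = true ↔
      (σ.unpair.2 < b' ∧ typ e (cL σ) σ.unpair.2 = typ e (cL σ) b' ∧
        Inf e (cL σ ++ [σ.unpair.2]) b')) := by
    intro σ b' hσ
    have h1 := (hinf σ).2 hσ
    have h2 := hinf (nc σ b')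
    rw [cL_nc] at h2
    have h3 : (nc σ b').unpair.2 = b' := by simp [nc]
    rw [h3] at h2
    simp only [q, h1, Bool.not_true, Bool.or_false, Bool.and_eq_true, decide_eq_true_eq,
      tpEq_iff, h2]
  have H : ∀ σ, ∃ b', q σ b' = true := by
    intro σ
    by_cases hσ : Inf e (cL σ) σ.unpair.2
    · obtain ⟨b', h1⟩ := exists_next e hσ
      exact ⟨b', (hqspec σ b' hσ).2 h1⟩
    · refine ⟨0, ?_⟩
      have : infB e h m0 σ = false := by
        rw [← Bool.not_eq_true, hinf]; exact hσ
      simp [q, this]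
  have hN := ci_find hq H
  have hnx : ∀ σ, Inf e (cL σ) σ.unpair.2 → Nat.find (H σ) = nx e (cL σ) σ.unpair.2 := by
    intro σ hσ
    unfold nx
    rw [dif_pos (exists_next e hσ)]
    rw [Nat.find_eq_iff]
    refine ⟨(hqspec σ _ hσ).2 (Nat.find_spec (exists_next e hσ)), fun m hm hqm => ?_⟩
    exact Nat.find_min (exists_next e hσ) hm ((hqspec σ m hσ).1 hqm)
  let S : ℕ → ℕ := fun j => Nat.rec (motive := fun _ => ℕ) (Nat.pair (encode ([] : List ℕ)) b0)
    (fun _ σ => nc σ (Nat.find (H σ))) j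
  have hS : ComputableIn O S := by
    refine ci_nat_rec (f := fun j : ℕ => j) (g := fun _ => Nat.pair (encode ([] : List ℕ)) b0)
      (h := fun (_ : ℕ) (p : ℕ × ℕ) => nc p.2 (Nat.find (H p.2))) ComputableIn.id
      (cconst _) ?_
    exact ci_nc (ci_comp ci_snd ci_snd) (ci_comp hN (ci_comp ci_snd ci_snd))
  have hSeq : ∀ j, S j = Nat.pair (encode (sq e b0 j).1) (sq e b0 j).2 := by
    intro j
    induction j with
    | zero => rfl
    | succ j ih =>
      have h1 : S (j + 1) = nc (S j) (Nat.find (H (S j))) := rfl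
      have h2 : cL (S j) = (sq e b0 j).1 := by rw [ih, cL_pair]
      have h3 : (S j).unpair.2 = (sq e b0 j).2 := by rw [ih]; simp
      have h4 := sq_inf e h0 j
      rw [← h2, ← h3] at h4
      rw [h1, hnx _ h4, nc, h2, h3]
      rfl
  have : (fun j => (sq e b0 j).2) = fun j => (S j).unpair.2 := by
    funext j
    rw [hSeq]; simp
  rw [this]
  exact cunr hS

end types

/-! ### homogeneous sets from fast growing functions -/

theorem ci_map {b : ℕ → ℕ} (hb : ComputableIn O b) :
    ComputableIn O fun I : List ℕ => I.map b := by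
  have h1 : ComputableIn O fun I : List ℕ => Nat.rec (motive := fun _ => List ℕ) []
      (fun j acc => acc ++ [b (I.getD j 0)]) I.length := by
    refine ci_nat_rec (f := fun I : List ℕ => I.length) (g := fun _ => ([] : List ℕ))
      (h := fun (I : List ℕ) (p : ℕ × List ℕ) => p.2 ++ [b (I.getD p.1 0)])
      Primrec.list_length.computableIn (cconst _) ?_
    refine ci_comp₂ (f := fun (l : List ℕ) (n : ℕ) => l ++ [n]) Primrec.list_concat.to_comp
      (ci_comp ci_snd ci_snd) (ci_comp hb ?_)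
    exact ci_comp₂ (f := fun (l : List ℕ) (n : ℕ) => l.getD n 0)
      (Primrec.list_getD 0).to_comp ci_fst (ci_comp ci_fst ci_snd)
  have h2 : ∀ (I : List ℕ) (j : ℕ), j ≤ I.length → Nat.rec (motive := fun _ => List ℕ) []
      (fun j acc => acc ++ [b (I.getD j 0)]) j = (I.take j).map b := by
    intro I j
    induction j with
    | zero => intro _; rfl
    | succ j ih =>
      intro hj
      have h3 : Nat.rec (motive := fun _ => List ℕ) []
          (fun j acc => acc ++ [b (I.getD j 0)]) (j + 1)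
          = Nat.rec (motive := fun _ => List ℕ) []
          (fun j acc => acc ++ [b (I.getD j 0)]) j ++ [b (I.getD j 0)] := rfl
      rw [h3, ih (by omega), List.take_succ_eq_append_getElem (by omega), List.map_append,
        List.getD_eq_getElem _ _ (by omega)]
      rfl
  have h4 : (fun I : List ℕ => I.map b) = fun I : List ℕ => Nat.rec (motive := fun _ => List ℕ) []
      (fun j acc => acc ++ [b (I.getD j 0)]) I.length := by
    funext I
    rw [h2 I _ le_rfl, List.take_length]
  rw [h4]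
  exact h1

theorem nxi_prim : Primrec nxi := by
  refine Primrec.list_foldr (f := fun L : List ℕ => L) (g := fun _ => (0 : ℕ))
    (h := fun (_ : List ℕ) (p : ℕ × ℕ) => max (p.1 + 1) p.2) Primrec.id (Primrec.const _) ?_
  exact Primrec.nat_max.comp (Primrec.succ.comp (Primrec.fst.comp Primrec.snd))
    (Primrec.snd.comp Primrec.snd)

/-- for every colouring `e` there is `g` such that every function which dominates `g` computes,
together with `e`, a homogeneous set for `e` -/
theorem rt_mod (n : ℕ) : ∀ {k : ℕ} (e : List ℕ → Fin k), ∃ g : ℕ → ℕ,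
    ∀ (O : Set (ℕ →. ℕ)) (h : ℕ → ℕ), (∃ m0, ∀ m, m0 ≤ m → g m ≤ h m) → ComputableIn O h →
      ComputableIn O (fun L => (e L).val) → ∃ H : ℕ → ℕ, StrictMono H ∧ ComputableIn O H ∧
        ∃ i, ∀ I : List ℕ, I.Pairwise (· < ·) → I.length = n → e (I.map H) = i := by
  induction n with
  | zero =>
    intro k e
    refine ⟨fun _ => 0, fun O h _ _ _ => ⟨fun i => i, strictMono_id, ComputableIn.id, e [],
      fun I _ hI => ?_⟩⟩
    rw [List.length_eq_zero_iff.1 hI]
    rfl
  | succ n ih =>
    intro k e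
    obtain ⟨g1, hg1, hg2⟩ := exists_modulus e
    obtain ⟨b0, -, h0⟩ := exists_inf e [] Set.infinite_univ
    set b : ℕ → ℕ := fun j => (sq e b0 j).2 with hb
    obtain ⟨g2, hg3⟩ := ih fun I : List ℕ => e (I.map b ++ [b (nxi I)])
    refine ⟨fun m => max (g1 m) (g2 m), fun O h hh hhc he => ?_⟩
    obtain ⟨m0, hm0⟩ := hh
    have hbc : ComputableIn O b := ci_sq e hg1 hg2 (m0 := m0)
      (fun m hm => le_trans (le_max_left _ _) (hm0 m hm)) hhc he h0
    have he' : ComputableIn O fun I : List ℕ => (e (I.map b ++ [b (nxi I)])).val :=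
      ci_comp (f := fun L : List ℕ => (e L).val) he
        (ci_comp₂ (f := fun (l : List ℕ) (n : ℕ) => l ++ [n]) Primrec.list_concat.to_comp
          (ci_map hbc) (ci_comp hbc nxi_prim.computableIn))
    obtain ⟨H, hH1, hH2, i, hi⟩ := hg3 O h
      ⟨m0, fun m hm => le_trans (le_max_right _ _) (hm0 m hm)⟩ hhc he'
    refine ⟨fun j => b (H j), (sq_mono e h0).comp hH1, ci_comp hbc hH2, i, fun I hI hlen => ?_⟩
    rcases List.eq_nil_or_concat I with rfl | ⟨J, l, rfl⟩
    · simp at hlen
    · rw [List.concat_eq_append] at hI hlen ⊢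
      rw [List.pairwise_append] at hI
      obtain ⟨hJ, -, hJl⟩ := hI
      have h5 : (J.map H).Pairwise (· < ·) := hJ.map H fun a b hab => hH1 hab
      have h6 : ∀ i ∈ J.map H, i < H l := by
        intro i hi
        obtain ⟨a, ha, rfl⟩ := List.mem_map.1 hi
        exact hH1 (hJl a ha l (by simp))
      have h7 := sq_prehom e h0 h5 h6
      have h8 := hi J hJ (by simpa using hlen)
      rw [← h8]
      have h9 : (J ++ [l]).map (fun j => b (H j)) = (J.map H).map b ++ [b (H l)] := by simp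
      rw [h9]
      exact h7

end Run7.h628
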