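import Mathlib
import Pool.Agent.Run7.h628.Comb
import Pool.Agent.Run7.h628.Eff

/-!
# Sets with monochromatic exact sums compute fast growing functions
-/

set_option autoImplicit false

namespace Run7.h628

open Encodable Denumerable
open Pool.Agent.Helper67.BN (ci_comp ci_pair ci_nat_rec ci_comp₂ ci_compC ci_fst ci_snd ball
  ball_iff nsum nsum_eq ball_comp nsum_comp cand cor cnot ceqN ceqB clt cle cadd csub cmul cconst
  ccond ind cind cpair cunl cunr ind_true ind_false nsum_ind)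

variable {O : Set (ℕ →. ℕ)}

/-- the number of elements of `X` in `[m, w]` -/
noncomputable def cnt (X : Set ℕ) (m w : ℕ) : ℕ := by
  classical exact nsum (w + 1) fun i => ind (decide (m ≤ i) && decide (i ∈ X))

theorem exists_cnt {X : Set ℕ} (hX : X.Infinite) (m : ℕ) : ∃ w, m + 1 ≤ cnt X m w := by
  classical
  have hX' : (X ∩ Set.Ici m).Infinite := by
    by_contra hcon
    rw [Set.not_infinite] at hcon
    refine hX ((hcon.union (Set.finite_Iio m)).subset fun x hx => ?_)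
    by_cases hxb : m ≤ x
    · exact Or.inl ⟨hx, hxb⟩
    · exact Or.inr (not_le.1 hxb)
  obtain ⟨F, hF, hcard⟩ := hX'.exists_subset_card_eq (m + 1)
  refine ⟨F.sup id, ?_⟩
  unfold cnt
  rw [nsum_ind, ← hcard]
  refine Finset.card_le_card fun x hx => ?_
  have h1 := hF hx
  have h2 : x ≤ F.sup id := Finset.le_sup (f := id) hx
  rw [Finset.mem_filter, Finset.mem_range, Bool.and_eq_true, decide_eq_true_eq, decide_eq_true_eq]
  exact ⟨by omega, h1.2, h1.1⟩

/-- a set `X` such that the sums `b + x + y` are `col T`-monochromatic computes a function `f`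
such that there is a threshold in `(m, f m]` for almost all `m` -/
theorem exists_jump {T : ℕ → Bool} (hT : ∀ m, ∃ t, m < t ∧ T t = true) {X : Set ℕ}
    (hXinf : X.Infinite) {b κ : ℕ} (hX : ∀ x ∈ X, ∀ y ∈ X, x < y → col T (b + x + y) = κ)
    (hXc : by classical exact ComputableIn O fun n => decide (n ∈ X)) :
    ∃ f : ℕ → ℕ, ComputableIn O f ∧ ∃ m0, ∀ m, m0 ≤ m → ∃ t, m < t ∧ t ≤ f m ∧ T t = true := by
  classical
  obtain ⟨m0, hm0⟩ := gap hT hX
  let q : ℕ → ℕ → Bool := fun m w => decide (m + 1 ≤ cnt X m w)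
  have hq : ComputableIn₂ O q := by
    refine cle (cadd ci_fst (cconst 1)) ?_
    unfold cnt
    refine nsum_comp (cadd ci_snd (cconst 1)) (cind (cand (cle (ci_comp ci_fst ci_fst) ci_snd) ?_))
    have h1 : ComputableIn O fun n : ℕ => decide (n ∈ X) := ci_congr hXc fun a => by simp
    exact ci_comp (f := fun n : ℕ => decide (n ∈ X)) h1 ci_snd
  have H : ∀ m, ∃ w, q m w = true := fun m => by
    obtain ⟨w, hw⟩ := exists_cnt hXinf m
    exact ⟨w, by simpa [q] using hw⟩
  obtain ⟨F, hFc, hFs⟩ : ∃ F : ℕ → ℕ, ComputableIn O F ∧ ∀ m, q m (F m) = true :=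
    ⟨_, ci_find hq H, fun m => Nat.find_spec (H m)⟩
  refine ⟨fun m => b + 2 * F m, cadd (cconst b) (cmul (cconst 2) hFc), m0, fun m hm => ?_⟩
  have h1 := hFs m
  simp only [q, decide_eq_true_eq] at h1
  unfold cnt at h1
  rw [nsum_ind] at h1
  obtain ⟨t, h2, h3, h4⟩ := hm0 m hm (F m) _ (fun x hx => by
    rw [Finset.mem_filter, Finset.mem_range, Bool.and_eq_true, decide_eq_true_eq,
      decide_eq_true_eq] at hx
    exact ⟨hx.2.2, hx.2.1, by omega⟩) h1
  exact ⟨t, h2, h3, h4⟩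

/-- the thresholds for `g` -/
def thr (g : ℕ → ℕ) : ℕ → ℕ
  | 0 => 1
  | i + 1 => thr g i + 1 + ∑ j ∈ Finset.range (thr g i + 1), g j

theorem thr_mono (g : ℕ → ℕ) : StrictMono (thr g) :=
  strictMono_nat_of_lt_succ fun i => by
    have : thr g (i + 1) = thr g i + 1 + ∑ j ∈ Finset.range (thr g i + 1), g j := rfl
    omega

open Classical in
/-- the set of the thresholds for `g` -/
noncomputable def thrSet (g : ℕ → ℕ) (s : ℕ) : Bool := decide (∃ i, thr g i = s)

theorem thrSet_inf (g : ℕ → ℕ) (m : ℕ) : ∃ t, m < t ∧ thrSet g t = true :=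
  ⟨thr g (m + 1), lt_of_lt_of_le (Nat.lt_succ_self m) ((thr_mono g).id_le (m + 1)), by
    simp [thrSet]⟩

/-- the colouring for `g` -/
noncomputable def colFor (g : ℕ → ℕ) (s : ℕ) : ℕ := col (thrSet g) s

theorem dominates (g : ℕ → ℕ) {X : Set ℕ} (hXinf : X.Infinite) {b κ : ℕ}
    (hX : ∀ x ∈ X, ∀ y ∈ X, x < y → colFor g (b + x + y) = κ)
    (hXc : by classical exact ComputableIn O fun n => decide (n ∈ X)) :
    ∃ h : ℕ → ℕ, ComputableIn O h ∧ ∃ m0, ∀ m, m0 ≤ m → g m ≤ h m := by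
  obtain ⟨f, hf, m0, hm0⟩ := exists_jump (thrSet_inf g) hXinf hX hXc
  refine ⟨fun m => f (f m), ci_comp hf hf, m0, fun m hm => ?_⟩
  obtain ⟨t1, h1, h2, h3⟩ := hm0 m hm
  obtain ⟨t2, h4, h5, h6⟩ := hm0 (f m) (by omega)
  simp only [thrSet, decide_eq_true_eq] at h3 h6
  obtain ⟨i, rfl⟩ := h3
  obtain ⟨j, rfl⟩ := h6
  have hij : i < j := (thr_mono g).lt_iff_lt.1 (by omega)
  have h7 : thr g (i + 1) ≤ thr g j := (thr_mono g).monotone hij
  have h8 : thr g (i + 1) = thr g i + 1 + ∑ j ∈ Finset.range (thr g i + 1), g j := rfl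
  have h9 : g m ≤ ∑ j ∈ Finset.range (thr g i + 1), g j :=
    Finset.single_le_sum (f := g) (fun _ _ => Nat.zero_le _) (Finset.mem_range.2 (by omega))
  show g m ≤ f (f m)
  omega

/-- from sums of exactly `m` elements to sums `b + x + y` -/
theorem shift_sums {C : ℕ → ℕ} {m : ℕ} (hm : 2 ≤ m) {X : Set ℕ} (hXinf : X.Infinite) {κ : ℕ}
    (hX : ∀ F : Finset ℕ, (F : Set ℕ) ⊆ X → F.card = m → C (∑ x ∈ F, x) = κ) :
    ∃ b N0 : ℕ, {x | x ∈ X ∧ N0 ≤ x}.Infinite ∧ ∀ x ∈ {x | x ∈ X ∧ N0 ≤ x},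
      ∀ y ∈ {x | x ∈ X ∧ N0 ≤ x}, x < y → C (b + x + y) = κ := by
  classical
  obtain ⟨F0, hF0, hcard⟩ := hXinf.exists_subset_card_eq (m - 2)
  refine ⟨∑ x ∈ F0, x, F0.sup id + 1, ?_, ?_⟩
  · by_contra hcon
    rw [Set.not_infinite] at hcon
    refine hXinf ((hcon.union (Set.finite_Iio (F0.sup id + 1))).subset fun x hx => ?_)
    by_cases hxb : F0.sup id + 1 ≤ x
    · exact Or.inl ⟨hx, hxb⟩
    · exact Or.inr (not_le.1 hxb)
  · rintro x ⟨hx, hx'⟩ y ⟨hy, hy'⟩ hxy
    have hle : ∀ z ∈ F0, z ≤ F0.sup id := fun z hz => Finset.le_sup (f := id) hz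
    have hyF : y ∉ F0 := fun h => by have := hle y h; omega
    have hxF : x ∉ insert y F0 := fun h => by
      rcases Finset.mem_insert.1 h with h | h
      · omega
      · have := hle x h; omega
    have h1 := hX (insert x (insert y F0)) (by
      intro z hz
      rw [Finset.mem_coe, Finset.mem_insert, Finset.mem_insert] at hz
      rcases hz with rfl | rfl | hz
      · exact hx
      · exact hy
      · exact hF0 hz) (by
      rw [Finset.card_insert_of_notMem hxF, Finset.card_insert_of_notMem hyF, hcard]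
      omega)
    rw [Finset.sum_insert hxF, Finset.sum_insert hyF] at h1
    rw [← h1]
    congr 1
    ring

end Run7.h628
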