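import Mathlib
import Pool.Agent.Run7.h628.Dom

/-!
# The colouring for the true stages of an enumeration is limit computable
-/

set_option autoImplicit false

namespace Run7.h628

open Encodable Denumerable
open Pool.Agent.Helper67.BN (ci_comp ci_pair ci_nat_rec ci_comp₂ ci_compC ci_fst ci_snd ball
  ball_iff nsum nsum_eq ball_comp nsum_comp cand cor cnot ceqN ceqB clt cle cadd csub cmul cdiv
  cmod cconst ccond ind cind cpair cunl cunr ind_true ind_false nsum_ind lgb lgb_eq clgb)

variable {O : Set (ℕ →. ℕ)} {α : Type} [Primcodable α]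

theorem ci_top {T : α → ℕ → Bool} (hT : ComputableIn₂ O T) {x : α → ℕ} (hx : ComputableIn O x) :
    ComputableIn O fun a => top (T a) (x a) := by
  have h1 : ComputableIn O fun a => Nat.rec (motive := fun _ => ℕ) 0
      (fun i m => bif T a (i + 1) then i + 1 else m) (x a) := by
    refine ci_nat_rec (f := x) (g := fun _ => (0 : ℕ))
      (h := fun (a : α) (p : ℕ × ℕ) => bif T a (p.1 + 1) then p.1 + 1 else p.2) hx (cconst _) ?_
    have h2 : ComputableIn O fun p : α × ℕ × ℕ => p.2.1 + 1 :=
      cadd (ci_comp ci_fst ci_snd) (cconst 1)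
    exact ccond (ci_comp (f := fun p : α × ℕ => T p.1 p.2) hT (ci_pair ci_fst h2)) h2
      (ci_comp ci_snd ci_snd)
  refine ci_congr h1 fun a => ?_
  unfold top
  induction x a with
  | zero => rfl
  | succ n ih =>
    rw [Nat.findGreatest_succ, ih]
    show _ = bif T a (n + 1) then n + 1 else _
    cases T a (n + 1) <;> simp

theorem ci_dst {f g : α → ℕ} (hf : ComputableIn O f) (hg : ComputableIn O g) :
    ComputableIn O fun a => dst (f a) (g a) := by
  have h1 : ComputableIn O fun a => g a % f a := cmod hg hf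
  exact ci_comp₂ (f := fun m n : ℕ => min m n) Primrec.nat_min.to_comp h1 (csub hf h1)

theorem log_eq_lgb (m : ℕ) : Nat.log 3 m = lgb 3 m := by
  rcases Nat.eq_zero_or_pos m with rfl | hm
  · rw [Nat.log_zero_right]
    simp [lgb, nsum, ind]
  · exact (lgb_eq (by norm_num) (Nat.pow_log_le_self 3 (by omega))
      (Nat.lt_pow_succ_log_self (by norm_num) m)).symm

theorem ci_cls {f g : α → ℕ} (hf : ComputableIn O f) (hg : ComputableIn O g) :
    ComputableIn O fun a => cls (f a) (g a) := by
  have h1 : ComputableIn O fun a => 9 * (f a * f a) / (64 * (g a * g a)) :=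
    cdiv (cmul (cconst 9) (cmul hf hf)) (cmul (cconst 64) (cmul hg hg))
  refine ci_congr (clgb 3 h1) fun a => ?_
  rw [← log_eq_lgb]
  unfold cls
  rw [pow_two, pow_two]

theorem ci_ite {p : α → Prop} [DecidablePred p] (hp : ComputableIn O fun a => decide (p a))
    {f g : α → ℕ} (hf : ComputableIn O f) (hg : ComputableIn O g) :
    ComputableIn O fun a => if p a then f a else g a := by
  refine ci_congr (ccond hp hf hg) fun a => ?_
  by_cases h : p a <;> simp [h]

theorem ci_pre {f g : α → ℕ} (hf : ComputableIn O f) (hg : ComputableIn O g) :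
    ComputableIn O fun a => pre (f a) (g a) := by
  have h1 := ci_dst hf hg
  unfold pre
  refine ci_ite (cle (cmul (cconst 3) hf) (cmul (cconst 8) h1)) (cconst 3)
    (cmod (cadd (ci_cls hf h1) ?_) (cconst 3))
  exact ci_ite (cle (cmul (cconst 2) (cmod hg hf)) hf) (cconst 0) (cconst 1)

/-- one step of the chain of residues -/
def stp (T : ℕ → Bool) (p : ℕ × Bool) : ℕ × Bool :=
  bif decide (top T p.1 = 0) then p else (dst (top T p.1) p.1, !p.2)

theorem ci_stp {T : α → ℕ → Bool} (hT : ComputableIn₂ O T) {x : α → ℕ × Bool}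
    (hx : ComputableIn O x) : ComputableIn O fun a => stp (T a) (x a) := by
  have h1 : ComputableIn O fun a => (x a).1 := ci_comp ci_fst hx
  have h2 := ci_top hT h1
  exact ccond (ceqN h2 (cconst 0)) hx (ci_pair (ci_dst h2 h1) (cnot (ci_comp ci_snd hx)))

theorem stp_par (T : ℕ → Bool) (p : ℕ × Bool) :
    xor (stp T p).2 (par T (stp T p).1) = xor p.2 (par T p.1) := by
  unfold stp
  by_cases h : top T p.1 = 0
  · simp [h]
  · rw [par_of_top_ne h]
    simp [h]

theorem top_zero (T : ℕ → Bool) : top T 0 = 0 := Nat.le_zero.1 (top_le T 0)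

/-- the chain of residues, with a parity bit -/
def chn (T : ℕ → Bool) (s : ℕ) : ℕ → ℕ × Bool
  | 0 => (s, false)
  | k + 1 => stp T (chn T s k)

theorem chn_par (T : ℕ → Bool) (s k : ℕ) :
    xor (chn T s k).2 (par T (chn T s k).1) = par T s ∧
    ((chn T s k).1 + k ≤ s ∨ top T (chn T s k).1 = 0) := by
  induction k with
  | zero => exact ⟨by simp [chn], Or.inl le_rfl⟩
  | succ k ih =>
    have hstep : chn T s (k + 1) = stp T (chn T s k) := rfl
    rw [hstep]
    generalize chn T s k = p at *
    refine ⟨(stp_par T p).trans ih.1, ?_⟩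
    by_cases h : top T p.1 = 0
    · right
      have : stp T p = p := by simp [stp, h]
      rw [this]
      exact h
    · have h1 : (stp T p).1 = dst (top T p.1) p.1 := by simp [stp, h]
      have h2 := dst_lt (Nat.pos_of_ne_zero h) (top_le T p.1)
      rcases ih.2 with h3 | h3
      · left
        rw [h1]
        omega
      · exact absurd h3 h

theorem chn_rec (T : ℕ → Bool) (s k : ℕ) :
    chn T s k = Nat.rec (motive := fun _ => ℕ × Bool) (s, false) (fun _ p => stp T p) k := by
  induction k with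
  | zero => rfl
  | succ k ih =>
    have hstep : chn T s (k + 1) = stp T (chn T s k) := rfl
    rw [hstep, ih]

theorem ci_chn {T : α → ℕ → Bool} (hT : ComputableIn₂ O T) {x : α → ℕ} (hx : ComputableIn O x) :
    ComputableIn O fun a => chn (T a) (x a) (x a) := by
  have h2 : ComputableIn₂ O fun (a : α) (p : ℕ × ℕ × Bool) => stp (T a) p.2 := by
    have h3 : ComputableIn O fun q : α × ℕ × ℕ × Bool => q.2.2 := ci_comp ci_snd ci_snd
    have h4 : ComputableIn₂ O fun (q : α × ℕ × ℕ × Bool) (i : ℕ) => T q.1 i :=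
      ci_comp (f := fun p : α × ℕ => T p.1 p.2)
        (g := fun q : (α × ℕ × ℕ × Bool) × ℕ => (q.1.1, q.2)) hT
        (ci_pair (ci_comp ci_fst ci_fst) ci_snd)
    exact ci_stp (T := fun q : α × ℕ × ℕ × Bool => T q.1) h4 h3
  have h1 := ci_nat_rec (f := x) (g := fun a => (x a, false))
      (h := fun (a : α) (p : ℕ × ℕ × Bool) => stp (T a) p.2) hx (ci_pair hx (cconst false)) h2
  exact ci_congr h1 fun a => chn_rec (T a) (x a) (x a)

theorem ci_par {T : α → ℕ → Bool} (hT : ComputableIn₂ O T) {x : α → ℕ} (hx : ComputableIn O x) :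
    ComputableIn O fun a => par (T a) (x a) := by
  refine ci_congr (ci_comp (f := fun p : ℕ × Bool => p.2) ci_snd (ci_chn hT hx)) fun a => ?_
  obtain ⟨h2, h3⟩ := chn_par (T a) (x a) (x a)
  generalize chn (T a) (x a) (x a) = p at *
  have h4 : top (T a) p.1 = 0 := by
    rcases h3 with h3 | h3
    · have : p.1 = 0 := by omega
      rw [this, top_zero]
    · exact h3
  rw [par_of_top_eq h4, Bool.xor_false] at h2
  exact h2.symm

theorem ci_colT {T : α → ℕ → Bool} (hT : ComputableIn₂ O T) {x : α → ℕ} (hx : ComputableIn O x) :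
    ComputableIn O fun a => col (T a) (x a) := by
  have h1 := ci_top hT hx
  have h2 := ci_pre h1 hx
  have h3 := ci_par hT (ci_dst h1 hx)
  unfold col
  refine ci_ite (ceqN h1 (cconst 0)) (cconst 0) (ci_ite (ceqN h2 (cconst 3)) (cconst 6)
    (cadd (cmul (cconst 2) h2) ?_))
  refine ci_congr (cind h3) fun a => ?_
  cases par (T a) (dst (top (T a) (x a)) (x a)) <;> rfl

/-! ### dependence on an initial segment of the thresholds -/

theorem top_congr {T T' : ℕ → Bool} {s : ℕ} (h : ∀ t, t ≤ s → T t = T' t) : top T s = top T' s := by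
  unfold top
  induction s with
  | zero => rfl
  | succ n ih =>
    rw [Nat.findGreatest_succ, Nat.findGreatest_succ, h (n + 1) le_rfl,
      ih fun t ht => h t (by omega)]

theorem par_congr {T T' : ℕ → Bool} (s : ℕ) :
    (∀ t, t ≤ s → T t = T' t) → par T s = par T' s := by
  induction s using Nat.strong_induction_on with
  | _ s ih =>
    intro h
    have h1 := top_congr h
    by_cases h2 : top T s = 0
    · rw [par_of_top_eq h2, par_of_top_eq (h1 ▸ h2)]
    · rw [par_of_top_ne h2, par_of_top_ne (T := T') (s := s) (by rw [← h1]; exact h2), ← h1]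
      have h3 := dst_lt (Nat.pos_of_ne_zero h2) (top_le T s)
      rw [ih _ h3 fun t ht => h t (by omega)]

theorem col_congr {T T' : ℕ → Bool} {s : ℕ} (h : ∀ t, t ≤ s → T t = T' t) :
    col T s = col T' s := by
  unfold col
  rw [← top_congr h]
  by_cases h2 : top T s = 0
  · simp [h2]
  · have h3 := dst_lt (Nat.pos_of_ne_zero h2) (top_le T s)
    rw [par_congr (T := T) (T' := T') (dst (top T s) s) fun t ht => h t (by omega)]

/-! ### true stages -/

/-- `t` looks like a true stage at stage `l` -/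
def tru (f : ℕ → ℕ) (l t : ℕ) : Bool :=
  decide (1 ≤ t) && ball (l + 1) fun s => !(decide (t < s)) || decide (f t < f s)

theorem tru_iff {f : ℕ → ℕ} {l t : ℕ} :
    tru f l t = true ↔ 1 ≤ t ∧ ∀ s, s ≤ l → t < s → f t < f s := by
  unfold tru
  rw [Bool.and_eq_true, decide_eq_true_eq, ball_iff]
  refine and_congr_right fun _ => ⟨fun h s hs hts => ?_, fun h s hs => ?_⟩
  · have := h s (by omega)
    simpa [hts] using this
  · by_cases hts : t < s
    · simp [h s (by omega) hts]
    · simp [hts]

open Classical in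
/-- the true stages -/
noncomputable def truL (f : ℕ → ℕ) (t : ℕ) : Bool := decide (1 ≤ t ∧ ∀ s, t < s → f t < f s)

theorem truL_iff {f : ℕ → ℕ} {t : ℕ} : truL f t = true ↔ 1 ≤ t ∧ ∀ s, t < s → f t < f s := by
  simp [truL]

theorem ci_tru {f : ℕ → ℕ} (hf : ComputableIn O f) :
    ComputableIn₂ O fun l t : ℕ => tru f l t := by
  refine cand (cle (cconst 1) ci_snd) (ball_comp (cadd ci_fst (cconst 1)) (cor (cnot ?_) ?_))
  · exact clt (ci_comp ci_snd ci_fst) ci_snd
  · exact clt (ci_comp hf (ci_comp ci_snd ci_fst)) (ci_comp hf ci_snd)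

theorem tru_lim (f : ℕ → ℕ) (s : ℕ) : ∃ L, ∀ l, L ≤ l → ∀ t, t ≤ s → tru f l t = truL f t := by
  classical
  have key : ∀ t, ∃ L, ∀ l, L ≤ l → tru f l t = truL f t := by
    intro t
    by_cases h : truL f t = true
    · refine ⟨0, fun l _ => ?_⟩
      rw [h, tru_iff]
      rw [truL_iff] at h
      exact ⟨h.1, fun s _ hs => h.2 s hs⟩
    · by_cases h1 : 1 ≤ t
      · have h' := h
        rw [truL_iff] at h'
        push Not at h'
        obtain ⟨s, hs, hfs⟩ := h' h1
        refine ⟨s, fun l hl => ?_⟩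
        rw [Bool.not_eq_true] at h
        rw [h, ← Bool.not_eq_true, tru_iff]
        rintro ⟨-, h2⟩
        exact absurd (h2 s hl hs) (by omega)
      · refine ⟨0, fun l _ => ?_⟩
        rw [Bool.not_eq_true] at h
        rw [h, ← Bool.not_eq_true, tru_iff]
        rintro ⟨h2, -⟩
        exact h1 h2
  choose L hL using key
  refine ⟨∑ t ∈ Finset.range (s + 1), L t, fun l hl t ht => hL t l ?_⟩
  exact le_trans (Finset.single_le_sum (f := L) (fun _ _ => Nat.zero_le _)
    (Finset.mem_range.2 (by omega))) hl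

theorem truL_inf {f : ℕ → ℕ} (hf : Function.Injective f) (m : ℕ) :
    ∃ t, m < t ∧ truL f t = true := by
  classical
  -- the least value of `f` above `m`
  have h1 : ∃ v, ∃ t, m < t ∧ f t = v := ⟨f (m + 1), m + 1, Nat.lt_succ_self m, rfl⟩
  obtain ⟨t, ht, hv⟩ := Nat.find_spec h1
  refine ⟨t, ht, truL_iff.2 ⟨by omega, fun s hs => ?_⟩⟩
  by_contra hcon
  have hne : f s ≠ f t := fun h => by
    have := hf h
    omega
  exact Nat.find_min h1 (m := f s) (by omega) ⟨s, by omega, rfl⟩

/-- the colouring, approximated at stage `t` -/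
def dcol (f : ℕ → ℕ) (s t : ℕ) : ℕ := col (tru f t) s

theorem ci_dcol {f : ℕ → ℕ} (hf : ComputableIn O f) :
    ComputableIn O fun p : ℕ × ℕ => dcol f p.1 p.2 := by
  have h1 : ComputableIn₂ O fun (p : ℕ × ℕ) (i : ℕ) => tru f p.2 i :=
    ci_comp (f := fun p : ℕ × ℕ => tru f p.1 p.2) (g := fun q : (ℕ × ℕ) × ℕ => (q.1.2, q.2))
      (ci_tru hf) (ci_pair (ci_comp ci_snd ci_fst) ci_snd)
  exact ci_colT (T := fun p : ℕ × ℕ => tru f p.2) h1 ci_fst

theorem dcol_lim (f : ℕ → ℕ) (s : ℕ) : ∃ L, ∀ t, L ≤ t → dcol f s t = col (truL f) s := by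
  obtain ⟨L, hL⟩ := tru_lim f s
  exact ⟨L, fun t ht => col_congr (hL t ht)⟩

/-- an injective function with the same information as `f` -/
def inj (f : ℕ → ℕ) (s : ℕ) : ℕ :=
  bif ball s (fun i => !(decide (f i = f s))) then 2 * f s else 2 * s + 1

theorem inj_new {f : ℕ → ℕ} {s : ℕ} (h : ∀ i, i < s → f i ≠ f s) : inj f s = 2 * f s := by
  have : ball s (fun i => !(decide (f i = f s))) = true := by
    rw [ball_iff]
    intro i hi
    simp [h i hi]
  simp [inj, this]

theorem inj_old {f : ℕ → ℕ} {s : ℕ} (h : ∃ i, i < s ∧ f i = f s) : inj f s = 2 * s + 1 := by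
  have : ball s (fun i => !(decide (f i = f s))) = false := by
    rw [← Bool.not_eq_true, ball_iff]
    obtain ⟨i, hi, hfi⟩ := h
    intro hcon
    have := hcon i hi
    simp [hfi] at this
  simp [inj, this]

theorem inj_injective (f : ℕ → ℕ) : Function.Injective (inj f) := by
  intro a b hab
  by_cases ha : ∀ i, i < a → f i ≠ f a
  · by_cases hb : ∀ i, i < b → f i ≠ f b
    · rw [inj_new ha, inj_new hb] at hab
      have h1 : f a = f b := by omega
      rcases lt_trichotomy a b with h | h | h
      · exact absurd h1 (hb a h)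
      · exact h
      · exact absurd h1.symm (ha b h)
    · push Not at hb
      rw [inj_new ha, inj_old hb] at hab
      omega
  · push Not at ha
    by_cases hb : ∀ i, i < b → f i ≠ f b
    · rw [inj_old ha, inj_new hb] at hab
      omega
    · push Not at hb
      rw [inj_old ha, inj_old hb] at hab
      omega

theorem ci_inj {f : ℕ → ℕ} (hf : ComputableIn O f) : ComputableIn O (inj f) := by
  have hid : ComputableIn O fun s : ℕ => s := ComputableIn.id
  have h1 : ComputableIn O fun s : ℕ => ball s fun i => !(decide (f i = f s)) :=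
    ball_comp hid (cnot (ceqN (ci_comp hf ci_snd) (ci_comp hf ci_fst)))
  exact ci_congr (ccond h1 (cmul (cconst 2) hf) (cadd (cmul (cconst 2) hid) (cconst 1)))
    fun s => rfl

theorem range_inj (f : ℕ → ℕ) (v : ℕ) : v ∈ Set.range f ↔ ∃ s, inj f s = 2 * v := by
  classical
  constructor
  · intro h
    have h1 : ∃ s, f s = v := h
    refine ⟨Nat.find h1, ?_⟩
    have h2 := Nat.find_spec h1
    rw [inj_new fun i hi h3 => Nat.find_min h1 hi (h3.trans h2), h2]
  · rintro ⟨s, hs⟩
    by_cases h : ∀ i, i < s → f i ≠ f s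
    · rw [inj_new h] at hs
      exact ⟨s, by omega⟩
    · push Not at h
      rw [inj_old h] at hs
      omega

/-- a function `F` with true stages in all intervals `(m, F m]` computes the range -/
theorem range_of_jump {f : ℕ → ℕ} (hf : ComputableIn O f) {F : ℕ → ℕ} (hF : ComputableIn O F)
    {m0 : ℕ} (h : ∀ m, m0 ≤ m → ∃ t, m < t ∧ t ≤ F m ∧ truL (inj f) t = true) :
    by classical exact ComputableIn O fun v => decide (v ∈ Set.range f) := by
  classical
  let S : ℕ → ℕ := fun j => Nat.rec (motive := fun _ => ℕ) m0 (fun _ m => F m) j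
  have hS : ComputableIn O S := ci_nat_rec (f := fun j : ℕ => j) (g := fun _ => m0)
    (h := fun (_ : ℕ) (p : ℕ × ℕ) => F p.2) ComputableIn.id (cconst _)
    (ci_comp hF (ci_comp ci_snd ci_snd))
  have hS1 : ∀ j, S (j + 1) = F (S j) := fun j => rfl
  have key : ∀ j, m0 ≤ S j ∧ ∃ t, S j < t ∧ t ≤ S (j + 1) ∧ truL (inj f) t = true ∧
      j ≤ inj f t := by
    intro j
    induction j with
    | zero =>
      obtain ⟨t, h1, h2, h3⟩ := h m0 le_rfl
      exact ⟨le_rfl, t, h1, h2, h3, Nat.zero_le _⟩
    | succ j ih =>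
      obtain ⟨h0, t, h1, h2, h3, h4⟩ := ih
      obtain ⟨t', h5, h6, h7⟩ := h (S (j + 1)) (by omega)
      refine ⟨by omega, t', h5, h6, h7, ?_⟩
      have := (truL_iff.1 h3).2 t' (by omega)
      omega
  have hdec : ∀ v, v ∈ Set.range f ↔ ∃ s, s < S (2 * v + 1) + 1 ∧ inj f s = 2 * v := by
    intro v
    rw [range_inj]
    constructor
    · rintro ⟨s, hs⟩
      refine ⟨s, ?_, hs⟩
      by_contra hcon
      obtain ⟨-, t, h1, h2, h3, h4⟩ := key (2 * v)
      have := (truL_iff.1 h3).2 s (by omega)
      omega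
    · rintro ⟨s, -, hs⟩
      exact ⟨s, hs⟩
  have h1 : ComputableIn O fun v : ℕ =>
      !(ball (S (2 * v + 1) + 1) fun s => !(decide (inj f s = 2 * v))) := by
    refine cnot (ball_comp (cadd (ci_comp hS (cadd (cmul (cconst 2) ComputableIn.id)
      (cconst 1))) (cconst 1)) (cnot (ceqN (ci_comp (ci_inj hf) ci_snd)
      (cmul (cconst 2) ci_fst))))
  refine ci_congr h1 fun v => ?_
  by_cases hv : v ∈ Set.range f
  · have : ball (S (2 * v + 1) + 1) (fun s => !(decide (inj f s = 2 * v))) = false := by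
      rw [← Bool.not_eq_true, ball_iff]
      obtain ⟨s, h2, h3⟩ := (hdec v).1 hv
      intro hcon
      have := hcon s h2
      simp [h3] at this
    rw [this]
    simp only [hv, decide_true, Bool.not_false]
  · have : ball (S (2 * v + 1) + 1) (fun s => !(decide (inj f s = 2 * v))) = true := by
      rw [ball_iff]
      intro s hs
      have : inj f s ≠ 2 * v := fun h2 => hv ((hdec v).2 ⟨s, hs, h2⟩)
      simp [this]
    rw [this]
    simp only [hv, decide_false, Bool.not_true]

end Run7.h628
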