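import Mathlib

/-!
# Conditions for stable colourings, and: stable Ramsey for pairs does not reduce continuously to
Ramsey for pairs with fewer colours
-/

set_option autoImplicit false

namespace Run7.h628.Weih

open Filter

variable {A B : Type}

/-- every row converges -/
def Stable (f : ℕ → ℕ → A) : Prop := ∀ a, ∃ v, ∀ᶠ y in atTop, f a y = v

/-- agreement on the square below `M` -/
def Agree (M : ℕ) (f g : ℕ → ℕ → A) : Prop := ∀ a < M, ∀ y < M, f a y = g a y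

theorem Agree.symm {M : ℕ} {f g : ℕ → ℕ → A} (h : Agree M f g) : Agree M g f :=
  fun a ha y hy => (h a ha y hy).symm

theorem Agree.trans {M : ℕ} {f g k : ℕ → ℕ → A} (h : Agree M f g) (h' : Agree M g k) :
    Agree M f k := fun a ha y hy => (h a ha y hy).trans (h' a ha y hy)

theorem Agree.mono {M M' : ℕ} {f g : ℕ → ℕ → A} (h : Agree M f g) (hM : M' ≤ M) :
    Agree M' f g := fun a ha y hy => h a (ha.trans_le hM) y (hy.trans_le hM)

/-- `X` is an infinite homogeneous set for the colouring `c` of increasing pairs -/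
def Sol2 (c : ℕ → ℕ → B) (X : ℕ → Bool) : Prop :=
  {n | X n = true}.Infinite ∧ ∃ v, ∀ x y, x < y → X x = true → X y = true → c x y = v

/-- conditions -/
structure Cond (A : Type) where
  /-- the colouring -/
  g : ℕ → ℕ → A
  /-- it is stable -/
  st : Stable g
  /-- the size of the decided square -/
  N : ℕ
  /-- the locked rows -/
  U : Finset ℕ

/-- the colourings allowed by a condition -/
def Cond.In (q : Cond A) (f : ℕ → ℕ → A) : Prop :=
  Stable f ∧ Agree q.N f q.g ∧ ∀ a ∈ q.U, ∀ y, f a y = q.g a y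

theorem Cond.in_self (q : Cond A) : q.In q.g := ⟨q.st, fun _ _ _ _ => rfl, fun _ _ _ => rfl⟩

/-- extension -/
def Ext (r q : Cond A) : Prop := q.In r.g ∧ q.N ≤ r.N ∧ q.U ⊆ r.U

theorem Ext.in_of {r q : Cond A} (h : Ext r q) {f : ℕ → ℕ → A} (hf : r.In f) : q.In f := by
  obtain ⟨⟨_, h1, h2⟩, hN, hU⟩ := h
  obtain ⟨h3, h4, h5⟩ := hf
  exact ⟨h3, (h4.mono hN).trans h1, fun a ha y => (h5 a (hU ha) y).trans (h2 a ha y)⟩

theorem Ext.refl (q : Cond A) : Ext q q := ⟨q.in_self, le_rfl, fun _ h => h⟩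

theorem Ext.trans {s r q : Cond A} (h : Ext s r) (h' : Ext r q) : Ext s q :=
  ⟨h'.in_of h.1, h'.2.1.trans h.2.1, fun _ ha => h.2.2 (h'.2.2 ha)⟩

/-- extension where the newly locked rows have limits in `V` -/
def ExtV (V : Finset A) (r q : Cond A) : Prop :=
  Ext r q ∧ ∀ a ∈ r.U, a ∉ q.U → ∃ v ∈ V, ∀ᶠ y in atTop, r.g a y = v

theorem ExtV.refl (V : Finset A) (q : Cond A) : ExtV V q q := ⟨Ext.refl q, fun _ h h' => absurd h h'⟩

theorem ExtV.trans {V : Finset A} {s r q : Cond A} (h : ExtV V s r) (h' : ExtV V r q) :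
    ExtV V s q := by
  refine ⟨h.1.trans h'.1, fun a ha haq => ?_⟩
  by_cases har : a ∈ r.U
  · obtain ⟨v, hv, h1⟩ := h'.2 a har haq
    exact ⟨v, hv, h1.mono fun y hy => (h.1.1.2.2 a har y).trans hy⟩
  · exact h.2 a ha har

theorem ExtV.mono {V V' : Finset A} {r q : Cond A} (h : ExtV V' r q) (hV : V' ⊆ V) :
    ExtV V r q :=
  ⟨h.1, fun a ha haq => by
    obtain ⟨v, hv, h1⟩ := h.2 a ha haq
    exact ⟨v, hV hv, h1⟩⟩

/-- restart from a member of the condition, no new locks -/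
theorem ext_restart {q : Cond A} {f : ℕ → ℕ → A} (hf : q.In f) {M : ℕ} (hM : q.N ≤ M) :
    Ext ⟨f, hf.1, M, q.U⟩ q := ⟨hf, hM, fun _ h => h⟩

theorem extV_restart (V : Finset A) {q : Cond A} {f : ℕ → ℕ → A} (hf : q.In f) {M : ℕ}
    (hM : q.N ≤ M) : ExtV V ⟨f, hf.1, M, q.U⟩ q :=
  ⟨ext_restart hf hM, fun _ h h' => absurd h h'⟩

/-- the limit of a fusion sequence -/
theorem fusion (q : ℕ → Cond A) (h : ∀ n, Ext (q (n + 1)) (q n)) (hU : ∀ n, n ∈ (q (n + 1)).U)
    (n : ℕ) : (q n).In fun a y => (q (a + 1)).g a y := by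
  have hmono : ∀ m n, m ≤ n → Ext (q n) (q m) := by
    intro m n hmn
    induction n, hmn using Nat.le_induction with
    | base => exact Ext.refl _
    | succ n _ ih => exact (h n).trans ih
  have hrow : ∀ a m, a + 1 ≤ m → ∀ y, (q m).g a y = (q (a + 1)).g a y := fun a m ham y =>
    (hmono (a + 1) m ham).1.2.2 a (hU a) y
  refine ⟨fun a => ?_, fun a ha y hy => ?_, fun a ha y => ?_⟩
  · exact (q (a + 1)).st a
  · have h1 := (hmono n (max n (a + 1)) (le_max_left _ _)).1.2.1 a ha y hy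
    rw [hrow a _ (le_max_right _ _) y] at h1
    exact h1
  · have h1 := (hmono n (max n (a + 1)) (le_max_left _ _)).1.2.2 a ha y
    rw [hrow a _ (le_max_right _ _) y] at h1
    exact h1

/-- lock a row with limit `v` -/
theorem lock_exists (V : Finset A) {v : A} (hv : v ∈ V) (q : Cond A) (n : ℕ) :
    ∃ r : Cond A, ExtV V r q ∧ n ∈ r.U ∧ q.N + 1 ≤ r.N := by
  classical
  by_cases hn : n ∈ q.U
  · exact ⟨⟨q.g, q.st, q.N + 1, q.U⟩, extV_restart V q.in_self (Nat.le_succ _), hn, le_rfl⟩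
  · let g' : ℕ → ℕ → A := fun a y => if a = n ∧ q.N ≤ y then v else q.g a y
    have hst : Stable g' := by
      intro a
      by_cases ha : a = n
      · refine ⟨v, (eventually_ge_atTop q.N).mono fun y hy => ?_⟩
        simp [g', ha, hy]
      · obtain ⟨w, hw⟩ := q.st a
        refine ⟨w, hw.mono fun y hy => ?_⟩
        simp [g', ha, hy]
    refine ⟨⟨g', hst, q.N + 1, insert n q.U⟩, ⟨⟨⟨hst, ?_, ?_⟩, Nat.le_succ _, ?_⟩, ?_⟩, ?_, le_rfl⟩
    · intro a _ y hy
      have : ¬ (q.N ≤ y) := not_le.2 hy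
      simp [g', this]
    · intro a ha y
      have : a ≠ n := fun h => hn (h ▸ ha)
      simp [g', this]
    · exact Finset.subset_insert _ _
    · intro a ha haq
      have : a = n := by
        rcases Finset.mem_insert.1 ha with h | h
        · exact h
        · exact absurd h haq
      refine ⟨v, hv, (eventually_ge_atTop q.N).mono fun y hy => ?_⟩
      simp [g', this, hy]
    · exact Finset.mem_insert_self _ _

/-! ### stable Ramsey for pairs does not reduce to Ramsey for pairs with fewer colours -/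

/-- states of the construction -/
structure St (A B : Type) where
  /-- the condition -/
  q : Cond A
  /-- the elements so far -/
  F : Finset ℕ
  /-- their colours -/
  col : ℕ → B
  /-- a bound below which no new elements come -/
  b : ℕ

/-- extension of states -/
def StLe (V : Finset A) (t s : St A B) : Prop :=
  ExtV V t.q s.q ∧ s.F ⊆ t.F ∧ (∀ x ∈ t.F, x ∉ s.F → s.b ≤ x) ∧ (∀ x ∈ s.F, t.col x = s.col x) ∧
    s.b ≤ t.b

theorem StLe.refl (V : Finset A) (s : St A B) : StLe V s s :=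
  ⟨ExtV.refl V s.q, fun _ h => h, fun _ h h' => absurd h h', fun _ _ => rfl, le_rfl⟩

theorem StLe.trans {V : Finset A} {u t s : St A B} (h : StLe V u t) (h' : StLe V t s) :
    StLe V u s := by
  obtain ⟨h1, h2, h3, h4, h5⟩ := h
  obtain ⟨k1, k2, k3, k4, k5⟩ := h'
  refine ⟨h1.trans k1, fun x hx => h2 (k2 hx), fun x hx hxs => ?_, fun x hx => ?_, k5.trans h5⟩
  · by_cases hxt : x ∈ t.F
    · exact k3 x hxt hxs
    · exact k5.trans (h3 x hx hxt)
  · rw [h4 x (k2 hx), k4 x hx]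

theorem StLe.mono {V V' : Finset A} {t s : St A B} (h : StLe V' t s) (hV : V' ⊆ V) :
    StLe V t s := ⟨h.1.mono hV, h.2⟩

/-- the pattern of the state is persistently possible -/
def PPV (Φ : (ℕ → ℕ → A) → ℕ → ℕ → B) (V : Finset A) (q : Cond A) (F : Finset ℕ)
    (col : ℕ → B) : Prop :=
  ∀ q', ExtV V q' q → ∀ m, ∃ f, q'.In f ∧ ∃ y, m ≤ y ∧ ∀ x ∈ F, Φ f x y = col x

/-- good states -/
def Good (Φ : (ℕ → ℕ → A) → ℕ → ℕ → B) (i : B) (V : Finset A) (s : St A B) : Prop :=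
  (∀ x ∈ s.F, x < s.b) ∧ (∀ x ∈ s.F, s.col x ≠ i) ∧
    (∀ f, s.q.In f → ∀ x ∈ s.F, ∀ y ∈ s.F, x < y → Φ f x y = s.col x) ∧
    PPV Φ V s.q s.F s.col

theorem Good.ext_cond {Φ : (ℕ → ℕ → A) → ℕ → ℕ → B} {i : B} {V : Finset A} {s : St A B}
    (h : Good Φ i V s) {r : Cond A} (hr : ExtV V r s.q) {b : ℕ} (hb : s.b ≤ b) :
    Good Φ i V ⟨r, s.F, s.col, b⟩ ∧ StLe V ⟨r, s.F, s.col, b⟩ s := by
  obtain ⟨h1, h2, h3, h4⟩ := h
  refine ⟨⟨fun x hx => (h1 x hx).trans_le hb, h2, fun f hf => h3 f (hr.1.in_of hf),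
    fun q' hq' => h4 q' (hq'.trans hr)⟩, hr, fun _ h => h, fun _ h h' => absurd h h',
    fun _ _ => rfl, hb⟩

theorem Good.mono {Φ : (ℕ → ℕ → A) → ℕ → ℕ → B} {i : B} {V V' : Finset A} {s : St A B}
    (h : Good Φ i V s) (hV : V' ⊆ V) : Good Φ i V' s :=
  ⟨h.1, h.2.1, h.2.2.1, fun q' hq' => h.2.2.2 q' (hq'.mono hV)⟩

section

variable [Fintype B] [DecidableEq B]
variable {Φ : (ℕ → ℕ → A) → ℕ → ℕ → B} {i : B}

/-- a good state can be extended by a new element -/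
theorem good_ext
    (hΦ : ∀ f, Stable f → ∀ K, ∃ M, ∀ f', Stable f' → Agree M f f' →
      ∀ x < K, ∀ y < K, Φ f' x y = Φ f x y)
    (hi : ∀ f, Stable f → ∀ x y, x < y → Φ f x y ≠ i)
    {V : Finset A} {s : St A B} (h : Good Φ i V s) :
    ∃ t, StLe V t s ∧ Good Φ i V t ∧ ∃ x ∈ t.F, x ∉ s.F := by
  obtain ⟨h1, h2, h3, h4⟩ := h
  obtain ⟨f, hf, x, hx, hcol⟩ := h4 s.q (ExtV.refl V s.q) s.b
  obtain ⟨M, hM⟩ := hΦ f hf.1 (x + 1)
  have hr0 : ExtV V ⟨f, hf.1, max M s.q.N, s.q.U⟩ s.q := extV_restart V hf (le_max_right _ _)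
  set r0 : Cond A := ⟨f, hf.1, max M s.q.N, s.q.U⟩ with hr0def
  have hxF : x ∉ s.F := fun hmem => absurd (h1 x hmem) (not_lt.2 hx)
  have hforce : ∀ f', r0.In f' → ∀ z ∈ s.F, Φ f' z x = s.col z := by
    intro f' hf' z hz
    rw [← hcol z hz]
    refine hM f' hf'.1 ?_ z ?_ x (Nat.lt_succ_self x)
    · exact (hf'.2.1.mono (le_max_left _ _)).symm
    · exact (h1 z hz).trans_le (hx.trans (Nat.le_succ x))
  have key : ∃ γ, γ ≠ i ∧ ∃ r, ExtV V r r0 ∧
      PPV Φ V r (insert x s.F) (Function.update s.col x γ) := by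
    by_contra hcon
    push Not at hcon
    have fin : ∀ J : Finset B, (∀ γ ∈ J, γ ≠ i) → ∃ r, ExtV V r r0 ∧ ∃ M, ∀ f, r.In f →
        ∀ y, M ≤ y → (∀ z ∈ s.F, Φ f z y = s.col z) → ∀ γ ∈ J, Φ f x y ≠ γ := by
      intro J
      induction J using Finset.induction_on with
      | empty =>
        intro _
        exact ⟨r0, ExtV.refl V r0, 0, fun _ _ _ _ _ γ hγ => absurd hγ (Finset.notMem_empty γ)⟩
      | insert γ J hγJ ih =>
        intro hJ
        obtain ⟨r, hr, M1, hM1⟩ := ih fun δ hδ => hJ δ (Finset.mem_insert_of_mem hδ)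
        have h5 := hcon γ (hJ γ (Finset.mem_insert_self γ J)) r hr
        unfold PPV at h5
        push Not at h5
        obtain ⟨q', hq', m, hm⟩ := h5
        refine ⟨q', hq'.trans hr, max M1 m, fun f' hf' y hy hz δ hδ => ?_⟩
        rcases Finset.mem_insert.1 hδ with hδ | hδ
        · rw [hδ]
          intro hγy
          obtain ⟨z, hz1, hz2⟩ := hm f' hf' y ((le_max_right _ _).trans hy)
          rcases Finset.mem_insert.1 hz1 with h6 | h6
          · subst h6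
            simp only [Function.update_self] at hz2
            exact hz2 hγy
          · have h7 : z ≠ x := fun h => hxF (h ▸ h6)
            rw [Function.update_of_ne h7] at hz2
            exact hz2 (hz z h6)
        · exact hM1 f' (hq'.1.in_of hf') y ((le_max_left _ _).trans hy) hz δ hδ
    obtain ⟨r, hr, M1, hM1⟩ := fin (Finset.univ.erase i) fun γ hγ => (Finset.mem_erase.1 hγ).1
    obtain ⟨f', hf', y, hy, hcy⟩ := h4 r (hr.trans hr0) (max M1 (x + 1))
    have h6 := hM1 f' hf' y ((le_max_left _ _).trans hy) hcy (Φ f' x y)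
      (Finset.mem_erase.2 ⟨hi f' hf'.1 x y ((le_max_right M1 (x + 1)).trans hy), Finset.mem_univ _⟩)
    exact h6 rfl
  obtain ⟨γ, hγ, r, hr, hpp⟩ := key
  refine ⟨⟨r, insert x s.F, Function.update s.col x γ, x + 1⟩, ⟨hr.trans hr0,
    Finset.subset_insert _ _, ?_, ?_, hx.trans (Nat.le_succ x)⟩, ⟨?_, ?_, ?_, hpp⟩, x,
    Finset.mem_insert_self _ _, hxF⟩
  · intro y hy hys
    rcases Finset.mem_insert.1 hy with h6 | h6
    · exact h6 ▸ hx
    · exact absurd h6 hys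
  · intro y hy
    have h7 : y ≠ x := fun h => hxF (h ▸ hy)
    exact Function.update_of_ne h7 _ _
  · intro y hy
    rcases Finset.mem_insert.1 hy with h6 | h6
    · exact h6 ▸ Nat.lt_succ_self x
    · exact (h1 y h6).trans_le (hx.trans (Nat.le_succ x))
  · intro y hy
    rcases Finset.mem_insert.1 hy with h6 | h6
    · simp only [h6, Function.update_self]
      exact hγ
    · have h7 : y ≠ x := fun h => hxF (h ▸ h6)
      simp only [Function.update_of_ne h7]
      exact h2 y h6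
  · intro f' hf' z hz y hy hzy
    simp only at hz hy hf' ⊢
    rcases Finset.mem_insert.1 hz with h6 | h6
    · exfalso
      rcases Finset.mem_insert.1 hy with h7 | h7
      · omega
      · have := h1 y h7
        omega
    · have h8 : z ≠ x := fun h => hxF (h ▸ h6)
      rw [Function.update_of_ne h8]
      rcases Finset.mem_insert.1 hy with h7 | h7
      · rw [h7]
        exact hforce f' (hr.1.in_of hf') z h6
      · exact h3 f' ((hr.trans hr0).1.in_of hf') z h6 y h7 hzy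

/-- elements of colour `γ` can be added forever -/
def FA (Φ : (ℕ → ℕ → A) → ℕ → ℕ → B) (i : B) (V : Finset A) (s : St A B) (γ : B) : Prop :=
  ∀ t, StLe V t s → Good Φ i V t → ∃ u, StLe V u t ∧ Good Φ i V u ∧ ∃ x ∈ u.F, x ∉ t.F ∧ u.col x = γ

theorem exists_FA
    (hΦ : ∀ f, Stable f → ∀ K, ∃ M, ∀ f', Stable f' → Agree M f f' →
      ∀ x < K, ∀ y < K, Φ f' x y = Φ f x y)
    (hi : ∀ f, Stable f → ∀ x y, x < y → Φ f x y ≠ i)
    {V : Finset A} {s : St A B} (h : Good Φ i V s) :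
    ∃ t, StLe V t s ∧ Good Φ i V t ∧ ∃ γ, γ ≠ i ∧ FA Φ i V t γ := by
  by_contra hcon
  push Not at hcon
  have fin : ∀ J : Finset B, (∀ γ ∈ J, γ ≠ i) → ∃ t, StLe V t s ∧ Good Φ i V t ∧
      ∀ γ ∈ J, ∀ u, StLe V u t → Good Φ i V u → ∀ x ∈ u.F, x ∉ t.F → u.col x ≠ γ := by
    intro J
    induction J using Finset.induction_on with
    | empty =>
      intro _
      exact ⟨s, StLe.refl V s, h, fun γ hγ => absurd hγ (Finset.notMem_empty γ)⟩
    | insert γ J hγJ ih =>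
      intro hJ
      obtain ⟨t, ht, htg, hdead⟩ := ih fun δ hδ => hJ δ (Finset.mem_insert_of_mem hδ)
      have h5 := hcon t ht htg γ (hJ γ (Finset.mem_insert_self γ J))
      unfold FA at h5
      push Not at h5
      obtain ⟨t', ht', htg', h6⟩ := h5
      refine ⟨t', ht'.trans ht, htg', fun δ hδ u hu hug x hx hxt => ?_⟩
      rcases Finset.mem_insert.1 hδ with h7 | h7
      · rw [h7]
        exact h6 u hu hug x hx hxt
      · exact hdead δ h7 u (hu.trans ht') hug x hx fun hxt' => hxt (ht'.2.1 hxt')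
  obtain ⟨t, ht, htg, hdead⟩ := fin (Finset.univ.erase i) fun γ hγ => (Finset.mem_erase.1 hγ).1
  obtain ⟨u, hu, hug, x, hx, hxt⟩ := good_ext hΦ hi htg
  exact hdead (u.col x) (Finset.mem_erase.2 ⟨hug.2.1 x hx, Finset.mem_univ _⟩) u hu hug x hx hxt rfl

omit [Fintype B] [DecidableEq B] in
/-- building an infinite homogeneous set -/
theorem chain {V : Finset A} (hV : V.Nonempty) {s : St A B} (hs : Good Φ i V s) {γ : B}
    (hFA : FA Φ i V s γ) :
    ∃ (f : ℕ → ℕ → A) (X : ℕ → Bool), s.q.In f ∧ {n | X n = true}.Infinite ∧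
      (∀ x y, x < y → X x = true → X y = true → Φ f x y = γ) ∧
      (∀ a, a ∉ s.q.U → ∃ v ∈ V, ∀ᶠ y in atTop, f a y = v) ∧
      ∀ K, ∃ t, StLe V t s ∧ Good Φ i V t ∧ t.q.In f ∧ K ≤ t.q.N ∧ K ≤ t.b ∧
        ∀ x < t.b, (X x = true ↔ x ∈ t.F ∧ t.col x = γ) := by
  classical
  obtain ⟨v, hv⟩ := hV
  have step : ∀ (n : ℕ) (t : {t : St A B // StLe V t s ∧ Good Φ i V t}),
      ∃ u : {u : St A B // StLe V u s ∧ Good Φ i V u},
        StLe V u.1 t.1 ∧ n ∈ u.1.q.U ∧ n ≤ u.1.q.N ∧ n ≤ u.1.b ∧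
        ∃ x ∈ u.1.F, n ≤ x ∧ u.1.col x = γ := by
    intro n t
    obtain ⟨r, hr, hrU, _⟩ := lock_exists V hv t.1.q n
    obtain ⟨g1, l1⟩ := t.2.2.ext_cond hr (le_max_left t.1.b n)
    have hq2 : ExtV V ⟨r.g, r.st, max r.N n, r.U⟩ r := extV_restart V r.in_self (le_max_left _ _)
    obtain ⟨g2, l2⟩ := g1.ext_cond hq2 le_rfl
    have l3 := l2.trans l1
    obtain ⟨u, hu, hug, x, hx, hxt, hxc⟩ := hFA _ (l3.trans t.2.1) g2
    refine ⟨⟨u, hu.trans (l3.trans t.2.1), hug⟩, hu.trans l3, hu.1.1.2.2 hrU, ?_, ?_, x, hx, ?_, hxc⟩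
    · exact (le_max_right r.N n).trans hu.1.1.2.1
    · exact (le_max_right t.1.b n).trans hu.2.2.2.2
    · exact (le_max_right t.1.b n).trans (hu.2.2.1 x hx hxt)
  choose nxt hnxt using step
  let sq : ℕ → {t : St A B // StLe V t s ∧ Good Φ i V t} := fun n =>
    Nat.rec ⟨s, StLe.refl V s, hs⟩ (fun n t => nxt n t) n
  have sq0 : (sq 0).1 = s := rfl
  have sqs : ∀ n, sq (n + 1) = nxt n (sq n) := fun n => rfl
  have hle : ∀ n, StLe V (sq (n + 1)).1 (sq n).1 := fun n => by rw [sqs]; exact (hnxt n (sq n)).1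
  have hU : ∀ n, n ∈ (sq (n + 1)).1.q.U := fun n => by rw [sqs]; exact (hnxt n (sq n)).2.1
  have hN : ∀ n, n ≤ (sq (n + 1)).1.q.N := fun n => by rw [sqs]; exact (hnxt n (sq n)).2.2.1
  have hb : ∀ n, n ≤ (sq (n + 1)).1.b := fun n => by rw [sqs]; exact (hnxt n (sq n)).2.2.2.1
  have hx : ∀ n, ∃ x ∈ (sq (n + 1)).1.F, n ≤ x ∧ (sq (n + 1)).1.col x = γ := fun n => by
    rw [sqs]; exact (hnxt n (sq n)).2.2.2.2
  have hmono : ∀ m n, m ≤ n → StLe V (sq n).1 (sq m).1 := by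
    intro m n hmn
    induction n, hmn using Nat.le_induction with
    | base => exact StLe.refl V _
    | succ n _ ih => exact (hle n).trans ih
  let f : ℕ → ℕ → A := fun a y => (sq (a + 1)).1.q.g a y
  have hf : ∀ n, (sq n).1.q.In f := fun n =>
    fusion (fun n => (sq n).1.q) (fun n => (hle n).1.1) hU n
  have hmem : ∀ m n, m ≤ n → ∀ x < (sq m).1.b,
      (x ∈ (sq n).1.F ∧ (sq n).1.col x = γ ↔ x ∈ (sq m).1.F ∧ (sq m).1.col x = γ) := by
    intro m n hmn x hx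
    obtain ⟨_, h2, h3, h4, _⟩ := hmono m n hmn
    constructor
    · rintro ⟨k1, k2⟩
      have h5 : x ∈ (sq m).1.F := by
        by_contra hcon
        exact absurd (h3 x k1 hcon) (not_le.2 hx)
      exact ⟨h5, (h4 x h5) ▸ k2⟩
    · rintro ⟨k1, k2⟩
      exact ⟨h2 k1, (h4 x k1).trans k2⟩
  refine ⟨f, fun x => decide (∃ n, x ∈ (sq n).1.F ∧ (sq n).1.col x = γ), hf 0, ?_, ?_, ?_, ?_⟩
  · rw [Set.infinite_iff_exists_gt]
    intro K
    obtain ⟨x, h1, h2, h3⟩ := hx (K + 1)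
    exact ⟨x, by simpa using ⟨K + 2, h1, h3⟩, by omega⟩
  · intro x y hxy hX hY
    simp only [decide_eq_true_eq] at hX hY
    obtain ⟨n1, h1, h2⟩ := hX
    obtain ⟨n2, h3, _⟩ := hY
    set n := max n1 n2 with hn
    have h5 : x ∈ (sq n).1.F := (hmono n1 n (le_max_left _ _)).2.1 h1
    have h6 : y ∈ (sq n).1.F := (hmono n2 n (le_max_right _ _)).2.1 h3
    rw [(sq n).2.2.2.2.1 f (hf n) x h5 y h6 hxy,
      (hmono n1 n (le_max_left _ _)).2.2.2.1 x h1, h2]
  · intro a ha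
    obtain ⟨v, hv, h1⟩ := (hmono 0 (a + 1) (Nat.zero_le _)).1.2 a (hU a) ha
    exact ⟨v, hv, h1⟩
  · intro K
    refine ⟨(sq (K + 1)).1, (sq (K + 1)).2.1, (sq (K + 1)).2.2, hf (K + 1), hN K, hb K,
      fun x hx => ?_⟩
    simp only [decide_eq_true_eq]
    constructor
    · rintro ⟨n, h1⟩
      rcases le_total n (K + 1) with h2 | h2
      · exact ⟨(hmono n _ h2).2.1 h1.1, ((hmono n _ h2).2.2.2.1 x h1.1).trans h1.2⟩
      · exact (hmem (K + 1) n h2 x hx).1 h1
    · intro h1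
      exact ⟨K + 1, h1⟩

/-- the elements of colour `γ` are committed to a colour outside `V` -/
def Com (Φ : (ℕ → ℕ → A) → ℕ → ℕ → B) (Ψ : (ℕ → ℕ → A) → (ℕ → Bool) → ℕ → Bool)
    (V : Finset A) (s : St A B) (γ : B) : Prop :=
  ∃ M, M ≤ s.b ∧ ∃ a b v, a < b ∧ v ∉ V ∧ (∀ f, s.q.In f → f a b = v) ∧
    ∀ f X, s.q.In f → Sol2 (Φ f) X → (∀ x < M, (X x = true ↔ x ∈ s.F ∧ s.col x = γ)) →
      Ψ f X a = true ∧ Ψ f X b = true

omit [Fintype B] [DecidableEq B] in
theorem Com.mono {Ψ : (ℕ → ℕ → A) → (ℕ → Bool) → ℕ → Bool} {V V' : Finset A} (hV : V' ⊆ V)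
    {t s : St A B} (h : StLe V t s) {γ : B} (hc : Com Φ Ψ V s γ) : Com Φ Ψ V' t γ := by
  obtain ⟨M, hM, a, b, v, hab, hv, h1, h2⟩ := hc
  refine ⟨M, hM.trans h.2.2.2.2, a, b, v, hab, fun h => hv (hV h), fun f hf =>
    h1 f (h.1.1.in_of hf), fun f X hf hX hX2 => h2 f X (h.1.1.in_of hf) hX fun x hx => ?_⟩
  rw [hX2 x hx]
  constructor
  · rintro ⟨k1, k2⟩
    have h5 : x ∈ s.F := by
      by_contra hcon
      exact absurd (h.2.2.1 x k1 hcon) (not_le.2 (hx.trans_le hM))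
    exact ⟨h5, (h.2.2.2.1 x h5) ▸ k2⟩
  · rintro ⟨k1, k2⟩
    exact ⟨h.2.1 k1, (h.2.2.2.1 x k1).trans k2⟩

omit [Fintype B] [DecidableEq B] in
/-- the limit of a row met by an infinite homogeneous set -/
theorem lim_of_sol {f : ℕ → ℕ → A} {H : ℕ → Bool} (hH : Sol2 f H) {a b : ℕ} (hab : a < b)
    (ha : H a = true) (hb : H b = true) {c : ℕ} (hc : H c = true) {w : A}
    (hw : ∀ᶠ y in atTop, f c y = w) : w = f a b := by
  obtain ⟨hinf, v, hv⟩ := hH
  obtain ⟨K, hK⟩ := eventually_atTop.1 hw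
  obtain ⟨y, hy1, hy2⟩ := (Set.infinite_iff_exists_gt.1 hinf) (max K c)
  rw [hv a b hab ha hb, ← hK y ((le_max_left _ _).trans hy2.le)]
  exact hv c y ((le_max_right K c).trans_lt hy2) hc hy1

omit [Fintype B] [DecidableEq B] in
theorem not_FA_of_com {Ψ : (ℕ → ℕ → A) → (ℕ → Bool) → ℕ → Bool}
    (hsol : ∀ f X, Stable f → Sol2 (Φ f) X → Sol2 f (Ψ f X))
    {V : Finset A} (hV : V.Nonempty) {s : St A B} (hs : Good Φ i V s) {γ : B}
    (hFA : FA Φ i V s γ) (hc : Com Φ Ψ V s γ) : False := by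
  obtain ⟨f, X, hf, hinf, hhom, hlim, ht⟩ := chain hV hs hFA
  obtain ⟨M, hM, a, b, v, hab, hv, h1, h2⟩ := hc
  have hX : Sol2 (Φ f) X := ⟨hinf, γ, hhom⟩
  have hXM : ∀ x < M, (X x = true ↔ x ∈ s.F ∧ s.col x = γ) := by
    intro x hx
    obtain ⟨t, hts, _, _, _, _, h6⟩ := ht 0
    have hxb : x < s.b := hx.trans_le hM
    rw [h6 x (hxb.trans_le hts.2.2.2.2)]
    constructor
    · rintro ⟨k1, k2⟩
      have h5 : x ∈ s.F := by
        by_contra hcon
        exact absurd (hts.2.2.1 x k1 hcon) (not_le.2 hxb)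
      exact ⟨h5, (hts.2.2.2.1 x h5) ▸ k2⟩
    · rintro ⟨k1, k2⟩
      exact ⟨hts.2.1 k1, (hts.2.2.2.1 x k1).trans k2⟩
  obtain ⟨ha, hb⟩ := h2 f X hf hX hXM
  have hH := hsol f X hf.1 hX
  obtain ⟨c, hc1, hc2⟩ := hH.1.exists_notMem_finset s.q.U
  obtain ⟨w, hw, hw2⟩ := hlim c hc2
  have := lim_of_sol hH hab ha hb hc1 hw2
  rw [h1 f hf] at this
  exact hv (this ▸ hw)

theorem no_rt_aux [DecidableEq A] {Ψ : (ℕ → ℕ → A) → (ℕ → Bool) → ℕ → Bool}
    (hΦ : ∀ f, Stable f → ∀ K, ∃ M, ∀ f', Stable f' → Agree M f f' →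
      ∀ x < K, ∀ y < K, Φ f' x y = Φ f x y)
    (hi : ∀ f, Stable f → ∀ x y, x < y → Φ f x y ≠ i)
    (hΨ : ∀ f X, Stable f → Sol2 (Φ f) X → ∀ K, ∃ M, ∀ f' X', Stable f' → Sol2 (Φ f') X' →
      Agree M f f' → (∀ n < M, X' n = X n) → ∀ n < K, Ψ f' X' n = Ψ f X n)
    (hsol : ∀ f X, Stable f → Sol2 (Φ f) X → Sol2 f (Ψ f X)) (n : ℕ) :
    ∀ (V : Finset A) (Δ : Finset B) (s : St A B), Good Φ i V s → V.Nonempty →
      (∀ γ ∈ Δ, Com Φ Ψ V s γ) → (Finset.univ.erase i \ Δ).card = n → n < V.card → False := by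
  induction n with
  | zero =>
    intro V Δ s hs hV hΔ hcard _
    obtain ⟨t, hts, htg, γ, hγ, hFA⟩ := exists_FA hΦ hi hs
    by_cases hmem : γ ∈ Δ
    · exact not_FA_of_com hsol hV htg hFA ((hΔ γ hmem).mono (Finset.Subset.refl V) hts)
    · have : γ ∈ Finset.univ.erase i \ Δ :=
        Finset.mem_sdiff.2 ⟨Finset.mem_erase.2 ⟨hγ, Finset.mem_univ _⟩, hmem⟩
      rw [Finset.card_eq_zero.1 hcard] at this
      exact Finset.notMem_empty γ this
  | succ n ih =>
    intro V Δ s hs hV hΔ hcard hn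
    obtain ⟨t, hts, htg, γ, hγ, hFA⟩ := exists_FA hΦ hi hs
    by_cases hmem : γ ∈ Δ
    · exact not_FA_of_com hsol hV htg hFA ((hΔ γ hmem).mono (Finset.Subset.refl V) hts)
    · have hγmem : γ ∈ Finset.univ.erase i \ Δ :=
        Finset.mem_sdiff.2 ⟨Finset.mem_erase.2 ⟨hγ, Finset.mem_univ _⟩, hmem⟩
      obtain ⟨f, X, hf, hinf, hhom, hlim, ht⟩ := chain hV htg hFA
      have hX : Sol2 (Φ f) X := ⟨hinf, γ, hhom⟩
      have hH := hsol f X hf.1 hX
      obtain ⟨a, ha⟩ := hH.1.nonempty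
      obtain ⟨b, hb, hab⟩ := (Set.infinite_iff_exists_gt.1 hH.1) a
      obtain ⟨M, hM⟩ := hΨ f X hf.1 hX (b + 1)
      obtain ⟨u, hut, hug, huf, huN, hub, huX⟩ := ht (max M (b + 1))
      have hV' : V.erase (f a b) ⊆ V := Finset.erase_subset _ _
      have hcardV : V.card - 1 ≤ (V.erase (f a b)).card := Finset.pred_card_le_card_erase
      have hcard' : (Finset.univ.erase i \ insert γ Δ).card = n := by
        rw [Finset.sdiff_insert, Finset.card_erase_of_mem hγmem, hcard]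
        rfl
      have hlt : n < (V.erase (f a b)).card := by omega
      refine ih (V.erase (f a b)) (insert γ Δ) u (hug.mono hV')
        (Finset.card_pos.1 (by omega)) ?_ hcard' hlt
      intro δ hδ
      rcases Finset.mem_insert.1 hδ with h1 | h1
      · rw [h1]
        refine ⟨max M (b + 1), hub, a, b, f a b, hab, Finset.notMem_erase _ _, ?_, ?_⟩
        · intro f' hf'
          have h2 : b < u.q.N := (Nat.lt_succ_self b).trans_le ((le_max_right _ _).trans huN)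
          rw [hf'.2.1 a (hab.trans h2) b h2, huf.2.1 a (hab.trans h2) b h2]
        · intro f' X' hf' hX' hX2
          have h3 : Agree M f f' :=
            ((huf.2.1.trans hf'.2.1.symm).mono ((le_max_left _ _).trans huN))
          have h4 : ∀ n < M, X' n = X n := by
            intro x hx
            have h5 := hX2 x (hx.trans_le (le_max_left _ _))
            have h6 := huX x ((hx.trans_le (le_max_left _ _)).trans_le hub)
            rw [Bool.eq_iff_iff, h5, h6]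
          have h7 := hM f' X' hf'.1 hX' h3 h4
          exact ⟨(h7 a (hab.trans (Nat.lt_succ_self b))).trans ha,
            (h7 b (Nat.lt_succ_self b)).trans hb⟩
      · exact (hΔ δ h1).mono hV' (hut.trans hts)

/-- stable Ramsey for pairs and the colours of `A` is not continuously reducible to Ramsey for
pairs and fewer colours -/
theorem no_rt [Fintype A] (hAB : Fintype.card B ≤ Fintype.card A)
    (Φ : (ℕ → ℕ → A) → ℕ → ℕ → B) (Ψ : (ℕ → ℕ → A) → (ℕ → Bool) → ℕ → Bool) (i : B)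
    (hΦ : ∀ f, Stable f → ∀ K, ∃ M, ∀ f', Stable f' → Agree M f f' →
      ∀ x < K, ∀ y < K, Φ f' x y = Φ f x y)
    (hi : ∀ f, Stable f → ∀ x y, x < y → Φ f x y ≠ i)
    (hΨ : ∀ f X, Stable f → Sol2 (Φ f) X → ∀ K, ∃ M, ∀ f' X', Stable f' → Sol2 (Φ f') X' →
      Agree M f f' → (∀ n < M, X' n = X n) → ∀ n < K, Ψ f' X' n = Ψ f X n)
    (hsol : ∀ f X, Stable f → Sol2 (Φ f) X → Sol2 f (Ψ f X)) : False := by
  classical
  have hB : 0 < Fintype.card B := Fintype.card_pos_iff.2 ⟨i⟩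
  obtain ⟨v⟩ : Nonempty A := Fintype.card_pos_iff.1 (hB.trans_le hAB)
  let q0 : Cond A := ⟨fun _ _ => v, fun _ => ⟨v, Eventually.of_forall fun _ => rfl⟩, 0, ∅⟩
  have hgood : Good Φ i (Finset.univ : Finset A) (⟨q0, ∅, fun _ => i, 0⟩ : St A B) := by
    refine ⟨fun x hx => absurd hx (Finset.notMem_empty x),
      fun x hx => absurd hx (Finset.notMem_empty x),
      fun f hf x hx => absurd hx (Finset.notMem_empty x), fun q' hq' m => ?_⟩
    exact ⟨q'.g, q'.in_self, m, le_rfl, fun x hx => absurd hx (Finset.notMem_empty x)⟩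
  refine no_rt_aux hΦ hi hΨ hsol (Finset.univ.erase i \ ∅).card Finset.univ ∅ _ hgood
    ⟨v, Finset.mem_univ v⟩ (fun γ hγ => absurd hγ (Finset.notMem_empty γ)) rfl ?_
  rw [Finset.sdiff_empty, Finset.card_erase_of_mem (Finset.mem_univ i), Finset.card_univ,
    Finset.card_univ]
  omega

end

end Run7.h628.Weih
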