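import Mathlib
import Pool.Agent.Run7.h628.Weih1

/-!
# Squashing: a robust construction of sets whose pair sums avoid a colour is impossible
-/

set_option autoImplicit false

namespace Run7.h628.Weih

open Filter

variable {A B : Type}

/-- solutions for exact sums of two elements -/
def HTS (c : ℕ → B) (X : ℕ → Bool) : Prop := Sol2 (fun x y => c (x + y)) X

/-- states of the coding -/
structure RS (A : Type) where
  /-- the condition -/
  c : Cond A
  /-- the elements so far -/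
  F : Finset ℕ
  /-- the block of a row -/
  blk : ℕ → ℕ
  /-- the enumeration of the elements -/
  xs : ℕ → ℕ
  /-- the stage -/
  n : ℕ

/-- the step of the coding -/
def StepP (U : Finset ℕ) (s : RS A) (w : ℕ → A) (t : RS A) : Prop :=
  Ext t.c s.c ∧ s.c.N < t.c.N ∧
  (∀ a < s.c.N, a ∉ U → ∀ y, s.c.N ≤ y → y < t.c.N → t.c.g a y = w (s.blk a)) ∧
  (∀ a, t.blk a = if a < s.c.N then s.blk a else s.n) ∧ t.n = s.n + 1 ∧
  (∀ z ∈ s.F, z < t.xs s.n) ∧ s.n ≤ t.xs s.n ∧ t.F = insert (t.xs s.n) s.F ∧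
  ∀ l, l ≠ s.n → t.xs l = s.xs l

/-- the invariant of the coding -/
def RInv (Q : Cond A → Finset ℕ → Prop) (q0 : Cond A) (s : RS A) : Prop :=
  Ext s.c q0 ∧ s.c.U = q0.U ∧ Q s.c s.F ∧ ∀ a, s.blk a ≤ s.n

theorem step_exists {q0 : Cond A} {Q : Cond A → Finset ℕ → Prop}
    (hmono : ∀ q r F, Q q F → Ext r q → Q r F)
    (hext : ∀ q F, Ext q q0 → Q q F → ∀ m, ∃ r, Ext r q ∧ r.U = q.U ∧
      ∃ x, m ≤ x ∧ Q r (insert x F))
    (hloc : ∀ q F, Ext q q0 → Q q F → ∃ M', ∀ M'', M' ≤ M'' → Q ⟨q.g, q.st, M'', q0.U⟩ F)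
    (s : RS A) (hs : RInv Q q0 s) (w : ℕ → A) : ∃ t, RInv Q q0 t ∧ StepP q0.U s w t := by
  classical
  obtain ⟨h1, h2, h3, h4⟩ := hs
  let g' : ℕ → ℕ → A := fun a y =>
    if a < s.c.N ∧ a ∉ q0.U ∧ s.c.N ≤ y then w (s.blk a) else s.c.g a y
  have hst : Stable g' := by
    intro a
    by_cases ha : a < s.c.N ∧ a ∉ q0.U
    · refine ⟨w (s.blk a), (eventually_ge_atTop s.c.N).mono fun y hy => ?_⟩
      simp [g', ha.1, ha.2, hy]
    · obtain ⟨v, hv⟩ := s.c.st a
      refine ⟨v, hv.mono fun y hy => ?_⟩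
      have : ¬ (a < s.c.N ∧ a ∉ q0.U ∧ s.c.N ≤ y) := fun h => ha ⟨h.1, h.2.1⟩
      simp only [g', this, if_false]
      exact hy
  let c1 : Cond A := ⟨g', hst, s.c.N, q0.U ∪ Finset.range s.c.N⟩
  have hc1 : Ext c1 s.c := by
    refine ⟨⟨hst, fun a _ y hy => ?_, fun a ha y => ?_⟩, le_rfl, ?_⟩
    · have : ¬ (s.c.N ≤ y) := not_le.2 hy
      simp [c1, g', this]
    · rw [h2] at ha
      simp [c1, g', ha]
    · rw [h2]
      exact Finset.subset_union_left
  obtain ⟨r, hr, hrU, x, hx, hQ⟩ := hext c1 s.F (hc1.trans h1) (hmono _ _ _ h3 hc1)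
    (max s.n (s.F.sup id + 1))
  obtain ⟨M', hM'⟩ := hloc r _ (hr.trans (hc1.trans h1)) hQ
  have hrs : Ext r s.c := hr.trans hc1
  let t : RS A := ⟨⟨r.g, r.st, max M' (max r.N (s.c.N + 1)), q0.U⟩, insert x s.F,
    fun a => if a < s.c.N then s.blk a else s.n, Function.update s.xs s.n x, s.n + 1⟩
  have ht : Ext t.c s.c := by
    refine ⟨hrs.1, ?_, ?_⟩
    · exact (Nat.le_succ _).trans ((le_max_right r.N _).trans (le_max_right M' _))
    · rw [h2]
  have hxs : t.xs s.n = x := by simp [t]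
  refine ⟨t, ⟨ht.trans h1, rfl, hM' _ (le_max_left _ _), fun a => ?_⟩, ht, ?_, ?_, fun a => rfl,
    rfl, ?_, ?_, ?_, ?_⟩
  · simp only [t]
    split
    · exact (h4 a).trans (Nat.le_succ _)
    · exact Nat.le_succ _
  · exact (Nat.lt_succ_self _).trans_le ((le_max_right r.N _).trans (le_max_right M' _))
  · intro a ha haU y hy _
    have h5 : a ∈ c1.U := Finset.mem_union_right _ (Finset.mem_range.2 ha)
    have h6 := hr.1.2.2 a h5 y
    have h7 : c1.g a y = w (s.blk a) := by simp [c1, g', ha, haU, hy]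
    exact h6.trans h7
  · intro z hz
    rw [hxs]
    have h5 : z ≤ s.F.sup id := Finset.le_sup (f := id) hz
    have h6 := (le_max_right s.n (s.F.sup id + 1)).trans hx
    omega
  · rw [hxs]
    exact (le_max_left _ _).trans hx
  · rw [hxs]
  · intro l hl
    simp [t, hl]

/-- a robust construction of sets whose pair sums avoid the colour `i` contradicts reducibility -/
theorem squash [Fintype A] [Fintype B] [DecidableEq B] (hAB : Fintype.card B ≤ Fintype.card A)
    (Φ : (ℕ → ℕ → A) → ℕ → B) (Ψ : (ℕ → ℕ → A) → (ℕ → Bool) → ℕ → Bool)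
    (hΦ : ∀ f, Stable f → ∀ K, ∃ M, ∀ f', Stable f' → Agree M f f' → ∀ n < K, Φ f' n = Φ f n)
    (hΨ : ∀ f X, Stable f → HTS (Φ f) X → ∀ K, ∃ M, ∀ f' X', Stable f' → HTS (Φ f') X' →
      Agree M f f' → (∀ n < M, X' n = X n) → ∀ n < K, Ψ f' X' n = Ψ f X n)
    (hsol : ∀ f X, Stable f → HTS (Φ f) X → Sol2 f (Ψ f X))
    (i : B) (q0 : Cond A) (Q : Cond A → Finset ℕ → Prop)
    (hmono : ∀ q r F, Q q F → Ext r q → Q r F)
    (hext : ∀ q F, Ext q q0 → Q q F → ∀ m, ∃ r, Ext r q ∧ r.U = q.U ∧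
      ∃ x, m ≤ x ∧ Q r (insert x F))
    (hloc : ∀ q F, Ext q q0 → Q q F → ∃ M', ∀ M'', M' ≤ M'' → Q ⟨q.g, q.st, M'', q0.U⟩ F)
    (hcol : ∀ q F, Q q F → ∀ f, q.In f → ∀ x ∈ F, ∀ y ∈ F, x < y → Φ f (x + y) ≠ i)
    (h0 : Q q0 ∅) : False := by
  classical
  have hB : 0 < Fintype.card B := Fintype.card_pos_iff.2 ⟨i⟩
  obtain ⟨a0⟩ : Nonempty A := Fintype.card_pos_iff.1 (hB.trans_le hAB)
  have step : ∀ (s : {s : RS A // RInv Q q0 s}) (w : ℕ → A),
      ∃ t : {s : RS A // RInv Q q0 s}, StepP q0.U s.1 w t.1 := by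
    intro s w
    obtain ⟨t, ht, h⟩ := step_exists hmono hext hloc s.1 s.2 w
    exact ⟨⟨t, ht⟩, h⟩
  choose nxt hnxt using step
  let wf : (ℕ → ℕ → A) → ℕ → ℕ → A := fun h n m => if m ≤ n then h m n else a0
  let init : {s : RS A // RInv Q q0 s} :=
    ⟨⟨q0, ∅, fun _ => 0, fun _ => 0, 0⟩, Ext.refl q0, rfl, h0, fun _ => le_rfl⟩
  let rs : (ℕ → ℕ → A) → ℕ → {s : RS A // RInv Q q0 s} := fun h n =>
    Nat.rec init (fun n s => nxt s (wf h n)) n
  have rs0 : ∀ h, rs h 0 = init := fun h => rfl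
  have rss : ∀ h n, rs h (n + 1) = nxt (rs h n) (wf h n) := fun h n => rfl
  have hstep : ∀ h n, StepP q0.U (rs h n).1 (wf h n) (rs h (n + 1)).1 := by
    intro h n
    rw [rss]
    exact hnxt _ _
  have hn : ∀ h n, (rs h n).1.n = n := by
    intro h n
    induction n with
    | zero => rfl
    | succ n ih => rw [(hstep h n).2.2.2.2.1, ih]
  have hNlt : ∀ h n, (rs h n).1.c.N < (rs h (n + 1)).1.c.N := fun h n => (hstep h n).2.1
  have hNmono : ∀ h, StrictMono fun n => (rs h n).1.c.N := fun h => strictMono_nat_of_lt_succ (hNlt h)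
  have hNge : ∀ h n, n ≤ (rs h n).1.c.N := fun h n => (hNmono h).le_apply
  have hle : ∀ h m n, m ≤ n → Ext (rs h n).1.c (rs h m).1.c := by
    intro h m n hmn
    induction n, hmn using Nat.le_induction with
    | base => exact Ext.refl _
    | succ n _ ih => exact (hstep h n).1.trans ih
  let Fc : (ℕ → ℕ → A) → ℕ → ℕ → A := fun h a y => (rs h (max a y + 1)).1.c.g a y
  have Fc_eq : ∀ h n a y, a < (rs h n).1.c.N → y < (rs h n).1.c.N →
      Fc h a y = (rs h n).1.c.g a y := by
    intro h n a y ha hy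
    have hax : a < (rs h (max a y + 1)).1.c.N :=
      (Nat.lt_succ_of_le (le_max_left a y)).trans_le (hNge h _)
    have hyx : y < (rs h (max a y + 1)).1.c.N :=
      (Nat.lt_succ_of_le (le_max_right a y)).trans_le (hNge h _)
    rcases le_total n (max a y + 1) with h1 | h1
    · exact (hle h _ _ h1).1.2.1 a ha y hy
    · exact ((hle h _ _ h1).1.2.1 a hax y hyx).symm
  have blk_succ : ∀ h n a, a < (rs h n).1.c.N → (rs h (n + 1)).1.blk a = (rs h n).1.blk a := by
    intro h n a ha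
    rw [(hstep h n).2.2.2.1 a, if_pos ha]
  have blk_mono : ∀ h m n a, m ≤ n → a < (rs h m).1.c.N →
      (rs h n).1.blk a = (rs h m).1.blk a := by
    intro h m n a hmn ha
    induction n, hmn using Nat.le_induction with
    | base => rfl
    | succ n hmn ih =>
      rw [blk_succ h n a (ha.trans_le ((hNmono h).monotone hmn)), ih]
  let bk : (ℕ → ℕ → A) → ℕ → ℕ := fun h a => (rs h (a + 1)).1.blk a
  have bk_eq : ∀ h n a, a < (rs h n).1.c.N → (rs h n).1.blk a = bk h a := by
    intro h n a ha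
    have hax : a < (rs h (a + 1)).1.c.N := (Nat.lt_succ_self a).trans_le (hNge h _)
    rcases le_total n (a + 1) with h1 | h1
    · exact (blk_mono h _ _ a h1 ha).symm
    · exact blk_mono h _ _ a h1 hax
  have bk_of : ∀ h n a, (rs h n).1.c.N ≤ a → a < (rs h (n + 1)).1.c.N → bk h a = n := by
    intro h n a h1 h2
    rw [← bk_eq h (n + 1) a h2, (hstep h n).2.2.2.1 a, if_neg (not_lt.2 h1), hn]
  have bk_zero : ∀ h a, a < (rs h 0).1.c.N → bk h a = 0 := by
    intro h a ha
    rw [← bk_eq h 0 a ha]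
    rfl
  have locate : ∀ h a, a < (rs h 0).1.c.N ∨
      ∃ n, (rs h n).1.c.N ≤ a ∧ a < (rs h (n + 1)).1.c.N := by
    intro h a
    have hex : ∃ n, a < (rs h n).1.c.N := ⟨a + 1, (Nat.lt_succ_self a).trans_le (hNge h _)⟩
    rcases Nat.eq_zero_or_pos (Nat.find hex) with h1 | h1
    · left
      have h2 := Nat.find_spec hex
      rw [h1] at h2
      exact h2
    · right
      refine ⟨Nat.find hex - 1, not_lt.1 (Nat.find_min hex (by omega)), ?_⟩
      have h2 := Nat.find_spec hex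
      rwa [Nat.sub_add_cancel h1]
  have bk_lt : ∀ h a n, bk h a < n → a < (rs h n).1.c.N := by
    intro h a n hlt
    rcases locate h a with h1 | ⟨m, h1, h2⟩
    · exact h1.trans_le ((hNmono h).monotone (Nat.zero_le n))
    · rw [bk_of h m a h1 h2] at hlt
      exact h2.trans_le ((hNmono h).monotone hlt)
  have val : ∀ h n a y, a ∉ q0.U → a < (rs h n).1.c.N → (rs h n).1.c.N ≤ y →
      y < (rs h (n + 1)).1.c.N → Fc h a y = h (bk h a) n := by
    intro h n a y haU ha hy hy'
    rw [Fc_eq h (n + 1) a y (ha.trans (hNlt h n)) hy', (hstep h n).2.2.1 a ha haU y hy hy',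
      bk_eq h n a ha]
    have h1 : bk h a ≤ n := by
      rw [← bk_eq h n a ha]
      exact ((rs h n).2.2.2.2 a).trans (hn h n).le
    simp [wf, h1]
  have val2 : ∀ h a b, a ∉ q0.U → bk h a < bk h b → Fc h a b = h (bk h a) (bk h b) := by
    intro h a b haU hlt
    rcases locate h b with h1 | ⟨n, h1, h2⟩
    · rw [bk_zero h b h1] at hlt
      exact absurd hlt (Nat.not_lt_zero _)
    · have h3 := bk_of h n b h1 h2
      rw [h3] at hlt ⊢
      exact val h n a b haU (bk_lt h a n hlt) h1 h2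
  have hstab : ∀ h, Stable h → Stable (Fc h) := by
    intro h hh a
    by_cases haU : a ∈ q0.U
    · obtain ⟨v, hv⟩ := q0.st a
      refine ⟨v, hv.mono fun y hy => ?_⟩
      rw [← hy]
      exact (rs h (max a y + 1)).2.1.1.2.2 a haU y
    · obtain ⟨v, hv⟩ := hh (bk h a)
      obtain ⟨n1, hn1⟩ := eventually_atTop.1 hv
      refine ⟨v, (eventually_ge_atTop (rs h (max n1 (a + 1))).1.c.N).mono fun y hy => ?_⟩
      have hm : max n1 (a + 1) ≤ (rs h (max n1 (a + 1))).1.c.N := hNge h _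
      rcases locate h y with h1 | ⟨n, h1, h2⟩
      · have := (hNmono h).monotone (Nat.zero_le (max n1 (a + 1)))
        omega
      · have h3 : max n1 (a + 1) ≤ n := by
          by_contra hcon
          have h4 : n + 1 ≤ max n1 (a + 1) := by omega
          have h5 := (hNmono h).monotone h4
          omega
        have h6 : a < (rs h n).1.c.N :=
          (Nat.lt_of_succ_le ((le_max_right n1 (a + 1)).trans h3)).trans_le (hNge h n)
        rw [val h n a y haU h6 h1 h2]
        exact hn1 n ((le_max_left _ _).trans h3)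
  have hIn : ∀ h, Stable h → ∀ n, (rs h n).1.c.In (Fc h) := by
    intro h hh n
    refine ⟨hstab h hh, fun a ha y hy => Fc_eq h n a y ha hy, fun a ha y => ?_⟩
    have hU : a ∈ q0.U := (rs h n).2.2.1 ▸ ha
    have h1 := (rs h (max a y + 1)).2.1.1.2.2 a hU y
    have h2 := (rs h n).2.1.1.2.2 a hU y
    exact h1.trans h2.symm
  let xs : (ℕ → ℕ → A) → ℕ → ℕ := fun h l => (rs h (l + 1)).1.xs l
  have xs_mono : ∀ h l n, l < n → (rs h n).1.xs l = xs h l := by
    intro h l n hln
    induction n, hln using Nat.le_induction with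
    | base => rfl
    | succ n hmn ih =>
      rw [(hstep h n).2.2.2.2.2.2.2.2 l (by rw [hn]; omega), ih]
  have hF : ∀ h n x, x ∈ (rs h n).1.F ↔ ∃ l < n, xs h l = x := by
    intro h n x
    induction n with
    | zero =>
      constructor
      · intro hx
        exact absurd hx (Finset.notMem_empty x)
      · rintro ⟨l, hl, _⟩
        exact absurd hl (Nat.not_lt_zero l)
    | succ n ih =>
      have h1 := (hstep h n).2.2.2.2.2.2.2.1
      have h2 : (rs h (n + 1)).1.xs (rs h n).1.n = xs h n := by rw [hn]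
      rw [h2] at h1
      rw [h1, Finset.mem_insert, ih]
      constructor
      · rintro (h3 | ⟨l, hl, h3⟩)
        · exact ⟨n, Nat.lt_succ_self n, h3.symm⟩
        · exact ⟨l, hl.trans (Nat.lt_succ_self n), h3⟩
      · rintro ⟨l, hl, h3⟩
        rcases Nat.lt_succ_iff_lt_or_eq.1 hl with h4 | h4
        · exact Or.inr ⟨l, h4, h3⟩
        · left
          rw [← h3, h4]
  have xs_lt : ∀ h l n, l < n → xs h l < xs h n := by
    intro h l n hln
    have h1 := (hstep h n).2.2.2.2.2.1 (xs h l) ((hF h n _).2 ⟨l, hln, rfl⟩)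
    rwa [hn] at h1
  have xs_smono : ∀ h, StrictMono (xs h) := fun h l n hln => xs_lt h l n hln
  have xs_ge : ∀ h l, l ≤ xs h l := fun h l => (xs_smono h).le_apply
  have dep : ∀ h h' n, Agree n h h' → rs h n = rs h' n := by
    intro h h' n
    induction n with
    | zero => intro _; rfl
    | succ n ih =>
      intro hag
      rw [rss, rss, ih (hag.mono (Nat.le_succ n))]
      congr 1
      funext m
      simp only [wf]
      split
      · rename_i hm
        exact hag m (Nat.lt_succ_of_le hm) n (Nat.lt_succ_self n)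
      · rfl
  have depF : ∀ h h' n, Agree n h h' → Agree (rs h n).1.c.N (Fc h) (Fc h') := by
    intro h h' n hag a ha y hy
    rw [Fc_eq h n a y ha hy]
    rw [dep h h' n hag] at ha hy ⊢
    rw [Fc_eq h' n a y ha hy]
  have depx : ∀ h h' n, Agree n h h' → ∀ l < n, xs h l = xs h' l := by
    intro h h' n hag l hl
    simp only [xs]
    rw [dep h h' (l + 1) (hag.mono hl)]
  let XL : (ℕ → ℕ → A) → (ℕ → Bool) → ℕ → Bool := fun h L x =>
    decide (∃ l, L l = true ∧ xs h l = x)
  have XL_iff : ∀ h L x, XL h L x = true ↔ ∃ l, L l = true ∧ xs h l = x := by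
    intro h L x
    simp [XL]
  have XLsol : ∀ h L, Sol2 (fun l n => Φ (Fc h) (xs h l + xs h n)) L →
      HTS (Φ (Fc h)) (XL h L) := by
    rintro h L ⟨hinf, v, hv⟩
    refine ⟨?_, v, ?_⟩
    · rw [Set.infinite_iff_exists_gt]
      intro K
      obtain ⟨l, hl, hl2⟩ := (Set.infinite_iff_exists_gt.1 hinf) K
      exact ⟨xs h l, (XL_iff h L _).2 ⟨l, hl, rfl⟩, hl2.trans_le (xs_ge h l)⟩
    · intro x y hxy hx hy
      obtain ⟨l, hl, rfl⟩ := (XL_iff h L x).1 hx
      obtain ⟨n, hn', rfl⟩ := (XL_iff h L y).1 hy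
      exact hv l n ((xs_smono h).lt_iff_lt.1 hxy) hl hn'
  refine no_rt hAB (fun h l n => Φ (Fc h) (xs h l + xs h n))
    (fun h L m => decide (∃ a, a ∉ q0.U ∧ bk h a = m ∧ Ψ (Fc h) (XL h L) a = true)) i
    ?_ ?_ ?_ ?_
  · intro h hh K
    obtain ⟨M, hM⟩ := hΦ (Fc h) (hstab h hh) (xs h K + xs h K + 1)
    refine ⟨max K M, fun h' hh' hag x hx y hy => ?_⟩
    have h1 : Agree M (Fc h) (Fc h') :=
      (depF h h' _ hag).mono ((le_max_right K M).trans (hNge h _))
    have hx1 := depx h h' _ hag x (hx.trans_le (le_max_left _ _))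
    have hy1 := depx h h' _ hag y (hy.trans_le (le_max_left _ _))
    have hx2 := xs_lt h x K hx
    have hy2 := xs_lt h y K hy
    rw [← hx1, ← hy1]
    exact hM (Fc h') (hstab h' hh') h1 (xs h x + xs h y) (by omega)
  · intro h hh x y hxy
    exact hcol (rs h (y + 1)).1.c (rs h (y + 1)).1.F (rs h (y + 1)).2.2.2.1 (Fc h)
      (hIn h hh (y + 1)) (xs h x) ((hF h (y + 1) _).2 ⟨x, by omega, rfl⟩) (xs h y)
      ((hF h (y + 1) _).2 ⟨y, by omega, rfl⟩) (xs_lt h x y hxy)
  · intro h L hh hL K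
    obtain ⟨M1, hM1⟩ := hΨ (Fc h) (XL h L) (hstab h hh) (XLsol h L hL) (rs h K).1.c.N
    refine ⟨max K M1, fun h' L' hh' hL' hag hLL m hm => ?_⟩
    have h1 : Agree M1 (Fc h) (Fc h') :=
      (depF h h' _ hag).mono ((le_max_right K M1).trans (hNge h _))
    have h2 : ∀ x < M1, XL h' L' x = XL h L x := by
      intro x hx
      rw [Bool.eq_iff_iff, XL_iff, XL_iff]
      constructor
      · rintro ⟨l, hl, hlx⟩
        have h3 : l < max K M1 := by
          have := xs_ge h' l
          have := le_max_right K M1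
          omega
        exact ⟨l, (hLL l h3) ▸ hl, (depx h h' _ hag l h3).trans hlx⟩
      · rintro ⟨l, hl, hlx⟩
        have h3 : l < max K M1 := by
          have := xs_ge h l
          have := le_max_right K M1
          omega
        exact ⟨l, (hLL l h3).trans hl, (depx h h' _ hag l h3).symm.trans hlx⟩
    have h3 := hM1 (Fc h') (XL h' L') (hstab h' hh') (XLsol h' L' hL') h1 h2
    have h4 : rs h K = rs h' K := dep h h' K (hag.mono (le_max_left _ _))
    rw [decide_eq_decide]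
    constructor
    · rintro ⟨a, haU, ha, ha2⟩
      have h5 : a < (rs h' K).1.c.N := bk_lt h' a K (ha.trans_lt hm)
      have h5' : a < (rs h K).1.c.N := by rw [h4]; exact h5
      refine ⟨a, haU, ?_, ?_⟩
      · rw [← bk_eq h K a h5', h4, bk_eq h' K a h5, ha]
      · rw [← h3 a h5', ha2]
    · rintro ⟨a, haU, ha, ha2⟩
      have h5 : a < (rs h K).1.c.N := bk_lt h a K (ha.trans_lt hm)
      have h5' : a < (rs h' K).1.c.N := by rw [← h4]; exact h5
      refine ⟨a, haU, ?_, ?_⟩
      · rw [← bk_eq h' K a h5', ← h4, bk_eq h K a h5, ha]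
      · rw [h3 a h5, ha2]
  · intro h L hh hL
    obtain ⟨hinf, v, hv⟩ := hsol (Fc h) (XL h L) (hstab h hh) (XLsol h L hL)
    refine ⟨?_, v, ?_⟩
    · rw [Set.infinite_iff_exists_gt]
      intro K
      obtain ⟨a, ha, ha2⟩ := ((hinf.sdiff q0.U.finite_toSet).sdiff
        (Finset.finite_toSet (Finset.range (rs h (K + 1)).1.c.N))).nonempty
      simp only [Set.mem_sdiff, Finset.mem_coe, Finset.mem_range, not_lt, Set.mem_ofPred_eq] at ha ha2
      refine ⟨bk h a, ?_, ?_⟩
      · simp only [Set.mem_ofPred_eq, decide_eq_true_eq]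
        exact ⟨a, ha.2, rfl, ha.1⟩
      · by_contra hcon
        have := bk_lt h a (K + 1) (by omega)
        omega
    · intro x y hxy hx hy
      simp only [decide_eq_true_eq] at hx hy
      obtain ⟨a, haU, rfl, ha⟩ := hx
      obtain ⟨b, hbU, rfl, hb⟩ := hy
      rw [← val2 h a b haU hxy]
      refine hv a b ?_ ha hb
      by_contra hcon
      have h1 : b ≤ a := not_lt.1 hcon
      have h2 : a < (rs h (bk h b)).1.c.N := bk_lt h a _ hxy
      have h3 : (rs h (bk h b)).1.blk b = bk h b := bk_eq h _ b (h1.trans_lt h2)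
      rcases locate h b with h4 | ⟨n, h4, h5⟩
      · rw [bk_zero h b h4] at hxy
        exact absurd hxy (Nat.not_lt_zero _)
      · have h6 := bk_of h n b h4 h5
        rw [h6] at h2
        omega

end Run7.h628.Weih
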