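import Mathlib
import Pool.Agent.Run7.h628.Weih2

/-!
# Stable Ramsey for pairs does not reduce continuously to Hindman for sums of exactly two elements
-/

set_option autoImplicit false

namespace Run7.h628.Weih

open Filter

variable {A B : Type}

/-- infinite Ramsey theorem for pairs -/
theorem ramsey {S0 : Set ℕ} (hS0 : S0.Infinite) (G : ℕ) (c : ℕ → ℕ → ℕ)
    (hc : ∀ x y, c x y ≤ G) :
    ∃ S : Set ℕ, S.Infinite ∧ S ⊆ S0 ∧ ∃ o ≤ G, ∀ x ∈ S, ∀ y ∈ S, x < y → c x y = o := by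
  classical
  let e : ℕ → ℕ := Nat.nth (· ∈ S0)
  have he1 : StrictMono e := Nat.nth_strictMono hS0
  have he2 : ∀ n, e n ∈ S0 := fun n => Nat.nth_mem_of_infinite hS0 n
  have key : ∀ x, ∃ o, o ∈ Set.Iic G ∧ ∀ᶠ n in hyperfilter ℕ, c x (e n) = o := by
    intro x
    exact (Ultrafilter.eventually_exists_mem_iff (Set.finite_Iic G)).1
      (Eventually.of_forall fun n => ⟨c x (e n), hc x (e n), rfl⟩)
  choose γ hγ1 hγ2 using key
  obtain ⟨o, ho, hoe⟩ : ∃ o, o ∈ Set.Iic G ∧ ∀ᶠ n in hyperfilter ℕ, γ (e n) = o :=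
    (Ultrafilter.eventually_exists_mem_iff (Set.finite_Iic G)).1
      (Eventually.of_forall fun n => ⟨γ (e n), hγ1 (e n), rfl⟩)
  obtain ⟨x, hx1, hx2⟩ := exists_seq_of_forall_finset_exists
    (fun x => x ∈ S0 ∧ γ x = o) (fun x y => x < y ∧ c x y = o) (by
      intro s hs
      have h1 : ∀ᶠ n in hyperfilter ℕ, ∀ x ∈ s, c x (e n) = o := by
        rw [Filter.eventually_all_finset]
        intro x hx
        have := hγ2 x
        rw [(hs x hx).2] at this
        exact this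
      have h2 : ∀ᶠ n in hyperfilter ℕ, s.sup id < e n :=
        Nat.hyperfilter_le_atTop ((eventually_gt_atTop (s.sup id)).mono fun n hn =>
          hn.trans_le he1.le_apply)
      obtain ⟨n, h3, h4, h5⟩ := (h1.and (h2.and hoe)).exists
      refine ⟨e n, ⟨he2 n, h5⟩, fun x hx => ⟨?_, h3 x hx⟩⟩
      exact (Finset.le_sup (f := id) hx).trans_lt h4)
  have hxm : StrictMono x := fun m n hmn => (hx2 m n hmn).1
  refine ⟨Set.range x, Set.infinite_range_of_injective hxm.injective, ?_, o, ho, ?_⟩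
  · rintro _ ⟨n, rfl⟩
    exact (hx1 n).1
  · rintro _ ⟨m, rfl⟩ _ ⟨n, rfl⟩ hmn
    exact (hx2 m n (hxm.lt_iff_lt.1 hmn)).2

/-- the hypotheses on a continuous reduction -/
structure Red (Φ : (ℕ → ℕ → A) → ℕ → B) (Ψ : (ℕ → ℕ → A) → (ℕ → Bool) → ℕ → Bool) : Prop where
  hΦ : ∀ f, Stable f → ∀ K, ∃ M, ∀ f', Stable f' → Agree M f f' → ∀ n < K, Φ f' n = Φ f n
  hΨ : ∀ f X, Stable f → HTS (Φ f) X → ∀ K, ∃ M, ∀ f' X', Stable f' → HTS (Φ f') X' →
      Agree M f f' → (∀ n < M, X' n = X n) → ∀ n < K, Ψ f' X' n = Ψ f X n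
  hsol : ∀ f X, Stable f → HTS (Φ f) X → Sol2 f (Ψ f X)

/-- the pattern `D` occurs at `τ` in colour `i` -/
def occ (Φ : (ℕ → ℕ → A) → ℕ → B) (i : B) (f : ℕ → ℕ → A) (D : Finset ℕ) (τ : ℕ) : Prop :=
  ∀ d ∈ D, Φ f (2 * (τ + d)) = i

/-- the pattern `D` is persistently possible -/
def PP (Φ : (ℕ → ℕ → A) → ℕ → B) (i : B) (q : Cond A) (D : Finset ℕ) : Prop :=
  ∀ q', Ext q' q → ∀ m, ∃ f, q'.In f ∧ ∃ τ, m ≤ τ ∧ occ Φ i f D τ

theorem PP.mono {Φ : (ℕ → ℕ → A) → ℕ → B} {i : B} {q r : Cond A} {D : Finset ℕ}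
    (h : PP Φ i q D) (hr : Ext r q) : PP Φ i r D := fun q' hq' => h q' (hq'.trans hr)

section

variable [Fintype A] [Fintype B] [DecidableEq B]
variable {Φ : (ℕ → ℕ → A) → ℕ → B} {Ψ : (ℕ → ℕ → A) → (ℕ → Bool) → ℕ → Bool}

/-- below some condition the colour `i` is syndetic -/
theorem syndetic (hAB : Fintype.card B ≤ Fintype.card A) (R : Red Φ Ψ) (i : B) (q0 : Cond A) :
    ∃ p, Ext p q0 ∧ ∃ G N0, ∀ f, p.In f → ∀ w, N0 ≤ w → ∃ t ≤ G, Φ f (2 * (w + t)) = i := by
  classical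
  by_contra hcon
  push Not at hcon
  refine squash hAB Φ Ψ R.hΦ R.hΨ R.hsol i q0
    (fun r F => Ext r q0 ∧ (∀ x ∈ F, Even x) ∧ ∀ f, r.In f → ∀ x ∈ F, ∀ y ∈ F, x < y →
      Φ f (x + y) ≠ i) ?_ ?_ ?_ ?_ ?_
  · rintro q r F ⟨h1, h2, h3⟩ hr
    exact ⟨hr.trans h1, h2, fun f hf => h3 f (hr.in_of hf)⟩
  · rintro q F _ ⟨h1, h2, h3⟩ m
    obtain ⟨f, hf, w, hw, hwG⟩ := hcon q h1 (F.sup id + 1) (max m (F.sup id + 1))
    obtain ⟨M, hM⟩ := R.hΦ f hf.1 (2 * w + 2 * w + 1)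
    have hr : Ext ⟨f, hf.1, max M q.N, q.U⟩ q := ext_restart hf (le_max_right _ _)
    refine ⟨_, hr, rfl, 2 * w, (le_max_left m _).trans (hw.trans (by omega)), hr.trans h1, ?_, ?_⟩
    · intro x hx
      rcases Finset.mem_insert.1 hx with h | h
      · rw [h]
        exact even_two_mul w
      · exact h2 x h
    · intro f' hf' x hx y hy hxy
      have hwF : F.sup id + 1 ≤ w := (le_max_right m _).trans hw
      rcases Finset.mem_insert.1 hy with h | h
      · rcases Finset.mem_insert.1 hx with h' | h'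
        · omega
        · have h4 : x ≤ F.sup id := Finset.le_sup (f := id) h'
          obtain ⟨z, hz⟩ := h2 x h'
          have h5 := hwG z (by omega)
          have h6 : x + y = 2 * (w + z) := by omega
          rw [h6]
          rw [hM f' hf'.1 (hf'.2.1.mono (le_max_left _ _)).symm (2 * (w + z)) (by omega)]
          exact h5
      · rcases Finset.mem_insert.1 hx with h' | h'
        · have h4 : y ≤ F.sup id := Finset.le_sup (f := id) h
          omega
        · exact h3 f' (hr.in_of hf') x h' y h hxy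
  · rintro q F hq ⟨h1, h2, h3⟩
    obtain ⟨M, hM⟩ := R.hΦ q.g q.st (F.sup id + F.sup id + 1)
    refine ⟨max M q0.N, fun M'' hM'' => ⟨⟨h1.1, (le_max_right _ _).trans hM'', fun _ h => h⟩, h2,
      fun f hf x hx y hy hxy => ?_⟩⟩
    have h4 : x ≤ F.sup id := Finset.le_sup (f := id) hx
    have h5 : y ≤ F.sup id := Finset.le_sup (f := id) hy
    rw [hM f hf.1 (hf.2.1.mono ((le_max_left _ _).trans hM'')).symm (x + y) (by omega)]
    exact h3 q.g q.in_self x hx y hy hxy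
  · rintro q F ⟨h1, h2, h3⟩ f hf
    exact h3 f hf
  · exact ⟨Ext.refl q0, fun x hx => absurd hx (Finset.notMem_empty x),
      fun f _ x hx => absurd hx (Finset.notMem_empty x)⟩

/-- a persistently possible pattern can be extended -/
theorem pattern_ext (hAB : Fintype.card B ≤ Fintype.card A) (R : Red Φ Ψ) (i : B)
    {q : Cond A} {D : Finset ℕ} (hpp : PP Φ i q D) (o m0 : ℕ) :
    ∃ r, Ext r q ∧ ∃ s, m0 ≤ s ∧ (∀ f, r.In f → occ Φ i f D (o + s)) ∧ PP Φ i r (insert s D) := by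
  classical
  by_contra hcon
  push Not at hcon
  have fin : ∀ r, Ext r q → ∀ T : Finset ℕ,
      (∀ s ∈ T, m0 ≤ s ∧ ∀ f, r.In f → occ Φ i f D (o + s)) →
      ∃ r', Ext r' r ∧ ∃ M, ∀ f, r'.In f → ∀ τ, M ≤ τ → ∀ s ∈ T, ¬ occ Φ i f (insert s D) τ := by
    intro r hr T
    induction T using Finset.induction_on with
    | empty =>
      intro _
      exact ⟨r, Ext.refl r, 0, fun _ _ _ _ s hs => absurd hs (Finset.notMem_empty s)⟩
    | insert s T _ ih =>
      intro h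
      obtain ⟨r1, hr1, M1, hM1⟩ := ih fun t ht => h t (Finset.mem_insert_of_mem ht)
      obtain ⟨h1, h2⟩ := h s (Finset.mem_insert_self s T)
      have h3 := hcon r1 (hr1.trans hr) s h1 fun f hf => h2 f (hr1.in_of hf)
      unfold PP at h3
      push Not at h3
      obtain ⟨q', hq', m, hm⟩ := h3
      refine ⟨q', hq'.trans hr1, max M1 m, fun f hf τ hτ t ht => ?_⟩
      rcases Finset.mem_insert.1 ht with h4 | h4
      · rw [h4]
        exact hm f hf τ ((le_max_right _ _).trans hτ)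
      · exact hM1 f (hq'.in_of hf) τ ((le_max_left _ _).trans hτ) t h4
  refine squash hAB Φ Ψ R.hΦ R.hΨ R.hsol i q
    (fun r F => Ext r q ∧ ∃ T : Finset ℕ, F = T.image (fun s => o + 2 * s) ∧
      (∀ s ∈ T, m0 ≤ s ∧ ∀ f, r.In f → occ Φ i f D (o + s)) ∧
      ∀ f, r.In f → ∀ x ∈ F, ∀ y ∈ F, x < y → Φ f (x + y) ≠ i) ?_ ?_ ?_ ?_ ?_
  · rintro q1 r F ⟨h1, T, h2, h3, h4⟩ hr
    exact ⟨hr.trans h1, T, h2, fun s hs => ⟨(h3 s hs).1, fun f hf => (h3 s hs).2 f (hr.in_of hf)⟩,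
      fun f hf => h4 f (hr.in_of hf)⟩
  · rintro r F _ ⟨h1, T, h2, h3, h4⟩ m
    obtain ⟨r', hr', M, hM⟩ := fin r h1 T h3
    obtain ⟨f, hf, τ, hτ, hocc⟩ := hpp r' (hr'.trans h1) (max M (o + max m m0 + F.sup id + 1))
    have hτ2 : o + max m m0 + F.sup id + 1 ≤ τ := (le_max_right _ _).trans hτ
    have hno := hM f hf τ ((le_max_left _ _).trans hτ)
    have hfr : r.In f := hr'.in_of hf
    obtain ⟨M2, hM2⟩ := R.hΦ f hf.1 (2 * (τ + D.sup id + T.sup id) + 1)
    have hr2 : Ext ⟨f, hf.1, max M2 r.N, r.U⟩ r := ext_restart hfr (le_max_right _ _)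
    obtain ⟨s', hs'⟩ : ∃ s', τ = o + s' := ⟨τ - o, by omega⟩
    have hm1 := le_max_left m m0
    have hm2 := le_max_right m m0
    refine ⟨_, hr2, rfl, o + 2 * s', by omega, hr2.trans h1, insert s' T, ?_, ?_, ?_⟩
    · rw [h2, Finset.image_insert]
    · intro s hs
      rcases Finset.mem_insert.1 hs with h | h
      · refine ⟨by omega, fun f' hf' d hd => ?_⟩
        have h5 : d ≤ D.sup id := Finset.le_sup (f := id) hd
        rw [h, ← hs', hM2 f' hf'.1 (hf'.2.1.mono (le_max_left _ _)).symm _ (by omega)]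
        exact hocc d hd
      · exact ⟨(h3 s h).1, fun f' hf' => (h3 s h).2 f' (hr2.in_of hf')⟩
    · intro f' hf' x hx y hy hxy
      rcases Finset.mem_insert.1 hy with h | h
      · rcases Finset.mem_insert.1 hx with h' | h'
        · omega
        · rw [h2] at h'
          obtain ⟨s, hs, hsx⟩ := Finset.mem_image.1 h'
          have h5 : s ≤ T.sup id := Finset.le_sup (f := id) hs
          have h6 : x + y = 2 * (τ + s) := by omega
          rw [h6, hM2 f' hf'.1 (hf'.2.1.mono (le_max_left _ _)).symm _ (by omega)]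
          intro h7
          refine hno s hs fun d hd => ?_
          rcases Finset.mem_insert.1 hd with h8 | h8
          · rw [h8]
            exact h7
          · exact hocc d h8
      · rcases Finset.mem_insert.1 hx with h' | h'
        · have h5 : y ≤ F.sup id := Finset.le_sup (f := id) h
          omega
        · exact h4 f' (hr2.in_of hf') x h' y h hxy
  · rintro r F _ ⟨h1, T, h2, h3, h4⟩
    obtain ⟨M, hM⟩ := R.hΦ r.g r.st (2 * (o + T.sup id + D.sup id) + F.sup id + F.sup id + 1)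
    refine ⟨max M q.N, fun M'' hM'' => ⟨⟨h1.1, (le_max_right _ _).trans hM'', fun _ h => h⟩, T, h2,
      fun s hs => ⟨(h3 s hs).1, fun f hf d hd => ?_⟩, fun f hf x hx y hy hxy => ?_⟩⟩
    · have h5 : s ≤ T.sup id := Finset.le_sup (f := id) hs
      have h6 : d ≤ D.sup id := Finset.le_sup (f := id) hd
      rw [hM f hf.1 (hf.2.1.mono ((le_max_left _ _).trans hM'')).symm _ (by omega)]
      exact (h3 s hs).2 r.g r.in_self d hd
    · have h5 : x ≤ F.sup id := Finset.le_sup (f := id) hx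
      have h6 : y ≤ F.sup id := Finset.le_sup (f := id) hy
      rw [hM f hf.1 (hf.2.1.mono ((le_max_left _ _).trans hM'')).symm (x + y) (by omega)]
      exact h4 r.g r.in_self x hx y hy hxy
  · rintro r F ⟨h1, T, h2, h3, h4⟩ f hf
    exact h4 f hf
  · exact ⟨Ext.refl q, ∅, by simp, fun s hs => absurd hs (Finset.notMem_empty s),
      fun f _ x hx => absurd hx (Finset.notMem_empty x)⟩

/-- a persistently possible homogeneous pattern extends to an infinite solution -/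
theorem extend (hAB : Fintype.card B ≤ Fintype.card A) (R : Red Φ Ψ) (i : B)
    {q : Cond A} {D : Finset ℕ} (hpp : PP Φ i q D) (o m1 : ℕ)
    (hD : ∀ f, q.In f → ∀ x ∈ D, ∀ y ∈ D, x < y → Φ f (2 * (o + x + y)) = i) :
    ∃ f, q.In f ∧ ∃ X : ℕ → Bool, HTS (Φ f) X ∧
      ∀ x < m1, (X x = true ↔ ∃ d ∈ D, x = o + 2 * d) := by
  classical
  have : Nonempty A := Fintype.card_pos_iff.1 ((Fintype.card_pos_iff.2 ⟨i⟩).trans_le hAB)
  obtain ⟨v⟩ := this
  let Inv : Cond A × Finset ℕ → Prop := fun p => Ext p.1 q ∧ PP Φ i p.1 p.2 ∧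
    (∀ f, p.1.In f → ∀ x ∈ p.2, ∀ y ∈ p.2, x < y → Φ f (2 * (o + x + y)) = i) ∧
    ∀ x ∈ p.2, x ∉ D → m1 ≤ x
  have step : ∀ (n : ℕ) (p : {p // Inv p}), ∃ p' : {p // Inv p}, Ext p'.1.1 p.1.1 ∧
      n ∈ p'.1.1.U ∧ p.1.2 ⊆ p'.1.2 ∧ ∃ s ∈ p'.1.2, n ≤ s := by
    rintro n ⟨⟨r, E⟩, h1, h2, h3, h4⟩
    obtain ⟨r1, hr1, hU1, _⟩ := lock_exists (Finset.univ : Finset A) (Finset.mem_univ v) r n
    obtain ⟨r2, hr2, s, hs, hs2, hs3⟩ := pattern_ext hAB R i (h2.mono hr1.1) o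
      (max (max n m1) (E.sup id + 1))
    have hns : n ≤ s := (le_max_left n m1).trans ((le_max_left _ _).trans hs)
    have hms : m1 ≤ s := (le_max_right n m1).trans ((le_max_left _ _).trans hs)
    have hEs : E.sup id + 1 ≤ s := (le_max_right _ _).trans hs
    have hr21 : Ext r2 r := hr2.trans hr1.1
    refine ⟨⟨(r2, insert s E), hr21.trans h1, hs3, ?_, ?_⟩, hr21, hr2.2.2 hU1,
      Finset.subset_insert _ _, s, Finset.mem_insert_self _ _, hns⟩
    · intro f hf x hx y hy hxy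
      simp only at hx hy hf
      rcases Finset.mem_insert.1 hy with h | h
      · rcases Finset.mem_insert.1 hx with h' | h'
        · omega
        · have h5 := hs2 f hf x h'
          rw [h, show o + x + s = o + s + x by omega]
          exact h5
      · rcases Finset.mem_insert.1 hx with h' | h'
        · have h5 : y ≤ E.sup id := Finset.le_sup (f := id) h
          omega
        · exact h3 f (hr21.in_of hf) x h' y h hxy
    · intro x hx hxD
      simp only at hx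
      rcases Finset.mem_insert.1 hx with h | h
      · rw [h]
        exact hms
      · exact h4 x h hxD
  choose nxt hnxt using step
  let init : {p // Inv p} := ⟨(q, D), Ext.refl q, hpp, hD, fun x hx h => absurd hx h⟩
  let sq : ℕ → {p // Inv p} := fun n => Nat.rec init (fun n p => nxt n p) n
  have sqs : ∀ n, sq (n + 1) = nxt n (sq n) := fun n => rfl
  have hle : ∀ n, Ext (sq (n + 1)).1.1 (sq n).1.1 := fun n => by rw [sqs]; exact (hnxt n (sq n)).1
  have hU : ∀ n, n ∈ (sq (n + 1)).1.1.U := fun n => by rw [sqs]; exact (hnxt n (sq n)).2.1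
  have hsub : ∀ n, (sq n).1.2 ⊆ (sq (n + 1)).1.2 := fun n => by
    rw [sqs]; exact (hnxt n (sq n)).2.2.1
  have hx : ∀ n, ∃ s ∈ (sq (n + 1)).1.2, n ≤ s := fun n => by
    rw [sqs]; exact (hnxt n (sq n)).2.2.2
  have hmono : Monotone fun n => (sq n).1.2 := monotone_nat_of_le_succ hsub
  let f : ℕ → ℕ → A := fun a y => (sq (a + 1)).1.1.g a y
  have hf : ∀ n, (sq n).1.1.In f := fun n => fusion (fun n => (sq n).1.1) hle hU n
  refine ⟨f, hf 0, fun x => decide (∃ n, ∃ d ∈ (sq n).1.2, x = o + 2 * d), ⟨?_, i, ?_⟩, ?_⟩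
  · rw [Set.infinite_iff_exists_gt]
    intro K
    obtain ⟨s, h1, h2⟩ := hx (K + 1)
    refine ⟨o + 2 * s, ?_, by omega⟩
    simp only [Set.mem_ofPred_eq, decide_eq_true_eq]
    exact ⟨K + 1 + 1, s, h1, rfl⟩
  · intro x y hxy hX hY
    simp only [decide_eq_true_eq] at hX hY
    obtain ⟨n1, d, h1, h2⟩ := hX
    obtain ⟨n2, e, h3, h4⟩ := hY
    have h5 := hmono (le_max_left n1 n2) h1
    have h6 := hmono (le_max_right n1 n2) h3
    have h7 := (sq (max n1 n2)).2.2.2.1 f (hf _) d h5 e h6 (by omega)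
    have h8 : x + y = 2 * (o + d + e) := by omega
    simp only [h8]
    exact h7
  · intro x hxm
    simp only [decide_eq_true_eq]
    constructor
    · rintro ⟨n, d, h1, h2⟩
      refine ⟨d, ?_, h2⟩
      by_contra hcon
      have := (sq n).2.2.2.2 d h1 hcon
      omega
    · rintro ⟨d, h1, h2⟩
      exact ⟨0, d, h1, h2⟩

/-- the pattern `D` is killed at `M` -/
def Kill (Φ : (ℕ → ℕ → A) → ℕ → B) (Ψ : (ℕ → ℕ → A) → (ℕ → Bool) → ℕ → Bool) (i : B)
    (p : Cond A) (lam : ℕ → A) (M o : ℕ) (D : Finset ℕ) : Prop :=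
  ∃ M1, ∃ a b, a < b ∧ b < M ∧ a ∉ p.U ∧ p.g a b = lam a ∧
    (∀ f, Stable f → Agree M p.g f → ∀ x ∈ D, ∀ y ∈ D, x < y → Φ f (2 * (o + x + y)) = i) ∧
    ∀ f X, Stable f → Agree M p.g f → HTS (Φ f) X →
      (∀ x < M1, (X x = true ↔ ∃ d ∈ D, x = o + 2 * d)) → Ψ f X a = true ∧ Ψ f X b = true

omit [Fintype A] [Fintype B] [DecidableEq B] in
theorem flip_exists (p : Cond A) (lam : ℕ → A) {flip : A → A} (M : ℕ) (hM : p.N ≤ M) :
    ∃ q : Cond A, Ext q p ∧ q.N = M ∧ Agree M p.g q.g ∧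
      ∀ a < M, a ∉ p.U → a ∈ q.U ∧ ∀ y, M ≤ y → q.g a y = flip (lam a) := by
  classical
  let g' : ℕ → ℕ → A := fun a y =>
    if a < M ∧ a ∉ p.U ∧ M ≤ y then flip (lam a) else p.g a y
  have hst : Stable g' := by
    intro a
    by_cases ha : a < M ∧ a ∉ p.U
    · refine ⟨flip (lam a), (eventually_ge_atTop M).mono fun y hy => ?_⟩
      simp [g', ha.1, ha.2, hy]
    · obtain ⟨v, hv⟩ := p.st a
      refine ⟨v, hv.mono fun y hy => ?_⟩
      have : ¬ (a < M ∧ a ∉ p.U ∧ M ≤ y) := fun h => ha ⟨h.1, h.2.1⟩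
      simp only [g', this, if_false]
      exact hy
  have hag : Agree M p.g g' := by
    intro a _ y hy
    have : ¬ (M ≤ y) := not_le.2 hy
    simp [g', this]
  refine ⟨⟨g', hst, M, p.U ∪ Finset.range M⟩, ⟨⟨hst, (hag.mono hM).symm, fun a ha y => ?_⟩, hM,
    Finset.subset_union_left⟩, rfl, hag, fun a ha haU => ⟨Finset.mem_union_right _
    (Finset.mem_range.2 ha), fun y hy => ?_⟩⟩
  · simp [g', ha]
  · simp [g', ha, haU, hy]

theorem not_PP_of_kill (hAB : Fintype.card B ≤ Fintype.card A) (R : Red Φ Ψ) (i : B)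
    (p : Cond A) (lam : ℕ → A) {flip : A → A} (hflip : ∀ v, flip v ≠ v) {M o : ℕ} {D : Finset ℕ}
    (hK : Kill Φ Ψ i p lam M o D) {qM : Cond A} (hN : qM.N = M) (hag : Agree M p.g qM.g)
    (hrow : ∀ a < M, a ∉ p.U → a ∈ qM.U ∧ ∀ y, M ≤ y → qM.g a y = flip (lam a))
    {q' : Cond A} (hq' : Ext q' qM) : ¬ PP Φ i q' D := by
  intro hpp
  obtain ⟨M1, a, b, hab, hbM, haU, hval, hforce, hΨ⟩ := hK
  have hagree : ∀ f, q'.In f → Agree M p.g f := by
    intro f hf
    have h1 := (hq'.in_of hf).2.1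
    rw [hN] at h1
    exact hag.trans h1.symm
  obtain ⟨f, hf, X, hX, hXM⟩ := extend hAB R i hpp o M1
    (fun f hf => hforce f hf.1 (hagree f hf))
  obtain ⟨ha, hb⟩ := hΨ f X hf.1 (hagree f hf) hX hXM
  have hH := R.hsol f X hf.1 hX
  obtain ⟨haq, hrow'⟩ := hrow a (hab.trans hbM) haU
  have hw : ∀ᶠ y in atTop, f a y = flip (lam a) := by
    refine (eventually_ge_atTop M).mono fun y hy => ?_
    rw [(hq'.in_of hf).2.2 a haq y]
    exact hrow' y hy
  have h1 := lim_of_sol hH hab ha hb ha hw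
  rw [← hagree f hf a (hab.trans hbM) b hbM, hval] at h1
  exact hflip _ h1

theorem avoid (hAB : Fintype.card B ≤ Fintype.card A) (R : Red Φ Ψ) (i : B)
    (p : Cond A) (lam : ℕ → A) {flip : A → A} (hflip : ∀ v, flip v ≠ v) (G N0 M : ℕ)
    (hM : p.N ≤ M) : ∃ f w, p.In f ∧ N0 ≤ w ∧ ∀ D : Finset ℕ, D ⊆ Finset.range M → ∀ o, o ≤ G →
      Kill Φ Ψ i p lam M o D → ∀ τ, w ≤ τ → ¬ occ Φ i f D τ := by
  classical
  obtain ⟨qM, hqp, hN, hag, hrow⟩ := flip_exists p lam (flip := flip) M hM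
  have fin : ∀ 𝒟 : Finset (Finset ℕ), (∀ D ∈ 𝒟, ∃ o, Kill Φ Ψ i p lam M o D) →
      ∃ r, Ext r qM ∧ ∃ m, ∀ f, r.In f → ∀ τ, m ≤ τ → ∀ D ∈ 𝒟, ¬ occ Φ i f D τ := by
    intro 𝒟
    induction 𝒟 using Finset.induction_on with
    | empty =>
      intro _
      exact ⟨qM, Ext.refl _, 0, fun _ _ _ _ s hs => absurd hs (Finset.notMem_empty s)⟩
    | insert D 𝒟 _ ih =>
      intro h
      obtain ⟨r, hr, m, hm⟩ := ih fun E hE => h E (Finset.mem_insert_of_mem hE)
      obtain ⟨o, ho⟩ := h D (Finset.mem_insert_self _ _)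
      have h1 := not_PP_of_kill hAB R i p lam hflip ho hN hag hrow hr
      unfold PP at h1
      push Not at h1
      obtain ⟨q', hq', m', hm'⟩ := h1
      refine ⟨q', hq'.trans hr, max m m', fun f hf τ hτ E hE => ?_⟩
      rcases Finset.mem_insert.1 hE with h2 | h2
      · rw [h2]
        exact hm' f hf τ ((le_max_right _ _).trans hτ)
      · exact hm f (hq'.in_of hf) τ ((le_max_left _ _).trans hτ) E h2
  obtain ⟨r, hr, m, hm⟩ := fin ((Finset.range M).powerset.filter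
    fun D => ∃ o, o ≤ G ∧ Kill Φ Ψ i p lam M o D) (fun D hD => by
      obtain ⟨o, _, ho⟩ := (Finset.mem_filter.1 hD).2
      exact ⟨o, ho⟩)
  refine ⟨r.g, max m N0, hqp.in_of (hr.in_of r.in_self), le_max_right _ _,
    fun D hD o ho hK τ hτ => ?_⟩
  exact hm r.g r.in_self τ ((le_max_left _ _).trans hτ) D
    (Finset.mem_filter.2 ⟨Finset.mem_powerset.2 hD, o, ho, hK⟩)

/-- no continuous reduction -/
theorem no_red [Nontrivial A] (hAB : Fintype.card B ≤ Fintype.card A) (i : B) : ¬ Red Φ Ψ := by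
  classical
  intro R
  obtain ⟨v0⟩ : Nonempty A := inferInstance
  let q0 : Cond A := ⟨fun _ _ => v0, fun _ => ⟨v0, Eventually.of_forall fun _ => rfl⟩, 0, ∅⟩
  obtain ⟨p, _, G, N0, hsyn⟩ := syndetic hAB R i q0
  choose lam hlam using p.st
  have hflipex : ∀ v : A, ∃ w, w ≠ v := fun v => exists_ne v
  choose flip hflip using hflipex
  have hav : ∀ M, ∃ f w, p.In f ∧ N0 ≤ w ∧ (p.N ≤ M → ∀ D : Finset ℕ, D ⊆ Finset.range M →
      ∀ o, o ≤ G → Kill Φ Ψ i p lam M o D → ∀ τ, w ≤ τ → ¬ occ Φ i f D τ) := by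
    intro M
    by_cases hM : p.N ≤ M
    · obtain ⟨f, w, h1, h2, h3⟩ := avoid hAB R i p lam hflip G N0 M hM
      exact ⟨f, w, h1, h2, fun _ => h3⟩
    · exact ⟨p.g, N0, p.in_self, le_rfl, fun h => absurd h hM⟩
  choose F W hF hW hFW using hav
  -- the limit pattern
  let P : ℕ → Prop := fun n => ∀ᶠ M in hyperfilter ℕ, Φ (F M) (2 * (W M + n)) = i
  have hP : ∀ n, ∃ t, t ∈ Set.Iic G ∧ P (n + t) := by
    intro n
    refine (Ultrafilter.eventually_exists_mem_iff (Set.finite_Iic G)).1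
      (Eventually.of_forall fun M => ?_)
    obtain ⟨t, ht, h1⟩ := hsyn (F M) (hF M) (W M + n) ((hW M).trans (Nat.le_add_right _ _))
    exact ⟨t, ht, by rw [← Nat.add_assoc]; exact h1⟩
  obtain ⟨o', ho', hinf⟩ : ∃ o', o' ∈ Set.Iic G ∧ {s | N0 ≤ s ∧ P (s + o')}.Infinite := by
    by_contra hcon
    push Not at hcon
    have h1 : (⋃ t ∈ Set.Iic G, {s | N0 ≤ s ∧ P (s + t)}).Finite :=
      (Set.finite_Iic G).biUnion fun t ht => hcon t ht
    refine (Set.Ici_infinite N0) (h1.subset fun s hs => ?_)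
    obtain ⟨t, ht, h2⟩ := hP s
    exact Set.mem_biUnion ht ⟨hs, h2⟩
  have hcol : ∀ x y, ∃ o, o ≤ G ∧ (N0 ≤ x → Φ p.g (2 * (x + y + o)) = i) := by
    intro x y
    by_cases hx : N0 ≤ x
    · obtain ⟨t, ht, h1⟩ := hsyn p.g p.in_self (x + y) (hx.trans (Nat.le_add_right _ _))
      exact ⟨t, ht, fun _ => h1⟩
    · exact ⟨0, Nat.zero_le _, fun h => absurd h hx⟩
  choose c hc1 hc2 using hcol
  obtain ⟨S, hSinf, hSsub, o, ho, hSc⟩ := ramsey hinf G c hc1
  let X : ℕ → Bool := fun x => decide (∃ s ∈ S, x = o + 2 * s)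
  have hXiff : ∀ x, X x = true ↔ ∃ s ∈ S, x = o + 2 * s := by
    intro x
    simp [X]
  have hX : HTS (Φ p.g) X := by
    refine ⟨?_, i, ?_⟩
    · rw [Set.infinite_iff_exists_gt]
      intro K
      obtain ⟨s, h1, h2⟩ := (Set.infinite_iff_exists_gt.1 hSinf) K
      exact ⟨o + 2 * s, (hXiff _).2 ⟨s, h1, rfl⟩, by omega⟩
    · intro x y hxy hx hy
      obtain ⟨s, hs, hs2⟩ := (hXiff x).1 hx
      obtain ⟨t, ht, ht2⟩ := (hXiff y).1 hy
      have h1 := hc2 s t (hSsub hs).1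
      rw [hSc s hs t ht (by omega)] at h1
      have h2 : x + y = 2 * (s + t + o) := by omega
      simp only [h2]
      exact h1
  have hH := R.hsol p.g X p.st hX
  obtain ⟨a, ha, haU⟩ := hH.1.exists_notMem_finset p.U
  obtain ⟨b, hb, hab⟩ := (Set.infinite_iff_exists_gt.1 hH.1) a
  have hval : lam a = p.g a b := lim_of_sol hH hab ha hb ha (hlam a)
  obtain ⟨M1, hM1⟩ := R.hΨ p.g X p.st hX (b + 1)
  let D : Finset ℕ := (Finset.range M1).filter fun s => s ∈ S ∧ o + 2 * s < M1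
  have hDS : ∀ d ∈ D, d ∈ S := fun d hd => (Finset.mem_filter.1 hd).2.1
  obtain ⟨M2, hM2⟩ := R.hΦ p.g p.st (2 * (o + M1 + M1) + 1)
  have hkill : ∀ M, M1 ≤ M → M2 ≤ M → b < M → Kill Φ Ψ i p lam M o D := by
    intro M h1 h2 h3
    refine ⟨M1, a, b, hab, h3, haU, hval.symm, ?_, ?_⟩
    · intro f hf hag x hx y hy hxy
      have h4 := Finset.mem_range.1 (Finset.mem_filter.1 hx).1
      have h5 := Finset.mem_range.1 (Finset.mem_filter.1 hy).1
      rw [hM2 f hf (hag.mono h2) _ (by omega)]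
      have h6 := hc2 x y (hSsub (hDS x hx)).1
      rw [hSc x (hDS x hx) y (hDS y hy) hxy] at h6
      rw [show o + x + y = x + y + o by omega]
      exact h6
    · intro f X' hf hag hX' hXM
      have h4 : ∀ x < M1, X' x = X x := by
        intro x hx
        rw [Bool.eq_iff_iff, hXM x hx, hXiff]
        constructor
        · rintro ⟨d, hd, h5⟩
          exact ⟨d, hDS d hd, h5⟩
        · rintro ⟨s, hs, h5⟩
          exact ⟨s, Finset.mem_filter.2 ⟨Finset.mem_range.2 (by omega), hs, by omega⟩, h5⟩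
      have h5 := hM1 f X' hf hX' (hag.mono h1) h4
      exact ⟨(h5 a (by omega)).trans ha, (h5 b (Nat.lt_succ_self b)).trans hb⟩
  have hocc : ∀ᶠ M in hyperfilter ℕ, ∀ d ∈ D, Φ (F M) (2 * (W M + (d + o'))) = i := by
    rw [Filter.eventually_all_finset]
    intro d hd
    exact (hSsub (hDS d hd)).2
  have hlarge : ∀ᶠ M in hyperfilter ℕ, max (max M1 M2) (max (b + 1) p.N) ≤ M :=
    Nat.hyperfilter_le_atTop (eventually_ge_atTop _)
  obtain ⟨M, h1, h2⟩ := (hocc.and hlarge).exists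
  have k1 : M1 ≤ M := (le_max_left M1 M2).trans ((le_max_left _ _).trans h2)
  have k2 : M2 ≤ M := (le_max_right M1 M2).trans ((le_max_left _ _).trans h2)
  have k3 : b < M := (le_max_left (b + 1) p.N).trans ((le_max_right _ _).trans h2)
  have k4 : p.N ≤ M := (le_max_right (b + 1) p.N).trans ((le_max_right _ _).trans h2)
  refine hFW M k4 D ?_ o ho (hkill M k1 k2 k3) (W M + o') (Nat.le_add_right _ _) ?_
  · intro d hd
    have := Finset.mem_range.1 (Finset.mem_filter.1 hd).1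
    exact Finset.mem_range.2 (this.trans_le k1)
  · intro d hd
    rw [show W M + o' + d = W M + (d + o') by omega]
    exact h1 d hd

end

end Run7.h628.Weih
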