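import Mathlib
import Pool.Agent.Run7.h628.Weih3

/-!
# From continuity to moduli
-/

set_option autoImplicit false

namespace Run7.h628.Weih

open Filter Topology

variable {A B : Type} [TopologicalSpace A] [DiscreteTopology A] [TopologicalSpace B]
  [DiscreteTopology B]

omit [DiscreteTopology A] in
theorem tendsto_of_agree {f : ℕ → ℕ → A} {F : ℕ → ℕ → ℕ → A} (h : ∀ M, Agree M f (F M)) :
    Tendsto F atTop (𝓝 f) := by
  refine tendsto_pi_nhds.2 fun a => tendsto_pi_nhds.2 fun y => ?_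
  refine tendsto_const_nhds.congr' ?_
  refine (eventually_gt_atTop (max a y)).mono fun M hM => ?_
  exact h M a ((le_max_left a y).trans_lt hM) y ((le_max_right a y).trans_lt hM)

theorem eventually_eq_below {c : ℕ → B} {C : ℕ → ℕ → B} (h : Tendsto C atTop (𝓝 c)) (K : ℕ) :
    ∀ᶠ M in atTop, ∀ n < K, C M n = c n := by
  have h1 : ∀ᶠ M in atTop, ∀ n ∈ Finset.range K, C M n = c n := by
    rw [Filter.eventually_all_finset]
    intro n _
    have h2 := tendsto_pi_nhds.1 h n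
    rw [nhds_discrete, tendsto_pure] at h2
    exact h2
  exact h1.mono fun M hM n hn => hM n (Finset.mem_range.2 hn)

omit [DiscreteTopology A] in
theorem modulus_fst {Φ : (ℕ → ℕ → A) → ℕ → B} (hΦ : ContinuousOn Φ {f | Stable f}) :
    ∀ f, Stable f → ∀ K, ∃ M, ∀ f', Stable f' → Agree M f f' → ∀ n < K, Φ f' n = Φ f n := by
  intro f hf K
  by_contra hcon
  push Not at hcon
  choose F hF1 hF2 hF3 using hcon
  have h1 : Tendsto F atTop (𝓝[{f | Stable f}] f) :=
    tendsto_nhdsWithin_iff.2 ⟨tendsto_of_agree hF2, Eventually.of_forall hF1⟩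
  have h2 : Tendsto (fun M => Φ (F M)) atTop (𝓝 (Φ f)) := (hΦ f hf).tendsto.comp h1
  obtain ⟨M, hM⟩ := (eventually_eq_below h2 K).exists
  obtain ⟨n, hn, hne⟩ := hF3 M
  exact hne (hM n hn)

omit [DiscreteTopology A] [TopologicalSpace B] [DiscreteTopology B] in
theorem modulus_snd {Φ : (ℕ → ℕ → A) → ℕ → B} {Ψ : (ℕ → ℕ → A) × (ℕ → Bool) → ℕ → Bool}
    (hΨ : ContinuousOn Ψ {p | Stable p.1 ∧ HTS (Φ p.1) p.2}) :
    ∀ f X, Stable f → HTS (Φ f) X → ∀ K, ∃ M, ∀ f' X', Stable f' → HTS (Φ f') X' →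
      Agree M f f' → (∀ n < M, X' n = X n) → ∀ n < K, Ψ (f', X') n = Ψ (f, X) n := by
  intro f X hf hX K
  by_contra hcon
  push Not at hcon
  choose F Y hF1 hF2 hF3 hF4 hF5 using hcon
  have hY : Tendsto Y atTop (𝓝 X) := by
    refine tendsto_pi_nhds.2 fun n => tendsto_const_nhds.congr' ?_
    exact (eventually_gt_atTop n).mono fun M hM => (hF4 M n hM).symm
  have h1 : Tendsto (fun M => (F M, Y M)) atTop
      (𝓝[{p | Stable p.1 ∧ HTS (Φ p.1) p.2}] (f, X)) :=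
    tendsto_nhdsWithin_iff.2 ⟨(tendsto_of_agree hF3).prodMk_nhds hY,
      Eventually.of_forall fun M => ⟨hF1 M, hF2 M⟩⟩
  have h2 : Tendsto (fun M => Ψ (F M, Y M)) atTop (𝓝 (Ψ (f, X))) :=
    (hΨ (f, X) ⟨hf, hX⟩).tendsto.comp h1
  obtain ⟨M, hM⟩ := (eventually_eq_below h2 K).exists
  obtain ⟨n, hn, hne⟩ := hF5 M
  exact hne (hM n hn)

end Run7.h628.Weih
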