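import Mathlib
import Pool.Agent.Run7.h628.Weih3

/-!
# Reductions to Hindman for sums of exactly `n` elements: the flip lemma and syndetic classes
-/

set_option autoImplicit false

namespace Run7.h628.Weih

open Filter

variable {A B : Type}

/-- `X` is a solution for sums of exactly `n` elements -/
def HTn (n : ℕ) (c : ℕ → B) (X : ℕ → Bool) : Prop :=
  {m | X m = true}.Infinite ∧ ∃ v, ∀ F : Finset ℕ, (∀ x ∈ F, X x = true) → F.card = n →
    c (∑ x ∈ F, x) = v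

/-- the hypotheses on a continuous reduction -/
structure RedN (n : ℕ) (Φ : (ℕ → ℕ → A) → ℕ → B)
    (Ψ : (ℕ → ℕ → A) → (ℕ → Bool) → ℕ → Bool) : Prop where
  hΦ : ∀ f, Stable f → ∀ K, ∃ M, ∀ f', Stable f' → Agree M f f' → ∀ m < K, Φ f' m = Φ f m
  hΨ : ∀ f X, Stable f → HTn n (Φ f) X → ∀ K, ∃ M, ∀ f' X', Stable f' → HTn n (Φ f') X' →
      Agree M f f' → (∀ m < M, X' m = X m) → ∀ m < K, Ψ f' X' m = Ψ f X m
  hsol : ∀ f X, Stable f → HTn n (Φ f) X → Sol2 f (Ψ f X)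

/-- building a colouring and an infinite set -/
theorem chainN [Nonempty A] (Q : Cond A → Finset ℕ → Prop)
    (hmono : ∀ q r F, Q q F → Ext r q → Q r F)
    (hext : ∀ q F, Q q F → ∀ m, ∃ r, Ext r q ∧ ∃ x, m ≤ x ∧ Q r (insert x F))
    (q0 : Cond A) (T0 : Finset ℕ) (hQ : Q q0 T0) (m0 : ℕ) :
    ∃ (f : ℕ → ℕ → A) (X : ℕ → Bool), q0.In f ∧ {m | X m = true}.Infinite ∧
      (∀ x < m0, (X x = true ↔ x ∈ T0)) ∧
      ∀ K, ∃ t T, Ext t q0 ∧ Q t T ∧ t.In f ∧ K ≤ t.N ∧ ∀ x < K, (X x = true ↔ x ∈ T) := by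
  classical
  obtain ⟨v⟩ := ‹Nonempty A›
  let Inv : Cond A × Finset ℕ → Prop := fun p => Ext p.1 q0 ∧ Q p.1 p.2
  have step : ∀ (k : ℕ) (p : {p // Inv p}), ∃ p' : {p // Inv p}, Ext p'.1.1 p.1.1 ∧
      k ∈ p'.1.1.U ∧ k ≤ p'.1.1.N ∧ ∃ x, max m0 k ≤ x ∧ p'.1.2 = insert x p.1.2 := by
    rintro k ⟨⟨q, F⟩, h1, h2⟩
    obtain ⟨r1, hr1, hU1, _⟩ := lock_exists ({v} : Finset A) (Finset.mem_singleton_self v) q k
    have hr2 : Ext ⟨r1.g, r1.st, max r1.N k, r1.U⟩ r1 :=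
      ext_restart r1.in_self (le_max_left _ _)
    obtain ⟨r3, hr3, x, hx, hQx⟩ :=
      hext _ F (hmono _ _ F h2 (hr2.trans hr1.1)) (max m0 k)
    have h3 : Ext r3 q := (hr3.trans hr2).trans hr1.1
    exact ⟨⟨(r3, insert x F), h3.trans h1, hQx⟩, h3, hr3.2.2 hU1,
      (le_max_right _ _).trans hr3.2.1, x, hx, rfl⟩
  choose nxt hnxt using step
  let init : {p // Inv p} := ⟨(q0, T0), Ext.refl q0, hQ⟩
  let sq : ℕ → {p // Inv p} := fun n => Nat.rec init (fun n p => nxt n p) n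
  have sqs : ∀ n, sq (n + 1) = nxt n (sq n) := fun n => rfl
  have hle : ∀ n, Ext (sq (n + 1)).1.1 (sq n).1.1 := fun n => by rw [sqs]; exact (hnxt n (sq n)).1
  have hU : ∀ n, n ∈ (sq (n + 1)).1.1.U := fun n => by rw [sqs]; exact (hnxt n (sq n)).2.1
  have hN : ∀ n, n ≤ (sq (n + 1)).1.1.N := fun n => by rw [sqs]; exact (hnxt n (sq n)).2.2.1
  have hx : ∀ n, ∃ x, max m0 n ≤ x ∧ (sq (n + 1)).1.2 = insert x (sq n).1.2 := fun n => by
    rw [sqs]; exact (hnxt n (sq n)).2.2.2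
  have hmono' : Monotone fun n => (sq n).1.2 := monotone_nat_of_le_succ fun n => by
    obtain ⟨x, _, h2⟩ := hx n
    rw [h2]
    exact Finset.subset_insert _ _
  have hold : ∀ m k, m ≤ k → ∀ x < max m0 m, x ∈ (sq k).1.2 → x ∈ (sq m).1.2 := by
    intro m k hmk
    induction k, hmk using Nat.le_induction with
    | base => exact fun x _ h => h
    | succ k hk ih =>
      intro x hxm hxk
      obtain ⟨y, hy, h2⟩ := hx k
      rw [h2] at hxk
      rcases Finset.mem_insert.1 hxk with h | h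
      · omega
      · exact ih x hxm h
  let f : ℕ → ℕ → A := fun a y => (sq (a + 1)).1.1.g a y
  have hf : ∀ n, (sq n).1.1.In f := fun n => fusion (fun n => (sq n).1.1) hle hU n
  have hiff : ∀ m, ∀ x < max m0 m, ((∃ n, x ∈ (sq n).1.2) ↔ x ∈ (sq m).1.2) := by
    intro m x hxm
    constructor
    · rintro ⟨n, hn⟩
      exact hold m (max m n) (le_max_left _ _) x hxm (hmono' (le_max_right _ _) hn)
    · exact fun h => ⟨m, h⟩
  refine ⟨f, fun x => decide (∃ n, x ∈ (sq n).1.2), hf 0, ?_, ?_, ?_⟩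
  · rw [Set.infinite_iff_exists_gt]
    intro K
    obtain ⟨x, h1, h2⟩ := hx (K + 1)
    refine ⟨x, ?_, by omega⟩
    simp only [Set.mem_ofPred_eq, decide_eq_true_eq]
    exact ⟨K + 1 + 1, by rw [h2]; exact Finset.mem_insert_self _ _⟩
  · intro x hxm
    simp only [decide_eq_true_eq]
    exact hiff 0 x (by omega)
  · intro K
    refine ⟨(sq (K + 1)).1.1, (sq (K + 1)).1.2, (sq (K + 1)).2.1, (sq (K + 1)).2.2, hf (K + 1),
      hN K, fun x hxK => ?_⟩
    simp only [decide_eq_true_eq]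
    exact hiff (K + 1) x (by omega)

section

variable {n : ℕ} {Φ : (ℕ → ℕ → A) → ℕ → B} {Ψ : (ℕ → ℕ → A) → (ℕ → Bool) → ℕ → Bool}

/-- the set built by `chainN` is a solution -/
theorem htn_of_chain {Q : Cond A → Finset ℕ → Prop} {i : B}
    (hcol : ∀ q F, Q q F → ∀ f, q.In f → ∀ T ⊆ F, T.card = n → Φ f (∑ x ∈ T, x) = i)
    {f : ℕ → ℕ → A} {X : ℕ → Bool} (hinf : {m | X m = true}.Infinite)
    (h : ∀ K, ∃ t T, Q t T ∧ t.In f ∧ ∀ x < K, (X x = true ↔ x ∈ T)) : HTn n (Φ f) X := by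
  refine ⟨hinf, i, fun F hF hcard => ?_⟩
  obtain ⟨t, T, h1, h2, h3⟩ := h (F.sup id + 1)
  refine hcol t T h1 f h2 F (fun x hx => ?_) hcard
  have h4 : x ≤ F.sup id := Finset.le_sup (f := id) hx
  exact (h3 x (by omega)).1 (hF x hx)

/-- a family of local conditions can not always be extended -/
theorem flipN [Nontrivial A] (R : RedN n Φ Ψ) (i : B) (q0 : Cond A)
    (Q : Cond A → Finset ℕ → Prop)
    (hmono : ∀ q r F, Q q F → Ext r q → Q r F)
    (hext : ∀ q F, Q q F → ∀ m, ∃ r, Ext r q ∧ ∃ x, m ≤ x ∧ Q r (insert x F))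
    (hloc : ∀ q F, Ext q q0 → Q q F → ∃ M', ∀ M'', M' ≤ M'' → Q ⟨q.g, q.st, M'', q0.U⟩ F)
    (hcol : ∀ q F, Q q F → ∀ f, q.In f → ∀ T ⊆ F, T.card = n → Φ f (∑ x ∈ T, x) = i)
    (h0 : Q q0 ∅) : False := by
  classical
  obtain ⟨f, X, hf, hinf, _, hst⟩ := chainN Q hmono hext q0 ∅ h0 0
  have hX : HTn n (Φ f) X := htn_of_chain hcol hinf fun K => by
    obtain ⟨t, T, _, h2, h3, _, h5⟩ := hst K
    exact ⟨t, T, h2, h3, h5⟩
  have hH := R.hsol f X hf.1 hX
  obtain ⟨a, ha, haU⟩ := hH.1.exists_notMem_finset q0.U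
  obtain ⟨b, hb, hab⟩ := (Set.infinite_iff_exists_gt.1 hH.1) a
  obtain ⟨M, hM⟩ := R.hΨ f X hf.1 hX (b + 1)
  obtain ⟨t, T, htq, hQt, htf, hMt, hXT⟩ := hst (max M (b + 1))
  have h1 : Ext ⟨f, hf.1, t.N, t.U⟩ t := ext_restart htf le_rfl
  obtain ⟨M', hM'⟩ := hloc _ T (h1.trans htq) (hmono _ _ T hQt h1)
  obtain ⟨v, hv⟩ := exists_ne (f a b)
  set N' := max (max M' q0.N) (max M (b + 1)) with hN'
  let g' : ℕ → ℕ → A := fun c y => if c = a ∧ N' ≤ y then v else f c y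
  have hst' : Stable g' := by
    intro c
    by_cases hc : c = a
    · refine ⟨v, (eventually_ge_atTop N').mono fun y hy => ?_⟩
      simp [g', hc, hy]
    · obtain ⟨w, hw⟩ := hf.1 c
      refine ⟨w, hw.mono fun y hy => ?_⟩
      simp [g', hc, hy]
  have hag : Agree N' g' f := by
    intro c _ y hy
    have : ¬ (N' ≤ y) := not_le.2 hy
    simp [g', this]
  have hQ' : Q ⟨f, hf.1, N', q0.U⟩ T := hM' N' ((le_max_left _ _).trans (le_max_left _ _))
  have hext' : Ext ⟨g', hst', N', insert a q0.U⟩ ⟨f, hf.1, N', q0.U⟩ := by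
    refine ⟨⟨hst', hag, fun c hc y => ?_⟩, le_rfl, Finset.subset_insert _ _⟩
    have : c ≠ a := fun h => haU (h ▸ hc)
    simp [g', this]
  obtain ⟨f', X', hf', hinf', hT', hst2⟩ := chainN Q hmono hext _ T (hmono _ _ T hQ' hext')
    (max M (b + 1))
  have hX' : HTn n (Φ f') X' := htn_of_chain hcol hinf' fun K => by
    obtain ⟨t, T, _, h2, h3, _, h5⟩ := hst2 K
    exact ⟨t, T, h2, h3, h5⟩
  have hff' : Agree N' f f' := (hf'.2.1.trans hag).symm
  have hMN : M ≤ N' := (le_max_left M (b + 1)).trans (le_max_right _ _)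
  have hbN : b + 1 ≤ N' := (le_max_right M (b + 1)).trans (le_max_right _ _)
  have h2 := hM f' X' hf'.1 hX' (hff'.mono hMN) fun x hx => by
    have h3 : x < max M (b + 1) := hx.trans_le (le_max_left _ _)
    rw [Bool.eq_iff_iff, hT' x h3, hXT x h3]
  have hH' := R.hsol f' X' hf'.1 hX'
  have ha' : Ψ f' X' a = true := (h2 a (by omega)).trans ha
  have hb' : Ψ f' X' b = true := (h2 b (by omega)).trans hb
  have hw : ∀ᶠ y in atTop, f' a y = v := by
    refine (eventually_ge_atTop N').mono fun y hy => ?_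
    rw [hf'.2.2 a (Finset.mem_insert_self _ _) y]
    simp [g', hy]
  have h3 := lim_of_sol hH' hab ha' hb' ha' hw
  rw [← hff' a (by omega) b (by omega)] at h3
  exact hv h3

theorem sum_form {n r d : ℕ} (hn : 1 ≤ n) (F : Finset ℕ)
    (h : ∀ x ∈ F, ∃ s, d ∣ s ∧ x = r + n * s) :
    ∃ k, d ∣ k ∧ k ≤ ∑ x ∈ F, x ∧ ∑ x ∈ F, x = F.card * r + n * k := by
  classical
  induction F using Finset.induction_on with
  | empty => exact ⟨0, dvd_zero d, by simp, by simp⟩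
  | insert x F hx ih =>
    obtain ⟨k, hk1, hk2, hk3⟩ := ih fun y hy => h y (Finset.mem_insert_of_mem hy)
    obtain ⟨s, hs1, hs2⟩ := h x (Finset.mem_insert_self x F)
    have h1 : s ≤ n * s := Nat.le_mul_of_pos_left s hn
    refine ⟨k + s, (Nat.dvd_add_iff_right hk1).1 hs1, ?_, ?_⟩
    · rw [Finset.sum_insert hx]
      omega
    · rw [Finset.sum_insert hx, Finset.card_insert_of_notMem hx, hk3, hs2]
      ring

/-- below some condition the colour `i` can not fill a class modulo `d` on long intervals -/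
theorem class_syndetic (hn : 1 ≤ n) [Nontrivial A] (R : RedN n Φ Ψ) (i : B) (d r : ℕ)
    (hd : 1 ≤ d) (q0 : Cond A) :
    ∃ p, Ext p q0 ∧ ∃ G N0, ∀ f, p.In f → ∀ w, N0 ≤ w →
      ∃ m, w ≤ m ∧ m ≤ w + G ∧ m % d = r % d ∧ Φ f (n * m) ≠ i := by
  classical
  by_contra hcon
  push Not at hcon
  refine flipN R i q0 (fun q F => Ext q q0 ∧ (∀ x ∈ F, ∃ s, d ∣ s ∧ x = r + n * s) ∧
    ∀ f, q.In f → ∀ T ⊆ F, T.card = n → Φ f (∑ x ∈ T, x) = i) ?_ ?_ ?_ ?_ ?_
  · rintro q1 r1 F ⟨h1, h2, h3⟩ hr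
    exact ⟨hr.trans h1, h2, fun f hf => h3 f (hr.in_of hf)⟩
  · rintro q F ⟨h1, h2, h3⟩ m
    obtain ⟨f, hf, w, hw, hwG⟩ := hcon q h1 (d + r + ∑ x ∈ F, x) (max m (F.sup id + 1))
    obtain ⟨M, hM⟩ := R.hΦ f hf.1 (n * (w + (d + r + ∑ x ∈ F, x)) + 1)
    have hr : Ext ⟨f, hf.1, max M q.N, q.U⟩ q := ext_restart hf (le_max_right _ _)
    set s := d * (w / d + 1) with hs
    have hs1 : w < s := Nat.lt_mul_div_succ w hd
    have hs2 : s ≤ w + d := by
      have := Nat.mul_div_le w d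
      rw [hs, Nat.mul_add, Nat.mul_one]
      omega
    have hs3 : s ≤ n * s := Nat.le_mul_of_pos_left s hn
    have hmw : m ≤ w := (le_max_left _ _).trans hw
    refine ⟨_, hr, r + n * s, by omega, hr.trans h1, ?_, ?_⟩
    · intro x hx
      rcases Finset.mem_insert.1 hx with h | h
      · exact ⟨s, ⟨_, hs⟩, h⟩
      · exact h2 x h
    · intro f' hf' T hT hcard
      by_cases hx : r + n * s ∈ T
      · have hsub : T.erase (r + n * s) ⊆ F := Finset.subset_insert_iff.1 hT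
        obtain ⟨k, hk1, hk2, hk3⟩ := sum_form (n := n) (r := r) (d := d) hn
          (T.erase (r + n * s)) fun x hx => h2 x (hsub hx)
        have hk4 : ∑ x ∈ T.erase (r + n * s), x ≤ ∑ x ∈ F, x :=
          Finset.sum_le_sum_of_subset hsub
        have hk5 := Finset.add_sum_erase T (fun x => x) hx
        rw [Finset.card_erase_of_mem hx, hcard] at hk3
        have hk6 : ∑ x ∈ T, x = n * (r + s + k) := by
          rw [← hk5, hk3]
          obtain ⟨n', hn'⟩ : ∃ n', n = n' + 1 := ⟨n - 1, by omega⟩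
          rw [hn', Nat.add_sub_cancel]
          ring
        have hk7 : r + s + k ≤ w + (d + r + ∑ x ∈ F, x) := by omega
        rw [hk6, hM f' hf'.1 (hf'.2.1.mono (le_max_left _ _)).symm _
          (Nat.lt_succ_of_le (Nat.mul_le_mul_left n hk7))]
        refine hwG _ (by omega) hk7 ?_
        obtain ⟨c, hc⟩ := hk1
        rw [hs, hc, Nat.add_assoc, ← Nat.mul_add, Nat.add_mul_mod_self_left]
      · refine h3 f' (hr.in_of hf') T (fun x hxT => ?_) hcard
        rcases Finset.mem_insert.1 (hT hxT) with h | h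
        · exact absurd (h ▸ hxT) hx
        · exact h
  · rintro q F _ ⟨h1, h2, h3⟩
    obtain ⟨M, hM⟩ := R.hΦ q.g q.st (∑ x ∈ F, x + 1)
    refine ⟨max M q0.N, fun M'' hM'' => ⟨⟨h1.1, (le_max_right _ _).trans hM'', fun _ h => h⟩, h2,
      fun f hf T hT hcard => ?_⟩⟩
    have h4 : ∑ x ∈ T, x ≤ ∑ x ∈ F, x := Finset.sum_le_sum_of_subset hT
    rw [hM f hf.1 (hf.2.1.mono ((le_max_left _ _).trans hM'')).symm _ (Nat.lt_succ_of_le h4)]
    exact h3 q.g q.in_self T hT hcard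
  · rintro q F ⟨h1, h2, h3⟩
    exact h3
  · refine ⟨Ext.refl q0, fun x hx => absurd hx (Finset.notMem_empty x), fun f _ T hT hcard => ?_⟩
    rw [Finset.subset_empty.1 hT, Finset.card_empty] at hcard
    omega

/-- the same for finitely many classes and colours -/
theorem class_family (hn : 1 ≤ n) [Nontrivial A] [DecidableEq B] (R : RedN n Φ Ψ)
    (J : Finset (ℕ × ℕ × B)) (hJ : ∀ t ∈ J, 1 ≤ t.1) (q0 : Cond A) :
    ∃ p, Ext p q0 ∧ ∃ G N0, ∀ t ∈ J, ∀ f, p.In f → ∀ w, N0 ≤ w →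
      ∃ m, w ≤ m ∧ m ≤ w + G ∧ m % t.1 = t.2.1 % t.1 ∧ Φ f (n * m) ≠ t.2.2 := by
  classical
  induction J using Finset.induction_on with
  | empty => exact ⟨q0, Ext.refl q0, 0, 0, fun t ht => absurd ht (Finset.notMem_empty t)⟩
  | insert t J _ ih =>
    obtain ⟨p, hp, G, N0, h1⟩ := ih fun s hs => hJ s (Finset.mem_insert_of_mem hs)
    obtain ⟨p', hp', G', N0', h2⟩ := class_syndetic hn R t.2.2 t.1 t.2.1
      (hJ t (Finset.mem_insert_self t J)) p
    refine ⟨p', hp'.trans hp, max G G', max N0 N0', fun s hs f hf w hw => ?_⟩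
    rcases Finset.mem_insert.1 hs with h | h
    · obtain ⟨m, h3, h4, h5, h6⟩ := h2 f hf w ((le_max_right _ _).trans hw)
      rw [h]
      exact ⟨m, h3, h4.trans (Nat.add_le_add_left (le_max_right _ _) w), h5, h6⟩
    · obtain ⟨m, h3, h4, h5, h6⟩ := h1 s h f (hp'.in_of hf) w ((le_max_left _ _).trans hw)
      exact ⟨m, h3, h4.trans (Nat.add_le_add_left (le_max_left _ _) w), h5, h6⟩

end

end Run7.h628.Weih
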