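import Mathlib
import Pool.Agent.Run7.h628.Weih5

/-!
# Reductions to Hindman for sums of exactly `n` elements: combinatorial tools
-/

set_option autoImplicit false

namespace Run7.h628.Weih

open Filter

/-- a finite form of van der Waerden's theorem -/
theorem vdw (n : ℕ) : ∃ W, ∀ (c : ℕ → Fin 2) (w : ℕ), ∃ a d, w ≤ a ∧ 1 ≤ d ∧ d ≤ W ∧
    a + n * d ≤ w + W ∧ ∃ v, ∀ l < n, c (a + l * d) = v := by
  classical
  obtain ⟨ι, _, hι⟩ := Combinatorics.Line.exists_mono_in_high_dimension (Fin n) (Fin 2)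
  refine ⟨n * Fintype.card ι + Fintype.card ι, fun c w => ?_⟩
  obtain ⟨L, v, hL⟩ := hι fun z => c (w + ∑ i, (z i : ℕ))
  let S : Finset ι := Finset.univ.filter fun i => L.idxFun i = none
  let base : ι → ℕ := fun i => match L.idxFun i with
    | none => 0
    | some y => (y : ℕ)
  have hS1 : 1 ≤ S.card := by
    obtain ⟨i, hi⟩ := L.proper
    exact Finset.card_pos.2 ⟨i, Finset.mem_filter.2 ⟨Finset.mem_univ i, hi⟩⟩
  have hS2 : S.card ≤ Fintype.card ι := Finset.card_le_univ S
  have hbase : ∀ i, base i + (if L.idxFun i = none then n else 0) ≤ n := by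
    intro i
    simp only [base]
    rcases h : L.idxFun i with _ | y
    · simp
    · simp only [reduceCtorEq, if_false]
      exact (Nat.add_zero _).le.trans y.isLt.le
  have hsum : ∑ i, base i + n * S.card ≤ n * Fintype.card ι := by
    have h1 : n * S.card = ∑ i, (if L.idxFun i = none then n else 0) := by
      rw [← Finset.sum_filter, Finset.sum_const, smul_eq_mul, Nat.mul_comm]
    rw [h1, ← Finset.sum_add_distrib, Nat.mul_comm]
    calc ∑ i, (base i + (if L.idxFun i = none then n else 0)) ≤ ∑ _i : ι, n :=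
          Finset.sum_le_sum fun i _ => hbase i
      _ = Fintype.card ι * n := by simp
  refine ⟨w + ∑ i, base i, S.card, by omega, hS1, by omega, by omega, v, fun l hl => ?_⟩
  have h2 := hL ⟨l, hl⟩
  have h3 : ∑ i, ((L ⟨l, hl⟩ i : Fin n) : ℕ) = ∑ i, base i + l * S.card := by
    have h1 : l * S.card = ∑ i, (if L.idxFun i = none then l else 0) := by
      rw [← Finset.sum_filter, Finset.sum_const, smul_eq_mul, Nat.mul_comm]
    rw [h1, ← Finset.sum_add_distrib]
    refine Finset.sum_congr rfl fun i _ => ?_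
    simp only [base, Combinatorics.Line.apply_def]
    rcases h : L.idxFun i with _ | y
    · simp
    · simp
  rw [Nat.add_assoc, ← h3]
  exact h2

attribute [local instance] Ultrafilter.add Ultrafilter.addSemigroup in
/-- a nonprincipal idempotent ultrafilter -/
theorem exists_idem : ∃ u : Ultrafilter ℕ,
    (∀ p : ℕ → Prop, (∀ᶠ m in u, p m) ↔ ∀ᶠ m in u, ∀ᶠ m' in u, p (m + m')) ∧
    ∀ K : ℕ, ∀ᶠ m in (u : Filter ℕ), K ≤ m := by
  obtain ⟨u, hu, hFS⟩ := Hindman.exists_idempotent_ultrafilter_le_FS (Stream'.const 1 : Stream' ℕ)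
  have h1 : ∀ (a : Stream' ℕ) (m : ℕ), m ∈ Hindman.FS a → (∀ n, 1 ≤ a.get n) → 1 ≤ m := by
    intro a m hm
    induction hm with
    | head' a => exact fun h => h 0
    | tail' a m _ ih => exact fun h => ih fun n => h (n + 1)
    | cons' a m _ ih => exact fun h => (ih fun n => h (n + 1)).trans (Nat.le_add_left _ _)
  have hadd : ∀ p : ℕ → Prop, (∀ᶠ m in u, p m) ↔ ∀ᶠ m in u, ∀ᶠ m' in u, p (m + m') := by
    intro p
    rw [← Ultrafilter.eventually_add, hu]
  refine ⟨u, hadd, fun K => ?_⟩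
  induction K with
  | zero => exact Eventually.of_forall fun m => Nat.zero_le m
  | succ K ih =>
    rw [hadd]
    refine ih.mono fun m hm => ?_
    refine hFS.mono fun m' hm' => ?_
    have := h1 _ m' hm' fun n => le_rfl
    omega

/-- the Galvin–Glazer construction -/
theorem galvin {u : Ultrafilter ℕ}
    (hadd : ∀ p : ℕ → Prop, (∀ᶠ m in u, p m) ↔ ∀ᶠ m in u, ∀ᶠ m' in u, p (m + m'))
    (hbig : ∀ K : ℕ, ∀ᶠ m in (u : Filter ℕ), K ≤ m) {G : ℕ → Prop} (hG : ∀ᶠ m in u, G m) (m0 : ℕ) :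
    ∃ S : Set ℕ, S.Infinite ∧ (∀ x ∈ S, m0 ≤ x) ∧
      ∀ T : Finset ℕ, T.Nonempty → (∀ x ∈ T, x ∈ S) → G (∑ x ∈ T, x) := by
  classical
  let Inv : Finset ℕ → Prop := fun T => (∀ x ∈ T, m0 ≤ x) ∧
    (∀ σ ⊆ T, σ.Nonempty → G (∑ x ∈ σ, x)) ∧ ∀ σ ⊆ T, ∀ᶠ z in u, G (∑ x ∈ σ, x + z)
  have step : ∀ (k : ℕ) (T : {T // Inv T}), ∃ T' : {T // Inv T}, ∃ x, k ≤ x ∧
      T'.1 = insert x T.1 := by
    rintro k ⟨T, h1, h2, h3⟩
    have h4 : ∀ᶠ z in u, ∀ σ ∈ T.powerset, G (∑ x ∈ σ, x + z) := by
      rw [Filter.eventually_all_finset]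
      exact fun σ hσ => h3 σ (Finset.mem_powerset.1 hσ)
    have h5 : ∀ᶠ z in u, ∀ σ ∈ T.powerset, ∀ᶠ z' in u, G (∑ x ∈ σ, x + (z + z')) := by
      rw [Filter.eventually_all_finset]
      intro σ hσ
      exact (hadd fun z => G (∑ x ∈ σ, x + z)).1 (h3 σ (Finset.mem_powerset.1 hσ))
    obtain ⟨z, h6, h7, h8⟩ := (h4.and (h5.and (hbig (max (max k m0) (T.sup id + 1))))).exists
    have hk : k ≤ z := (le_max_left k m0).trans ((le_max_left _ _).trans h8)
    have hm : m0 ≤ z := (le_max_right k m0).trans ((le_max_left _ _).trans h8)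
    have hz : T.sup id + 1 ≤ z := (le_max_right _ _).trans h8
    have hsplit : ∀ σ ⊆ insert z T, z ∈ σ → ∑ x ∈ σ, x = ∑ x ∈ σ.erase z, x + z := by
      intro σ _ hzσ
      rw [Nat.add_comm]
      exact (Finset.add_sum_erase σ (fun x => x) hzσ).symm
    refine ⟨⟨insert z T, ?_, ?_, ?_⟩, z, hk, rfl⟩
    · intro x hx
      rcases Finset.mem_insert.1 hx with h | h
      · exact h ▸ hm
      · exact h1 x h
    · intro σ hσ hne
      by_cases hzσ : z ∈ σ
      · rw [hsplit σ hσ hzσ]
        exact h6 _ (Finset.mem_powerset.2 (Finset.subset_insert_iff.1 hσ))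
      · refine h2 σ (fun x hx => ?_) hne
        rcases Finset.mem_insert.1 (hσ hx) with h | h
        · exact absurd (h ▸ hx) hzσ
        · exact h
    · intro σ hσ
      by_cases hzσ : z ∈ σ
      · rw [hsplit σ hσ hzσ]
        have := h7 _ (Finset.mem_powerset.2 (Finset.subset_insert_iff.1 hσ))
        refine this.mono fun z' hz' => ?_
        rw [Nat.add_assoc]
        exact hz'
      · refine h3 σ fun x hx => ?_
        rcases Finset.mem_insert.1 (hσ hx) with h | h
        · exact absurd (h ▸ hx) hzσ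
        · exact h
  choose nxt y hy hnxt using step
  let init : {T // Inv T} := ⟨∅, fun x hx => absurd hx (Finset.notMem_empty x),
    fun σ hσ hne => absurd hne (by rw [Finset.subset_empty.1 hσ]; exact Finset.not_nonempty_empty),
    fun σ hσ => by
      rw [Finset.subset_empty.1 hσ]
      simpa using hG⟩
  let sq : ℕ → {T // Inv T} := fun n => Nat.rec init (fun n p => nxt n p) n
  have sqs : ∀ n, sq (n + 1) = nxt n (sq n) := fun n => rfl
  have hins : ∀ n, (sq (n + 1)).1 = insert (y n (sq n)) (sq n).1 := fun n => by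
    rw [sqs]
    exact hnxt n (sq n)
  have hmono : Monotone fun n => (sq n).1 := monotone_nat_of_le_succ fun n => by
    rw [hins]
    exact Finset.subset_insert _ _
  refine ⟨{x | ∃ n, x ∈ (sq n).1}, ?_, ?_, ?_⟩
  · rw [Set.infinite_iff_exists_gt]
    intro K
    refine ⟨y (K + 1) (sq (K + 1)), ⟨K + 1 + 1, ?_⟩, ?_⟩
    · rw [hins]
      exact Finset.mem_insert_self _ _
    · have := hy (K + 1) (sq (K + 1))
      omega
  · rintro x ⟨n, hn⟩
    exact (sq n).2.1 x hn
  · intro T hne hT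
    have : ∃ n, T ⊆ (sq n).1 := by
      clear hne
      induction T using Finset.induction_on with
      | empty => exact ⟨0, Finset.empty_subset _⟩
      | insert x T _ ih =>
        obtain ⟨n, hn⟩ := ih fun z hz => hT z (Finset.mem_insert_of_mem hz)
        obtain ⟨m, hm⟩ := hT x (Finset.mem_insert_self x T)
        refine ⟨max m n, fun z hz => ?_⟩
        rcases Finset.mem_insert.1 hz with h | h
        · exact hmono (le_max_left m n) (h ▸ hm)
        · exact hmono (le_max_right m n) (hn h)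
    obtain ⟨n, hn⟩ := this
    exact (sq n).2.2.1 T hn hne

end Run7.h628.Weih
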