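import Mathlib
import Pool.Agent.Run7.h628.Weih6

/-!
# Stable Ramsey for pairs does not reduce continuously to Hindman for sums of exactly `n` elements
and two colours
-/

set_option autoImplicit false

namespace Run7.h628.Weih

open Filter

theorem two {x y z : Fin 2} (h : x ≠ y) (h' : z ≠ y) : x = z := by omega

theorem ulim (u : Ultrafilter ℕ) (c : ℕ → Fin 2) : ∃ v, ∀ᶠ z in (u : Filter ℕ), c z = v := by
  rcases u.em (fun z => c z = 0) with h | h
  · exact ⟨0, h⟩
  · exact ⟨1, h.mono fun z hz => by omega⟩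

/-- crossing progressions -/
theorem cross {n W G w : ℕ} (hn : 1 ≤ n)
    (hW : ∀ (c : ℕ → Fin 2) (w : ℕ), ∃ a d, w ≤ a ∧ 1 ≤ d ∧ d ≤ W ∧
      a + n * d ≤ w + W ∧ ∃ v, ∀ l < n, c (a + l * d) = v)
    (y Q' R' : ℕ → Fin 2) (hQR : ∀ t, w ≤ t → t ≤ w + G + W → Q' t = R' t)
    (hcls : ∀ d a c, 1 ≤ d → d ≤ W → ∃ m, w ≤ m ∧ m ≤ w + G ∧ m % d = a % d ∧ R' m ≠ c) :
    ∃ x0 d i, y x0 = i ∧ (∀ l, 1 ≤ l → l < n → R' (x0 + l * d) = i) ∧ Q' (x0 + n * d) = i := by
  by_contra hcon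
  push Not at hcon
  have hy : ∀ x, w ≤ x → x ≤ w + G + W → y x ≠ R' x := by
    intro x hx1 hx2 h
    have h1 := hcon x 0 (y x) rfl (fun l _ _ => by rw [Nat.mul_zero, Nat.add_zero]; exact h.symm)
    rw [Nat.mul_zero, Nat.add_zero, hQR x hx1 hx2] at h1
    exact h1 h.symm
  obtain ⟨a, d, ha, hd1, hd2, had, v, hv⟩ := hW R' (w + G)
  have claim : ∀ k x, a = x + k * d → w ≤ x → ∀ l < n, R' (x + l * d) = v := by
    intro k
    induction k with
    | zero =>
      intro x hx _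
      rw [Nat.zero_mul, Nat.add_zero] at hx
      rw [← hx]
      exact hv
    | succ k ih =>
      intro x hx hwx
      have h1 : a = (x + d) + k * d := by rw [hx]; ring
      have h2 := ih (x + d) h1 (by omega)
      have hxa : x ≤ a := by rw [hx]; exact Nat.le_add_right _ _
      have h4 : ∀ l, 1 ≤ l → l ≤ n → R' (x + l * d) = v := by
        intro l hl1 hl2
        obtain ⟨l', hl'⟩ : ∃ l', l = l' + 1 := ⟨l - 1, by omega⟩
        have h3 := h2 l' (by omega)
        rw [show x + l * d = x + d + l' * d by rw [hl']; ring]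
        exact h3
      have h0 : R' x = v := by
        by_contra hne
        have h5 : y x = v := two (hy x hwx (by omega)) (Ne.symm hne)
        have h6 := hcon x d v h5 fun l hl1 hl2 => h4 l hl1 hl2.le
        rw [hQR (x + n * d) (by omega) (by omega)] at h6
        exact h6 (h4 n hn le_rfl)
      intro l hl
      rcases Nat.eq_zero_or_pos l with h5 | h5
      · rw [h5, Nat.zero_mul, Nat.add_zero]
        exact h0
      · exact h4 l h5 hl.le
  obtain ⟨m, hm1, hm2, hm3, hm4⟩ := hcls d a v hd1 hd2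
  obtain ⟨k, hk⟩ := (Nat.modEq_iff_dvd' (hm2.trans ha)).1 hm3
  have h1 := claim k m (by rw [Nat.mul_comm k d, ← hk]; omega) hm1 0 hn
  rw [Nat.zero_mul, Nat.add_zero] at h1
  exact hm4 h1

/-- solutions of the form `x0 + n Z` -/
theorem htn_image {B : Type} {n : ℕ} (hn : 1 ≤ n) {c : ℕ → B} {x0 : ℕ} {Z : Set ℕ}
    (hZ : Z.Infinite) {i : B}
    (h : ∀ T : Finset ℕ, (∀ z ∈ T, z ∈ Z) → T.card = n → c (n * (x0 + ∑ z ∈ T, z)) = i)
    {X : ℕ → Bool} (hX : ∀ x, X x = true ↔ ∃ z ∈ Z, x = x0 + n * z) : HTn n c X := by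
  classical
  refine ⟨?_, i, fun F hF hcard => ?_⟩
  · rw [Set.infinite_iff_exists_gt]
    intro K
    obtain ⟨z, hz1, hz2⟩ := (Set.infinite_iff_exists_gt.1 hZ) K
    have h1 : z ≤ n * z := Nat.le_mul_of_pos_left z hn
    exact ⟨x0 + n * z, (hX _).2 ⟨z, hz1, rfl⟩, by omega⟩
  · have key : ∀ x ∈ F, (x - x0) / n ∈ Z ∧ x = x0 + n * ((x - x0) / n) := by
      intro x hx
      obtain ⟨z, hz, hxz⟩ := (hX x).1 (hF x hx)
      have h1 : (x - x0) / n = z := by
        rw [hxz, Nat.add_sub_cancel_left, Nat.mul_div_cancel_left z hn]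
      rw [h1]
      exact ⟨hz, hxz⟩
    have hinj : Set.InjOn (fun x => (x - x0) / n) (F : Set ℕ) := by
      intro x hx x' hx' hxx
      have h1 := (key x (Finset.mem_coe.1 hx)).2
      have h2 := (key x' (Finset.mem_coe.1 hx')).2
      simp only at hxx
      rw [h1, h2, hxx]
    have h1 := h (F.image fun x => (x - x0) / n) (fun z hz => by
      obtain ⟨x, hx, hxz⟩ := Finset.mem_image.1 hz
      rw [← hxz]
      exact (key x hx).1) (by rw [Finset.card_image_of_injOn hinj, hcard])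
    rw [Finset.sum_image hinj] at h1
    have h2 : ∑ x ∈ F, x = n * (x0 + ∑ x ∈ F, (x - x0) / n) := by
      calc ∑ x ∈ F, x = ∑ x ∈ F, (x0 + n * ((x - x0) / n)) :=
            Finset.sum_congr rfl fun x hx => (key x hx).2
        _ = F.card * x0 + n * ∑ x ∈ F, (x - x0) / n := by
            rw [Finset.sum_add_distrib, Finset.sum_const, smul_eq_mul, Finset.mul_sum]
        _ = n * (x0 + ∑ x ∈ F, (x - x0) / n) := by rw [hcard, Nat.mul_add]
    rw [h2]
    exact h1

/-- no continuous reduction -/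
theorem no_redN {A : Type} [Nontrivial A] {n : ℕ} (hn : 1 ≤ n) {Φ : (ℕ → ℕ → A) → ℕ → Fin 2}
    {Ψ : (ℕ → ℕ → A) → (ℕ → Bool) → ℕ → Bool} : ¬ RedN n Φ Ψ := by
  classical
  intro R
  obtain ⟨W, hW⟩ := vdw n
  obtain ⟨v0⟩ : Nonempty A := inferInstance
  let q0 : Cond A := ⟨fun _ _ => v0, fun _ => ⟨v0, Eventually.of_forall fun _ => rfl⟩, 0, ∅⟩
  obtain ⟨p, _, G, N0, hcls0⟩ := class_family hn R
    ((Finset.Icc 1 W) ×ˢ ((Finset.range W) ×ˢ (Finset.univ : Finset (Fin 2))))
    (fun t ht => (Finset.mem_Icc.1 (Finset.mem_product.1 ht).1).1) q0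
  have hcls : ∀ d a c f w, 1 ≤ d → d ≤ W → p.In f → N0 ≤ w →
      ∃ m, w ≤ m ∧ m ≤ w + G ∧ m % d = a % d ∧ Φ f (n * m) ≠ c := by
    intro d a c f w hd1 hd2 hf hw
    obtain ⟨m, h1, h2, h3, h4⟩ := hcls0 (d, a % d, c) (Finset.mem_product.2
      ⟨Finset.mem_Icc.2 ⟨hd1, hd2⟩, Finset.mem_product.2 ⟨Finset.mem_range.2
        ((Nat.mod_lt a hd1).trans_le hd2), Finset.mem_univ _⟩⟩) f hf w hw
    exact ⟨m, h1, h2, by simpa using h3, h4⟩
  choose lam hlam using p.st
  have hflipex : ∀ v : A, ∃ w, w ≠ v := fun v => exists_ne v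
  choose flip hflip using hflipex
  have hF : ∀ M, ∃ f, p.In f ∧ (p.N ≤ M → Agree M p.g f ∧
      ∀ a < M, a ∉ p.U → ∀ y, M ≤ y → f a y = flip (lam a)) := by
    intro M
    by_cases hM : p.N ≤ M
    · obtain ⟨q, h1, h2, h3, h4⟩ := flip_exists p lam (flip := flip) M hM
      exact ⟨q.g, h1.in_of q.in_self, fun _ => ⟨h3, fun a ha haU => (h4 a ha haU).2⟩⟩
    · exact ⟨p.g, p.in_self, fun h => absurd h hM⟩
  choose F hF1 hF2 using hF
  obtain ⟨u, hadd, hbig⟩ := exists_idem
  have hy : ∀ x, ∃ v, ∀ᶠ z in (u : Filter ℕ), Φ p.g (n * (x + z)) = v :=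
    fun x => ulim u fun z => Φ p.g (n * (x + z))
  choose y hy using hy
  have hQ : ∀ M x, ∃ v, ∀ᶠ z in (u : Filter ℕ), Φ (F M) (n * (x + z)) = v :=
    fun M x => ulim u fun z => Φ (F M) (n * (x + z))
  choose Q hQ using hQ
  have hQ' : ∀ x, ∃ v, ∀ᶠ M in (hyperfilter ℕ : Filter ℕ), Q M x = v :=
    fun x => ulim (hyperfilter ℕ) fun M => Q M x
  choose Q' hQ' using hQ'
  have hR' : ∀ x, ∃ v, ∀ᶠ z in (u : Filter ℕ), Q' (x + z) = v :=
    fun x => ulim u fun z => Q' (x + z)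
  choose R' hR' using hR'
  -- the window
  have hidem : ∀ t, ∀ᶠ z in (u : Filter ℕ), R' (t + z) = R' t := by
    intro t
    refine ((hadd fun z => Q' (t + z) = R' t).1 (hR' t)).mono fun z hz => ?_
    obtain ⟨z', h1, h2⟩ := (hz.and (hR' (t + z))).exists
    rw [← h2, ← h1, Nat.add_assoc]
  obtain ⟨w, hw⟩ : ∃ w, ∀ t ∈ Finset.range (G + W + 1), Q' (t + w) = R' (t + w) := by
    have h1 : ∀ᶠ z in (u : Filter ℕ), ∀ t ∈ Finset.range (G + W + 1), Q' (t + z) = R' (t + z) := by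
      rw [Filter.eventually_all_finset]
      exact fun t _ => ((hR' t).and (hidem t)).mono fun z hz => hz.1.trans hz.2.symm
    exact h1.exists
  have hcls' : ∀ d a c, 1 ≤ d → d ≤ W → ∃ m, w ≤ m ∧ m ≤ w + G ∧ m % d = a % d ∧ R' m ≠ c := by
    intro d a c hd1 hd2
    obtain ⟨z, hz⟩ : ∃ z, ∀ t ∈ Finset.range (w + G + 1), Q' (t + z) = R' t := by
      have h1 : ∀ᶠ z in (u : Filter ℕ), ∀ t ∈ Finset.range (w + G + 1), Q' (t + z) = R' t := by
        rw [Filter.eventually_all_finset]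
        exact fun t _ => hR' t
      exact h1.exists
    obtain ⟨M, hM⟩ : ∃ M, ∀ t ∈ Finset.range (w + G + 1), Q M (t + z) = Q' (t + z) := by
      have h1 : ∀ᶠ M in (hyperfilter ℕ : Filter ℕ), ∀ t ∈ Finset.range (w + G + 1),
          Q M (t + z) = Q' (t + z) := by
        rw [Filter.eventually_all_finset]
        exact fun t _ => hQ' (t + z)
      exact h1.exists
    obtain ⟨z', hz', hz''⟩ : ∃ z', (∀ t ∈ Finset.range (w + G + 1),
        Φ (F M) (n * (t + z + z')) = Q M (t + z)) ∧ N0 ≤ z' := by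
      have h1 : ∀ᶠ z' in (u : Filter ℕ), ∀ t ∈ Finset.range (w + G + 1),
          Φ (F M) (n * (t + z + z')) = Q M (t + z) := by
        rw [Filter.eventually_all_finset]
        exact fun t _ => hQ M (t + z)
      exact (h1.and (hbig N0)).exists
    obtain ⟨m', h1, h2, h3, h4⟩ := hcls d (a + (z + z')) c (F M) (w + z + z') hd1 hd2 (hF1 M)
      (by omega)
    obtain ⟨m, hm⟩ : ∃ m, m' = m + (z + z') := ⟨m' - (z + z'), by omega⟩
    refine ⟨m, by omega, by omega, ?_, ?_⟩
    · rw [hm] at h3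
      exact Nat.ModEq.add_right_cancel' (z + z') h3
    · have hmem : m ∈ Finset.range (w + G + 1) := Finset.mem_range.2 (by omega)
      rw [← hz m hmem, ← hM m hmem, ← hz' m hmem, Nat.add_assoc, ← hm]
      exact h4
  obtain ⟨x0, d, i, hy0, hl, hnd⟩ := cross hn hW y Q' R' (w := w) (G := G) (fun t ht1 ht2 => by
    have h1 := hw (t - w) (Finset.mem_range.2 (by omega))
    rw [Nat.sub_add_cancel ht1] at h1
    exact h1) hcls'
  -- the first solution
  have hG : ∀ᶠ z in (u : Filter ℕ), Φ p.g (n * (x0 + z)) = i ∧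
      ∀ l ∈ Finset.Ico 1 n, Q' (x0 + l * d + z) = i := by
    refine Eventually.and ?_ ?_
    · rw [← hy0]
      exact hy x0
    · rw [Filter.eventually_all_finset]
      intro l hl'
      rw [← hl l (Finset.mem_Ico.1 hl').1 (Finset.mem_Ico.1 hl').2]
      exact hR' (x0 + l * d)
  obtain ⟨S, hSinf, _, hS⟩ := galvin hadd hbig hG 0
  let X : ℕ → Bool := fun x => decide (∃ z ∈ S, x = x0 + n * z)
  have hXiff : ∀ x, X x = true ↔ ∃ z ∈ S, x = x0 + n * z := by
    intro x
    simp [X]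
  have hX : HTn n (Φ p.g) X := htn_image hn hSinf (i := i) (fun T hT hcard =>
    (hS T (Finset.card_pos.1 (by omega)) hT).1) hXiff
  have hH := R.hsol p.g X p.st hX
  obtain ⟨a, ha, haU⟩ := hH.1.exists_notMem_finset p.U
  obtain ⟨b, hb, hab⟩ := (Set.infinite_iff_exists_gt.1 hH.1) a
  have hval : lam a = p.g a b := lim_of_sol hH hab ha hb ha (hlam a)
  obtain ⟨M1, hM1⟩ := R.hΨ p.g X p.st hX (b + 1)
  let D : Finset ℕ := (Finset.range M1).filter fun z => z ∈ S ∧ x0 + n * z < M1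
  have hDS : ∀ z ∈ D, z ∈ S := fun z hz => (Finset.mem_filter.1 hz).2.1
  have hDM : ∀ z ∈ D, x0 + n * z < M1 := fun z hz => (Finset.mem_filter.1 hz).2.2
  obtain ⟨M2, hM2⟩ := R.hΦ p.g p.st (n * (x0 + ∑ z ∈ D, z) + 1)
  have hocc : ∀ᶠ M in (hyperfilter ℕ : Filter ℕ), ∀ σ ∈ D.powerset, ∀ l ∈ Finset.Icc 1 n,
      l + σ.card = n → Q M (x0 + l * d + ∑ z ∈ σ, z) = i := by
    rw [Filter.eventually_all_finset]
    intro σ hσ
    rw [Filter.eventually_all_finset]
    intro l hl'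
    by_cases hc : l + σ.card = n
    · refine (hQ' (x0 + l * d + ∑ z ∈ σ, z)).mono fun M hM _ => hM.trans ?_
      rcases Nat.eq_zero_or_pos σ.card with h0 | h0
      · rw [Finset.card_eq_zero.1 h0, Finset.sum_empty, Nat.add_zero]
        have : l = n := by omega
        rw [this]
        exact hnd
      · refine (hS σ (Finset.card_pos.1 h0) fun z hz =>
          hDS z (Finset.mem_powerset.1 hσ hz)).2 l (Finset.mem_Ico.2 ⟨?_, ?_⟩)
        · exact (Finset.mem_Icc.1 hl').1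
        · omega
    · exact Eventually.of_forall fun M h' => absurd h' hc
  have hlarge : ∀ᶠ M in (hyperfilter ℕ : Filter ℕ), max (max M1 M2) (max (b + 1) p.N) ≤ M :=
    Nat.hyperfilter_le_atTop (eventually_ge_atTop _)
  obtain ⟨M, hoc, hbigM⟩ := (hocc.and hlarge).exists
  have k1 : M1 ≤ M := (le_max_left M1 M2).trans ((le_max_left _ _).trans hbigM)
  have k2 : M2 ≤ M := (le_max_right M1 M2).trans ((le_max_left _ _).trans hbigM)
  have k3 : b < M := (le_max_left (b + 1) p.N).trans ((le_max_right _ _).trans hbigM)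
  have k4 : p.N ≤ M := (le_max_right (b + 1) p.N).trans ((le_max_right _ _).trans hbigM)
  obtain ⟨hag, hrow⟩ := hF2 M k4
  -- the second solution
  have hG' : ∀ᶠ z in (u : Filter ℕ), ∀ σ ∈ D.powerset, ∀ l ∈ Finset.Icc 1 n,
      l + σ.card = n → Φ (F M) (n * (x0 + l * d + ∑ z ∈ σ, z + z)) = i := by
    rw [Filter.eventually_all_finset]
    intro σ hσ
    rw [Filter.eventually_all_finset]
    intro l hl'
    by_cases hc : l + σ.card = n
    · exact (hQ M (x0 + l * d + ∑ z ∈ σ, z)).mono fun z hz _ => hz.trans (hoc σ hσ l hl' hc)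
    · exact Eventually.of_forall fun M h' => absurd h' hc
  obtain ⟨S', hSinf', hSm', hS'⟩ := galvin hadd hbig hG' M1
  let Z : Set ℕ := {z | z ∈ D ∨ ∃ z' ∈ S', z = z' + d}
  let X' : ℕ → Bool := fun x => decide (∃ z ∈ Z, x = x0 + n * z)
  have hXiff' : ∀ x, X' x = true ↔ ∃ z ∈ Z, x = x0 + n * z := by
    intro x
    simp [X']
  have hZinf : Z.Infinite := by
    rw [Set.infinite_iff_exists_gt]
    intro K
    obtain ⟨z, hz1, hz2⟩ := (Set.infinite_iff_exists_gt.1 hSinf') K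
    exact ⟨z + d, Or.inr ⟨z, hz1, rfl⟩, by omega⟩
  have hX' : HTn n (Φ (F M)) X' := by
    refine htn_image hn hZinf (i := i) (fun T hT hcard => ?_) hXiff'
    have hsplit := Finset.sum_filter_add_sum_filter_not T (fun z => z ∈ D) (fun z => z)
    have hcsplit := Finset.card_filter_add_card_filter_not (s := T) (fun z => z ∈ D)
    have hσD : T.filter (fun z => z ∈ D) ⊆ D := fun z hz => (Finset.mem_filter.1 hz).2
    rcases Nat.eq_zero_or_pos (T.filter fun z => ¬ z ∈ D).card with h0 | h0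
    · have hTD : T ⊆ D := by
        intro z hz
        by_contra hzD
        have : z ∈ T.filter fun z => ¬ z ∈ D := Finset.mem_filter.2 ⟨hz, hzD⟩
        rw [Finset.card_eq_zero.1 h0] at this
        exact Finset.notMem_empty z this
      have h1 : ∑ z ∈ T, z ≤ ∑ z ∈ D, z := Finset.sum_le_sum_of_subset hTD
      rw [hM2 (F M) (hF1 M).1 (hag.mono k2) _
        (Nat.lt_succ_of_le (Nat.mul_le_mul_left n (Nat.add_le_add_left h1 x0)))]
      exact (hS T (Finset.card_pos.1 (by omega)) fun z hz => hDS z (hTD hz)).1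
    · have key : ∀ z ∈ T.filter (fun z => ¬ z ∈ D), z - d ∈ S' ∧ z = z - d + d := by
        intro z hz
        obtain ⟨hz1, hz2⟩ := Finset.mem_filter.1 hz
        rcases hT z hz1 with h | ⟨z', hz', h⟩
        · exact absurd h hz2
        · rw [h, Nat.add_sub_cancel]
          exact ⟨hz', rfl⟩
      have hinj : Set.InjOn (fun z => z - d) (T.filter (fun z => ¬ z ∈ D) : Set ℕ) := by
        intro z hz z' hz' hzz
        have h1 := (key z (Finset.mem_coe.1 hz)).2
        have h2 := (key z' (Finset.mem_coe.1 hz')).2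
        simp only at hzz
        rw [h1, h2, hzz]
      have h1 := hS' ((T.filter fun z => ¬ z ∈ D).image fun z => z - d)
        ((Finset.card_pos.1 h0).image _) (fun z hz => by
          obtain ⟨x, hx, hxz⟩ := Finset.mem_image.1 hz
          rw [← hxz]
          exact (key x hx).1) (T.filter fun z => z ∈ D) (Finset.mem_powerset.2 hσD)
        (T.filter fun z => ¬ z ∈ D).card (Finset.mem_Icc.2 ⟨h0, by omega⟩) (by omega)
      rw [Finset.sum_image hinj] at h1
      have h2 : ∑ z ∈ T with ¬ z ∈ D, z =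
          ∑ z ∈ T with ¬ z ∈ D, (z - d) + (T.filter fun z => ¬ z ∈ D).card * d := by
        calc ∑ z ∈ T with ¬ z ∈ D, z = ∑ z ∈ T with ¬ z ∈ D, (z - d + d) :=
              Finset.sum_congr rfl fun z hz => (key z hz).2
          _ = ∑ z ∈ T with ¬ z ∈ D, (z - d) + (T.filter fun z => ¬ z ∈ D).card * d := by
              rw [Finset.sum_add_distrib, Finset.sum_const, smul_eq_mul]
      have h3 : x0 + ∑ z ∈ T, z = x0 + (T.filter fun z => ¬ z ∈ D).card * d +
          ∑ z ∈ T with z ∈ D, z + ∑ z ∈ T with ¬ z ∈ D, (z - d) := by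
        rw [← hsplit, h2]
        ring
      rw [h3]
      exact h1
  have hXX : ∀ x < M1, X' x = X x := by
    intro x hx
    rw [Bool.eq_iff_iff, hXiff', hXiff]
    constructor
    · rintro ⟨z, hz | ⟨z', hz', hzz⟩, hxz⟩
      · exact ⟨z, hDS z hz, hxz⟩
      · have h1 := hSm' z' hz'
        have h2 : z ≤ n * z := Nat.le_mul_of_pos_left z hn
        omega
    · rintro ⟨z, hz, hxz⟩
      have h2 : z ≤ n * z := Nat.le_mul_of_pos_left z hn
      exact ⟨z, Or.inl (Finset.mem_filter.2 ⟨Finset.mem_range.2 (by omega), hz, by omega⟩), hxz⟩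
  have h5 := hM1 (F M) X' (hF1 M).1 hX' (hag.mono k1) hXX
  have ha' : Ψ (F M) X' a = true := (h5 a (by omega)).trans ha
  have hb' : Ψ (F M) X' b = true := (h5 b (Nat.lt_succ_self b)).trans hb
  have hrowa : ∀ᶠ y in atTop, F M a y = flip (lam a) :=
    (eventually_ge_atTop M).mono fun y hy => hrow a (by omega) haU y hy
  have h6 := lim_of_sol (R.hsol (F M) X' (hF1 M).1 hX') hab ha' hb' ha' hrowa
  rw [← hag a (by omega) b k3, ← hval] at h6
  exact hflip _ h6

end Run7.h628.Weih
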