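import Mathlib
import Pool.Agent.Run7.h628.Weih4
import Pool.Agent.Run7.h628.Weih7

/-!
# From continuity to moduli, for sums of exactly `n` elements
-/

set_option autoImplicit false

namespace Run7.h628.Weih

open Filter Topology

variable {A B : Type} [TopologicalSpace A] [TopologicalSpace B]

theorem modulus_sndN {n : ℕ} {Φ : (ℕ → ℕ → A) → ℕ → B}
    {Ψ : (ℕ → ℕ → A) × (ℕ → Bool) → ℕ → Bool}
    (hΨ : ContinuousOn Ψ {p | Stable p.1 ∧ HTn n (Φ p.1) p.2}) :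
    ∀ f X, Stable f → HTn n (Φ f) X → ∀ K, ∃ M, ∀ f' X', Stable f' → HTn n (Φ f') X' →
      Agree M f f' → (∀ m < M, X' m = X m) → ∀ m < K, Ψ (f', X') m = Ψ (f, X) m := by
  intro f X hf hX K
  by_contra hcon
  push Not at hcon
  choose F Y hF1 hF2 hF3 hF4 hF5 using hcon
  have hY : Tendsto Y atTop (𝓝 X) := by
    refine tendsto_pi_nhds.2 fun m => tendsto_const_nhds.congr' ?_
    exact (eventually_gt_atTop m).mono fun M hM => (hF4 M m hM).symm
  have h1 : Tendsto (fun M => (F M, Y M)) atTop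
      (𝓝[{p | Stable p.1 ∧ HTn n (Φ p.1) p.2}] (f, X)) :=
    tendsto_nhdsWithin_iff.2 ⟨(tendsto_of_agree hF3).prodMk_nhds hY,
      Eventually.of_forall fun M => ⟨hF1 M, hF2 M⟩⟩
  have h2 : Tendsto (fun M => Ψ (F M, Y M)) atTop (𝓝 (Ψ (f, X))) :=
    (hΨ (f, X) ⟨hf, hX⟩).tendsto.comp h1
  obtain ⟨M, hM⟩ := (eventually_eq_below h2 K).exists
  obtain ⟨m, hm, hne⟩ := hF5 M
  exact hne (hM m hm)

end Run7.h628.Weih
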